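import Pool.Agent.MP_a2d820_lc.h69.PReduce

-- ======== part 0: formerly Pool.Agent.MP_a2d820_lc.h69.Machine
section MrgPart0

/-!
Two concrete oracle machines: the polynomial-time decoder and the polynomial-space parity machine.
-/

set_option autoImplicit false

namespace Pool.Agent.MP_a2d820_lc.h69

open Pool.Agent.PolyT Pool.Agent.H82 N487b59b3 Function

/-- The middle bit of every block of three. -/
def third (c : List Bool) : List Bool :=
  tOut (fun (q : Fin 3) b => (q + 1, if q = 1 then [b] else [])) (fun _ => []) 0 c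

theorem third_enc (l : List Bool) : third (bitEncode l) = l := by
  induction l with
  | nil => rfl
  | cons b l ih =>
    rw [enc_cons]
    exact congrArg (b :: ·) ih

@[fun_prop] theorem p_third {α : Type} [N487b59b3 α] {f : α → List Bool} (h : PolyT.Poly f) :
    PolyT.Poly fun a => third (f a) := PolyT.Poly.bitsOf (h.toRaw.transducer _ _ _)

@[fun_prop] theorem p_sel {α : Type} [N487b59b3 α] {f : α → List Bool} (s : Bool)
    (h : PolyT.Poly f) : PolyT.Poly fun a => sel s (f a) := PolyT.Poly.bitsOf (h.toRaw.sel s)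

@[fun_prop] theorem p_enc {α β : Type} [N487b59b3 α] [N487b59b3 β] {f : α → β}
    (h : PolyT.Poly f) : PolyT.Poly fun a => bitEncode (f a) := PolyT.Poly.bitsOf h

@[fun_prop] theorem p_ofBits {α : Type} [N487b59b3 α] {f : α → List Bool}
    (h : PolyT.Poly f) : PolyT.Poly fun a => ofBits (f a) := h.ofBits

@[fun_prop] theorem p_bits {α : Type} [N487b59b3 α] {f : α → ℕ}
    (h : PolyT.Poly f) : PolyT.Poly fun a => (f a).bits := h.bits

@[fun_prop] theorem p_xor {α : Type} [N487b59b3 α] {f g : α → Bool}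
    (h : PolyT.Poly f) (h' : PolyT.Poly g) : PolyT.Poly fun a => xor (f a) (g a) := h.xor h'

/-- States of the concrete machines. -/
abbrev St := List Bool × List Bool × List Bool

theorem length_st (s : St) :
    (bitEncode s).length = 6 * s.1.length + 6 * s.2.1.length + 3 * s.2.2.length + 2 := by
  simp only [length_enc_pair, PolyT.Poly.enc_bools_length]
  omega

theorem exists_om {ini : List Bool → St} {Q : St → List Bool} {δ : St × Bool → St}
    {fin : St → Bool} {out : St × Bool → Bool} (h1 : PolyT.Poly ini) (h2 : PolyT.Poly Q)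
    (h3 : PolyT.Poly δ) (h4 : PolyT.Poly fin) (h5 : PolyT.Poly out) :
    ∃ M : OM, ∀ (O : Lang) (x : List Bool) (t B : ℕ) (s : ℕ → St), s 0 = ini x →
      (∀ r < t, s (r + 1) = δ (s r, O (Q (s r)))) → (∀ r < t, fin (s r) = false) →
      fin (s t) = true → (∀ r ≤ t, (bitEncode (s r)).length + 2 ≤ B) → x.length + 2 ≤ B →
      M.Halts O x B (t + 1) (out (s t, O (Q (s t)))) := by
  let dec : List Bool → St := fun c =>
    (third (sel true c), third (sel true (sel false c)), third (sel false (sel false c)))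
  have hdec : ∀ s, dec (bitEncode s) = s := fun s => by
    simp [dec, enc_pair, sel_pair, third_enc]
  let cur : List Bool → St := fun c =>
    bif c.getD 0 false then ini (c.drop 2) else dec (c.drop 2)
  have hcur : PolyT.Poly cur := by fun_prop
  let M : OM := ⟨fun c => Q (cur c), fun p => bif fin (cur p.1) then [out (cur p.1, p.2)]
    else false :: false :: bitEncode (δ (cur p.1, p.2)), (poly_iff _).1 (by fun_prop),
    (poly_iff _).1 (by fun_prop)⟩
  refine ⟨M, fun O x t B s e0 e1 e2 e3 e4 e5 => ?_⟩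
  have key : ∀ r ≤ t, cur (M.run O x r) = s r ∧ 2 ≤ (M.run O x r).length ∧
      (M.run O x r).length ≤ B := by
    intro r hr
    induction r with
    | zero => exact ⟨e0.symm, by simp [OM.run], e5⟩
    | succ r ih =>
      have h : M.run O x (r + 1) = false :: false :: bitEncode (s (r + 1)) := by
        simp only [OM.run, M]
        rw [(ih (by omega)).1, e2 r hr, e1 r hr]
        rfl
      rw [h]
      exact ⟨hdec _, by simp, e4 _ hr⟩
  refine ⟨?_, fun r hr => (key r (by omega)).2⟩
  simp only [OM.run, M]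
  rw [(key t le_rfl).1, e3]
  rfl

/-- The string that names the table entry `(u, j, b)`. -/
def ad (u j : List Bool) (b : ℕ) : List Bool := bitEncode (u, j, b)

@[fun_prop] theorem p_ad {α : Type} [N487b59b3 α] {f g : α → List Bool} {h : α → ℕ}
    (hf : PolyT.Poly f) (hg : PolyT.Poly g) (hh : PolyT.Poly h) :
    PolyT.Poly fun a => ad (f a) (g a) (h a) := by unfold ad; fun_prop

/-- The rule that reads an address from `A` and looks it up in `S`. -/
def rule (A S : Lang) (κ : List Bool × List Bool) : Bool :=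
  S ((List.range κ.1.length).map fun b => A (ad κ.1 κ.2 (b + 1)))

theorem decoder_mem {u : List Bool → List Bool} (hu : PolyT.Poly u) (A S : Lang) :
    (fun x => A (ad (u x) (pos (rule A S) (u x) (u x).length) 0)) ∈ RelP (join A S) := by
  obtain ⟨M, hM⟩ := exists_om (ini := fun x => (u x, [], []))
    (Q := fun s => bif eqB s.2.1.length s.1.length then false :: ad s.1 s.2.1 0 else
      bif ltB s.2.2.length s.1.length then false :: ad s.1 s.2.1 (s.2.2.length + 1)
      else true :: s.2.2)
    (δ := fun p => bif ltB p.1.2.2.length p.1.1.length then (p.1.1, p.1.2.1, p.1.2.2 ++ [p.2])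
      else (p.1.1, p.2 :: p.1.2.1, []))
    (fin := fun s => eqB s.2.1.length s.1.length) (out := fun p => p.2)
    (by fun_prop) (by fun_prop) (by fun_prop) (by fun_prop) (by fun_prop)
  obtain ⟨p, hp⟩ := hu.bd
  set q := p.comp (3 * Polynomial.X)
  refine ⟨M, q * (q + 1) + 15 * q + Polynomial.X + 4, fun x => ?_⟩
  have h1 : (u x).length ≤ q.eval x.length := by
    have := hp x
    simp only [PolyT.Poly.enc_bools_length] at this
    simp only [q, Polynomial.eval_comp, Polynomial.eval_mul, Polynomial.eval_ofNat,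
      Polynomial.eval_X]
    omega
  set v := u x with hv
  set l := v.length
  let al : List Bool → List Bool := fun j => (List.range l).map fun b => A (ad v j (b + 1))
  have hal : ∀ j, (al j).length = l := fun j => by simp [al]
  have hdiv : ∀ r < l * (l + 1), r / (l + 1) < l := fun r hr =>
    (Nat.div_lt_iff_lt_mul (by omega)).2 hr
  have hmod : ∀ r, r % (l + 1) ≤ l := fun r => Nat.lt_succ_iff.1 (Nat.mod_lt _ (by omega))
  have h2 := Nat.mul_le_mul h1 (Nat.add_le_add_right h1 1)
  have h := hM (join A S) x (l * (l + 1)) ((q * (q + 1) + 15 * q + Polynomial.X + 4).eval x.length)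
    (fun r => (v, pos (rule A S) v (r / (l + 1)),
      (al (pos (rule A S) v (r / (l + 1)))).take (r % (l + 1)))) (by simp [pos, hv])
    (fun r hr => ?_) (fun r hr => by simpa using (hdiv r hr).ne) (by simp [l])
    (fun r hr => ?_) (by simp; omega)
  · refine ⟨l * (l + 1) + 1, by simp; omega, ?_⟩
    simpa [l, join, eqB_iff.2 (rfl : v.length = v.length)] using h
  · have h3 := hdiv r hr
    have h4 := hmod r
    have h5 := Nat.div_add_mod r (l + 1)
    have h6 : eqB (r / (l + 1)) l = false := by simpa using h3.ne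
    rcases h4.lt_or_eq with h7 | h7
    · have h8 : (r + 1) / (l + 1) = r / (l + 1) ∧ (r + 1) % (l + 1) = r % (l + 1) + 1 :=
        (Nat.div_mod_unique (by omega)).2 ⟨by omega, by omega⟩
      have h9 : ltB (r % (l + 1)) l = true := by simpa using h7
      simp only [h8, length_pos, List.length_take, hal, min_eq_left h4, h6, h9, cond_true,
        cond_false, join, l]
      rw [List.take_add_one]
      simp [al, List.getElem?_range h7, l]
    · have h8 : (r + 1) / (l + 1) = r / (l + 1) + 1 ∧ (r + 1) % (l + 1) = 0 :=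
        (Nat.div_mod_unique (by omega)).2 ⟨by rw [Nat.mul_succ]; omega, by omega⟩
      have h9 : ltB l l = false := by simp
      simp only [h8, h7, length_pos, List.length_take, hal, min_self, h6, h9,
        cond_false, join, l, pos]
      rw [List.take_of_length_le (hal _).le]
      rfl
  · have h3 : r / (l + 1) ≤ l := Nat.div_le_of_le_mul (by rwa [mul_comm])
    have h4 := hmod r
    simp only [length_st, length_pos, List.length_take, hal, Polynomial.eval_add,
      Polynomial.eval_mul, Polynomial.eval_ofNat]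
    omega

/-- The binary expansion of `c` with as many digits as `x` has bits. -/
def dig (x : List Bool) (c : ℕ) : List Bool := (c.bits ++ x.map fun _ => false).take x.length

@[simp] theorem length_dig (x : List Bool) (c : ℕ) : (dig x c).length = x.length := by
  simp [dig]

theorem ofBits_false (l x : List Bool) : ofBits (l ++ x.map fun _ => false) = ofBits l := by
  induction l with
  | nil =>
    induction x with
    | nil => rfl
    | cons b x ih => simpa using ih
  | cons b l ih => simp only [List.cons_append, ofBits_cons, ih]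

theorem ofBits_dig {x : List Bool} {c : ℕ} (h : c < 2 ^ x.length) : ofBits (dig x c) = c := by
  have h1 : c.bits.length ≤ x.length := by rw [Nat.size_eq_bits_len]; exact Nat.size_le.2 h
  rw [dig, List.take_append, List.take_of_length_le h1, ← List.map_take, ofBits_false, ofBits_bits]

theorem ofBits_inj {l l' : List Bool} (h : l.length = l'.length) (e : ofBits l = ofBits l') :
    l = l' := by
  induction l generalizing l' with
  | nil => exact (List.length_eq_zero_iff.1 h.symm).symm
  | cons b l ih =>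
    rcases l' with _ | ⟨b', l'⟩
    · simp at h
    · simp only [ofBits_cons] at e
      have : b = b' ∧ ofBits l = ofBits l' := by
        cases b <;> cases b' <;> simp at e ⊢ <;> omega
      rw [this.1, ih (by simpa using h) this.2]

/-- The parity of the first `c` entries of the row `x`. -/
def par (A : Lang) (x : List Bool) : ℕ → Bool
  | 0 => false
  | c + 1 => xor (par A x c) (A (ad x (dig x c) 0))

theorem par_mem (A : Lang) : (fun x => par A x (2 ^ x.length)) ∈ RelPSPACE A := by
  obtain ⟨M, hM⟩ := exists_om (ini := fun x => (x, [], [false]))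
    (Q := fun s => ad s.1 (dig s.1 (ofBits s.2.1)) 0)
    (δ := fun p => (p.1.1, (ofBits p.1.2.1 + 1).bits, [xor (p.1.2.2.getD 0 false) p.2]))
    (fin := fun s => eqB (ofBits s.2.1) (ofBits ((s.1.map fun _ => false) ++ [true])))
    (out := fun p => p.1.2.2.getD 0 false)
    (by fun_prop) (by unfold dig; fun_prop) (by fun_prop) (by fun_prop) (by fun_prop)
  refine ⟨M, 12 * Polynomial.X + 13, fun x => ⟨2 ^ x.length + 1, ?_⟩⟩
  have h1 : ofBits ((x.map fun _ => false) ++ [true]) = 2 ^ x.length := by
    rw [ofBits_append]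
    simpa using ofBits_false [] x
  refine hM A x (2 ^ x.length) _ (fun r => (x, r.bits, [par A x r])) (by simp [par])
    (fun r _ => by simp [ofBits_bits, par]) (fun r hr => by simpa only [ofBits_bits, h1, eqB_false_iff] using hr.ne)
    (by simp only [ofBits_bits, h1, eqB_iff]) (fun r hr => ?_) (by simp; omega)
  have h2 : r.bits.length ≤ x.length + 1 := by
    rw [Nat.size_eq_bits_len]
    exact Nat.size_le.2 (hr.trans_lt (Nat.pow_lt_pow_right (by norm_num) (by omega)))
  simp [length_st]
  omega

theorem par_congr {A A' : Lang} {x : List Bool}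
    (h : ∀ j, j.length = x.length → A (ad x j 0) = A' (ad x j 0)) (c : ℕ) :
    par A x c = par A' x c := by
  induction c with
  | zero => rfl
  | succ c ih => rw [par, par, ih, h _ (length_dig _ _)]

theorem par_flip {A A' : Lang} {x j₀ : List Bool} (h0 : j₀.length = x.length)
    (h : ∀ j, j ≠ j₀ → A (ad x j 0) = A' (ad x j 0)) (h' : A (ad x j₀ 0) = !A' (ad x j₀ 0)) :
    par A x (2 ^ x.length) = !par A' x (2 ^ x.length) := by
  have key : ∀ c ≤ 2 ^ x.length, par A x c = xor (par A' x c) (decide (ofBits j₀ < c)) := by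
    intro c hc
    induction c with
    | zero => simp [par]
    | succ c ih =>
      rw [par, par, ih (by omega)]
      by_cases e : dig x c = j₀
      · have h1 : ofBits j₀ = c := by rw [← e, ofBits_dig hc]
        rw [e, h', h1]
        simp
      · have h1 : ofBits j₀ ≠ c := fun e' =>
          e (ofBits_inj (by simp [h0]) (by rw [ofBits_dig hc, e']))
        have h2 : decide (ofBits j₀ < c + 1) = decide (ofBits j₀ < c) :=
          decide_eq_decide.2 (by omega)
        rw [h _ e, h2]
        cases par A' x c <;> cases decide (ofBits j₀ < c) <;> simp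
  rw [key _ le_rfl]
  simp [h0 ▸ ofBits_lt j₀]

end Pool.Agent.MP_a2d820_lc.h69

end MrgPart0

-- ======== part 1: formerly Pool.Agent.MP_a2d820_lc.h69.Oracle
section MrgPart1

/-!
The self-referential oracle that hides the answers to all space-bounded computations.
-/

set_option autoImplicit false

namespace Pool.Agent.MP_a2d820_lc.h69

open Pool.Agent.PolyT Pool.Agent.H82 N487b59b3 Function

/-- Recursion on the length of strings. -/
def fix (F : List Bool → Lang → Bool) (w : List Bool) : Bool :=
  F w fun v => if v.length < w.length then fix F v else false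
termination_by w.length

/-- The row named by a string. -/
def row (w : List Bool) : List Bool := third (sel true w)

@[simp] theorem row_ad (u j : List Bool) (b : ℕ) : row (ad u j b) = u := by
  simp [row, ad, enc_pair, sel_pair, third_enc]

theorem ad_inj {u j u' j' : List Bool} {b b' : ℕ} (h : ad u j b = ad u' j' b') :
    u = u' ∧ j = j' ∧ b = b' := by
  simpa using bitEncode_injective h

theorem le_length_ad (u j : List Bool) (b : ℕ) : u.length ≤ (ad u j b).length := by
  simp only [ad, length_enc_pair, PolyT.Poly.enc_bools_length]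
  omega

/-- The level of a string. -/
def lev (w : List Bool) : ℕ := min w.length (row w).length

theorem lev_le (w : List Bool) : lev w ≤ w.length := min_le_left _ _

@[simp] theorem lev_ad (u j : List Bool) (b : ℕ) : lev (ad u j b) = u.length := by
  simp [lev, le_length_ad]

/-- The part of an oracle below a length. -/
def trunc (l : ℕ) (O : Lang) : Lang := fun v => decide (v.length < l) && O v

open Classical in
/-- The answer to the question `u`. -/
noncomputable def ans (mc : ℕ → OM) (u : List Bool) (O : Lang) : Bool :=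
  decide (∃ (i : ℕ) (x y : List Bool) (s t : ℕ), u = true :: bitEncode (i, x, y) ∧
    (mc i).Halts (trunc u.length O) x s t true)

theorem ans_congr (mc : ℕ → OM) (u : List Bool) {A A' S S' : Lang}
    (hA : ∀ v, v.length < u.length → A v = A' v) (hS : ∀ v, v.length < u.length → S v = S' v) :
    ans mc u (join A S) = ans mc u (join A' S') := by
  have : trunc u.length (join A S) = trunc u.length (join A' S') := by
    funext v
    by_cases hv : v.length < u.length
    · rcases v with _ | ⟨_ | _, v⟩
      · rfl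
      · simp only [trunc, join, hA v (by simp at hv; omega)]
      · simp only [trunc, join, hS v (by simp at hv; omega)]
    · simp [trunc, hv]
  rw [ans, ans, this]

/-- The hidden positions. -/
def Special (θ S : Lang) (w : List Bool) : Prop :=
  (row w).head? = some true ∧ w = ad (row w) (pos (rule θ S) (row w) (row w).length) 0

open Classical in
/-- The oracle with background `θ` and key `S`. -/
noncomputable def orc (mc : ℕ → OM) (θ S : Lang) : Lang :=
  fix fun w O => if Special θ S w then ans mc (row w) (join O S) else θ w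

theorem orc_of_not (mc : ℕ → OM) {θ S : Lang} {w : List Bool} (h : ¬Special θ S w) :
    orc mc θ S w = θ w := by
  rw [orc, fix, if_neg h]

theorem orc_of_special (mc : ℕ → OM) {θ S : Lang} {w : List Bool} (h : Special θ S w) :
    orc mc θ S w = ans mc (row w) (join (orc mc θ S) S) := by
  rw [orc, fix, if_pos h]
  refine ans_congr mc _ (fun v hv => if_pos ?_) fun _ _ => rfl
  have := le_length_ad (row w) (pos (rule θ S) (row w) (row w).length) 0
  rw [← h.2] at this
  omega

theorem special_ad {θ S : Lang} {u j : List Bool} {b : ℕ} : Special θ S (ad u j b) ↔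
    u.head? = some true ∧ j = pos (rule θ S) u u.length ∧ b = 0 := by
  simp only [Special, row_ad]
  exact and_congr_right fun _ => ⟨fun h => (ad_inj h).2, fun h => by rw [← h.1, h.2]⟩

theorem rule_orc (mc : ℕ → OM) (θ S : Lang) : rule (orc mc θ S) S = rule θ S := by
  funext κ
  simp only [rule]
  congr 2
  funext b
  exact orc_of_not mc (by simp [special_ad])

theorem pspace_subset {mc : ℕ → OM} (hmc : Surjective mc) (θ S : Lang) :
    RelPSPACE (join (orc mc θ S) S) ⊆ RelP (join (orc mc θ S) S) := by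
  classical
  rintro L ⟨M, p, hL⟩
  obtain ⟨i, rfl⟩ := hmc M
  obtain ⟨q, hq⟩ := (mc i).exists_qb
  obtain ⟨F, hF, hF'⟩ := exists_list_eval (l := fun x : List Bool => x) (by fun_prop) (q.comp p)
  have h := decoder_mem (u := fun x => true :: bitEncode (i, x, (F x).map fun _ => false))
    (by fun_prop) (orc mc θ S) S
  refine (funext fun x => ?_ : _ = L) ▸ h
  rw [rule_orc, orc_of_special mc (special_ad.2 ⟨rfl, rfl, rfl⟩), row_ad]
  obtain ⟨t, ht⟩ := hL x
  have h1 := ht.congr (O' := trunc (true :: bitEncode (i, x, (F x).map fun _ => false)).length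
    (join (orc mc θ S) S)) fun c hc => by
      have h2 := hq c _ hc
      have h3 := hF' x
      simp only [Polynomial.eval_comp] at h3
      have : ((mc i).qry c).length <
          (true :: bitEncode (i, x, (F x).map fun _ => false)).length := by
        simp only [List.length_cons, length_enc_pair, PolyT.Poly.enc_bools_length, List.length_map]
        omega
      simp only [trunc, this, decide_true, Bool.true_and]
  rw [Bool.eq_iff_iff, ans, decide_eq_true_eq]
  constructor
  · rintro ⟨i', x', y', s, t', e, h2⟩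
    have e' := bitEncode_injective (List.cons.inj e).2
    simp only [Prod.mk.injEq] at e'
    obtain ⟨rfl, rfl, -⟩ := e'
    exact h1.unique h2
  · intro hx
    exact ⟨i, x, _, _, t, rfl, hx ▸ h1⟩

/-- Two pairs of parameters agree below level `l`. -/
def Agree (l : ℕ) (θ S θ' S' : Lang) : Prop :=
  (∀ w, lev w < l → θ w = θ' w) ∧ ∀ w, w.length < l → S w = S' w

theorem Agree.special {l : ℕ} {θ S θ' S' : Lang} (h : Agree l θ S θ' S') {w : List Bool}
    (hw : lev w < l) (hs : Special θ S w) : Special θ' S' w := by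
  obtain ⟨h1, h2⟩ := hs
  have h3 : (row w).length < l := by rwa [h2, lev_ad] at hw
  refine ⟨h1, h2.trans ?_⟩
  rw [pos_congr fun j _ => ?_]
  simp only [rule]
  rw [h.2 _ (by simpa using h3)]
  congr 2
  funext b
  exact h.1 _ (by simpa using h3)

theorem Agree.orc {l : ℕ} {θ S θ' S' : Lang} (h : Agree l θ S θ' S') (mc : ℕ → OM) (w : List Bool)
    (hw : lev w < l) : orc mc θ S w = orc mc θ' S' w := by
  induction hn : w.length using Nat.strong_induction_on generalizing w with
  | _ n ih =>
    by_cases hs : Special θ S w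
    · have h3 : (row w).length < l := by rwa [hs.2, lev_ad] at hw
      have h4 : (row w).length ≤ w.length := by
        conv_rhs => rw [hs.2]
        exact le_length_ad _ _ _
      rw [orc_of_special mc hs, orc_of_special mc (h.special hw hs)]
      exact ans_congr mc _ (fun v hv => ih _ (by omega) v (by have := lev_le v; omega) rfl)
        fun v hv => h.2 v (by omega)
    · rw [orc_of_not mc hs, orc_of_not mc fun hs' => hs (Agree.special
        ⟨fun w hw => (h.1 w hw).symm, fun w hw => (h.2 w hw).symm⟩ hw hs'), h.1 w hw]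

end Pool.Agent.MP_a2d820_lc.h69

end MrgPart1

-- ======== part 2: formerly Pool.Agent.MP_a2d820_lc.h69.Stage
section MrgPart2

/-!
One stage of the construction: defeating one tower of machines.
-/

set_option autoImplicit false

namespace Pool.Agent.MP_a2d820_lc.h69

open Pool.Agent.PolyT Pool.Agent.H82 N487b59b3 Function Finset

theorem poly_le_pow (p : Polynomial ℕ) : ∃ c, ∀ n, p.eval n ≤ (n + 2) ^ c := by
  induction p using Polynomial.induction_on' with
  | add p q hp hq =>
    obtain ⟨a, ha⟩ := hp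
    obtain ⟨b, hb⟩ := hq
    refine ⟨a + b + 1, fun n => ?_⟩
    have h1 : (n + 2) ^ a ≤ (n + 2) ^ (a + b) := Nat.pow_le_pow_right (by omega) (by omega)
    have h2 : (n + 2) ^ b ≤ (n + 2) ^ (a + b) := Nat.pow_le_pow_right (by omega) (by omega)
    have := ha n
    have := hb n
    rw [Polynomial.eval_add, pow_succ]
    nlinarith
  | monomial k c =>
    refine ⟨c + k, fun n => ?_⟩
    rw [Polynomial.eval_monomial, pow_add]
    exact Nat.mul_le_mul (Nat.lt_two_pow_self.le.trans (Nat.pow_le_pow_left (by omega) _))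
      (Nat.pow_le_pow_left (by omega) _)

theorem poly_le_two_pow (p : Polynomial ℕ) (K : ℕ) (hK : 0 < K) :
    ∀ᶠ n in Filter.atTop, p.eval n ≤ 2 ^ (n / K) := by
  obtain ⟨c, hc⟩ := poly_le_pow p
  have h := (tendsto_pow_const_div_const_pow_of_one_lt c (r := 2) (by norm_num)).eventually
    (gt_mem_nhds (show (0 : ℝ) < 1 / (2 * (K + 2) ^ c) by positivity))
  obtain ⟨m₀, h⟩ := Filter.eventually_atTop.1 h
  refine Filter.eventually_atTop.2 ⟨m₀ * K, fun n hn => (hc n).trans ?_⟩
  have h1 := h (n / K + 1) (((Nat.le_div_iff_mul_le hK).2 hn).trans (Nat.le_succ _))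
  rw [div_lt_div_iff₀ (by positivity) (by positivity)] at h1
  have h2 : (n / K + 1) ^ c * (2 * (K + 2) ^ c) < 1 * 2 ^ (n / K + 1) := by exact_mod_cast h1
  have h3 : n + 2 ≤ (n / K + 1) * (K + 2) := by
    have := Nat.lt_div_mul_add (a := n) hK
    nlinarith [Nat.zero_le (n / K)]
  have h4 := Nat.pow_le_pow_left h3 c
  rw [mul_pow] at h4
  rw [pow_succ] at h2
  nlinarith

theorem stage_core (mc : ℕ → OM) (b : OM × Polynomial ℕ)
    (l : List (OM × Polynomial ℕ × Polynomial ℕ)) {B n T W M : ℕ}
    (hloc : ∀ A A' : Lang, (∀ v, v.length ≤ B → A v = A' v) →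
      ev b l A (List.replicate n false) = ev b l A' (List.replicate n false))
    (hAC : ∀ σ : (Var n T → Bool) → Lang, (∀ v, DT 1 fun z => σ z v) →
      AC (B + 1) (2 ^ B) l.length {fun z => ev b l (σ z) (List.replicate n false)})
    (hBT : B < T) (hnT : n < T) (hn : 2 * (l.length + 1) ≤ n) (hT : 2 * T ≤ 2 ^ n)
    (hW : ((B + 1) * (B + 1)) ^ l.length * (B + 1) = W)
    (hR : 12 * W ≤ 2 ^ (n / (l.length + 1) / 2)) (hM0 : 0 < M)
    (hM : (W * T * 2 ^ (6 * (l.length + 1))) ^ 2 ≤ M) (hM' : (l.length + 1) * M ≤ 2 ^ n)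
    (θ S : Lang) :
    ∃ θ' S' : Lang, Agree n θ S θ' S' ∧
      (∃ X : Finset (List Bool), X.card ≤ T * ((l.length + 1) * M) ∧ (∀ w ∈ X, n ≤ w.length) ∧
        ∀ w, S' w = true → S w = true ∨ w ∈ X) ∧
      ∀ θ'' S'' : Lang, Agree T θ' S' θ'' S'' → ev b l (orc mc θ'' S'') (List.replicate n false) ≠
        par (orc mc θ'' S'') (List.replicate n false) (2 ^ n) := by
  classical
  set k := l.length
  set x := List.replicate n false with hx
  have hxn : x.length = n := by simp [hx]
  obtain ⟨Γ, hΓ⟩ := exists_sel (t := W) hn hT hM0 hM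
  let ad' : List Bool × List Bool × ℕ → List Bool := fun p => ad p.1 p.2.1 p.2.2
  have had : Injective ad' := fun p q h => by
    obtain ⟨h1, h2, h3⟩ := ad_inj h
    exact Prod.ext h1 (Prod.ext h2 h3)
  let val : (Var n T → Bool) → List Bool × List Bool × ℕ → Bool := fun z p =>
    if h : n ≤ p.1.length ∧ p.1.length < T ∧ p.2.1.length = p.1.length ∧ p.2.2 = 0 then
      z ⟨(p.1, p.2.1), h.1, h.2.1, h.2.2.1⟩
    else if n ≤ p.1.length then
      (dig p.1 (grp k (p.1, p.2.1) * M + Γ (p.1, p.2.1))).getD (p.2.2 - 1) false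
    else θ (ad' p)
  let θz : (Var n T → Bool) → Lang := fun z => extend ad' (val z) θ
  have hθ : ∀ z u j b, θz z (ad u j b) = val z (u, j, b) := fun z u j b =>
    had.extend_apply _ _ (u, j, b)
  have hθv : ∀ z (v : Var n T), θz z (ad v.1.1 v.1.2 0) = z v := fun z v => by
    rw [hθ]
    exact dif_pos ⟨v.2.1, v.2.2.1, v.2.2.2, rfl⟩
  have hθo : ∀ z z' w, (∀ v : Var n T, w ≠ ad v.1.1 v.1.2 0) → θz z w = θz z' w := by
    intro z z' w hw
    by_cases h : ∃ p, ad' p = w
    · obtain ⟨⟨u, j, b⟩, rfl⟩ := h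
      have h1 : ¬(n ≤ u.length ∧ u.length < T ∧ j.length = u.length ∧ b = 0) := fun h =>
        hw ⟨(u, j), h.1, h.2.1, h.2.2.1⟩ (congrArg (ad u j) h.2.2.2)
      rw [hθ, hθ]
      simp only [val, dif_neg h1]
    · exact (extend_apply' _ _ _ h).trans (extend_apply' _ _ _ h).symm
  have hθl : ∀ z w, lev w < n → θ w = θz z w := by
    intro z w hw
    by_cases h : ∃ p, ad' p = w
    · obtain ⟨⟨u, j, b⟩, rfl⟩ := h
      have h1 : ¬n ≤ u.length := by simpa [ad'] using hw
      rw [hθ]
      simp only [val, h1, false_and, dite_false, if_false]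
    · exact (extend_apply' _ _ _ h).symm
  let σ : (Var n T → Bool) → Lang := fun z w => if lev w < n then orc mc θ S w else θz z w
  have hσ : ∀ w, DT 1 fun z => σ z w := by
    intro w
    by_cases h : lev w < n
    · exact (DTq.const 1 (orc mc θ S w)).congr fun z => (if_pos h).symm
    by_cases h' : ∃ v : Var n T, w = ad v.1.1 v.1.2 0
    · obtain ⟨v, rfl⟩ := h'
      exact (dt_var v).congr fun z => ((if_neg h).trans (hθv z v)).symm
    · push Not at h'
      exact (DTq.const 1 (θz (fun _ => false) w)).congr fun z =>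
        (hθo (fun _ => false) z w h').trans (if_neg h : σ z w = θz z w).symm
  obtain ⟨X, y, c, ⟨ω, hω⟩, hc⟩ := exists_const (s := B + 1) (by omega)
    (Nat.pow_lt_pow_right (by norm_num) (by omega)) Nat.one_le_two_pow k hW.le (hW ▸ hR) _ _
    (hAC σ hσ) hΓ
  let S' : Lang := fun w => if n ≤ w.length ∧ w.length < T ∧ ofBits w < (k + 1) * M then
    ω (ofBits w / M) ⟨ofBits w % M, Nat.mod_lt _ hM0⟩ else S w
  have hrule : ∀ z u j, n ≤ u.length → u.length < T →
      rule (θz z) S' (u, j) = ω (grp k (u, j)) (Γ (u, j)) := by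
    intro z u j h1 h2
    have h3 : grp k (u, j) * M + Γ (u, j) < (k + 1) * M := by
      have : grp k (u, j) * M ≤ k * M := Nat.mul_le_mul_right M (min_le_left _ _)
      have := (Γ (u, j)).2
      rw [Nat.succ_mul]
      omega
    have h4 : ((List.range u.length).map fun b => θz z (ad u j (b + 1))) =
        dig u (grp k (u, j) * M + Γ (u, j)) := by
      refine List.ext_getElem (by simp) fun i hi hi' => ?_
      simp only [List.getElem_map, List.getElem_range, hθ, val, h1, Nat.succ_ne_zero, and_false,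
        dite_false, if_true, Nat.add_sub_cancel]
      exact List.getD_eq_getElem _ _ hi'
    have h5 := ofBits_dig (x := u)
      (h3.trans_le (hM'.trans (Nat.pow_le_pow_right (by norm_num) h1)))
    simp only [rule, h4, S', length_dig, h5, h1, h2, h3, and_self, if_true]
    congr 1
    · rw [add_comm, Nat.add_mul_div_right _ _ hM0, Nat.div_eq_of_lt (Γ (u, j)).2, zero_add]
    · refine Fin.ext ?_
      simp only
      rw [add_comm, Nat.add_mul_mod_self_right, Nat.mod_eq_of_lt (Γ (u, j)).2]
  let v₀ : Var n T := ⟨(x, pos (fun κ => ω (grp k κ) (Γ κ)) x x.length), by simp [hxn, hnT]⟩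
  have hv₀ : v₀ ∈ X := hω v₀ rfl
  obtain ⟨β, hβ⟩ : ∃ β, par (θz (update y v₀ β)) x (2 ^ n) ≠ c := by
    have h := par_flip (A := θz (update y v₀ true)) (A' := θz (update y v₀ false)) (x := x)
      (j₀ := v₀.1.2) v₀.2.2.2 (fun j hj => ?_)
      (by rw [hθv _ v₀, hθv _ v₀]; simp)
    · rw [hxn] at h
      by_contra hcon
      push Not at hcon
      rw [hcon, hcon] at h
      simp at h
    · by_cases h' : ∃ v : Var n T, ad x j 0 = ad v.1.1 v.1.2 0
      · obtain ⟨v, e⟩ := h'
        have : v ≠ v₀ := fun h => hj (h ▸ (ad_inj e).2.1)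
        rw [e, hθv, hθv, update_of_ne this, update_of_ne this]
      · push Not at h'
        exact hθo _ _ _ h'
  have hag : Agree n θ S (θz (update y v₀ β)) S' :=
    ⟨hθl _, fun w hw => (if_neg fun h => by omega).symm⟩
  refine ⟨θz (update y v₀ β), S', hag, ⟨((range T ×ˢ range ((k + 1) * M)).image fun p =>
    dig (List.replicate p.1 false) p.2).filter (n ≤ ·.length), ?_, fun w hw => (mem_filter.1 hw).2,
    fun w hw => ?_⟩, fun θ'' S'' h => ?_⟩
  · exact (card_filter_le _ _).trans (card_image_le.trans (by simp))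
  · by_cases h : n ≤ w.length ∧ w.length < T ∧ ofBits w < (k + 1) * M
    · refine Or.inr (mem_filter.2 ⟨mem_image.2 ⟨(w.length, ofBits w), by simp [h], ?_⟩, h.1⟩)
      exact ofBits_inj (by simp) (ofBits_dig (by simpa using ofBits_lt w))
    · exact Or.inl ((if_neg h).symm.trans hw)
  · set A' := orc mc (θz (update y v₀ β)) S'
    let z : Var n T → Bool := fun v => A' (ad v.1.1 v.1.2 0)
    have hsp : ∀ w, n ≤ lev w → lev w < T → Special (θz (update y v₀ β)) S' w →
        ∃ v ∈ X, w = ad v.1.1 v.1.2 0 := by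
      intro w h1 h2 hs
      have e := hs.2
      rw [e, lev_ad] at h1 h2
      rw [pos_congr (H' := fun κ => ω (grp k κ) (Γ κ)) fun j _ => hrule _ _ j h1 h2] at e
      exact ⟨⟨(_, _), h1, h2, length_pos _ _ _⟩, hω _ rfl, e⟩
    have h1 : res X y z = z := by
      funext v
      by_cases hv : v ∈ X
      · exact res_of_mem hv
      · rw [res_of_notMem hv]
        have h2 : ¬Special (θz (update y v₀ β)) S' (ad v.1.1 v.1.2 0) := fun hs => by
          obtain ⟨v', h3, e⟩ := hsp _ (by simpa using v.2.1) (by simpa using v.2.2.1) hs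
          exact hv ((Subtype.ext (Prod.ext (ad_inj e).1 (ad_inj e).2.1) : v = v') ▸ h3)
        exact ((orc_of_not mc h2).trans ((hθv _ v).trans
          (update_of_ne (fun e : v = v₀ => hv (e.symm ▸ hv₀)) _ _))).symm
    have h2 : ∀ w, lev w < T → σ z w = A' w := by
      intro w hw
      by_cases h3 : lev w < n
      · exact (if_pos h3).trans (hag.orc mc w h3)
      refine (if_neg h3).trans ?_
      by_cases h' : ∃ v : Var n T, w = ad v.1.1 v.1.2 0
      · obtain ⟨v, rfl⟩ := h'
        exact hθv z v
      · push Not at h'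
        refine (hθo _ _ w h').trans (orc_of_not mc fun hs => ?_).symm
        obtain ⟨v, -, e⟩ := hsp w (by omega) hw hs
        exact h' v e
    have h3 := hc z
    rw [h1, hloc _ (orc mc θ'' S'') fun v hv => (h2 v (by have := lev_le v; omega)).trans
      (h.orc mc v (by have := lev_le v; omega))] at h3
    rw [h3, ← par_congr (A := θz (update y v₀ β)) fun j _ => ?_]
    · exact hβ.symm
    · rw [← h.orc mc _ (by simpa [hxn] using hnT), orc_of_not]
      rw [special_ad]
      intro h4
      have := List.mem_of_mem_head? h4.1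
      simp [hx] at this

theorem stage (mc : ℕ → OM) (b : OM × Polynomial ℕ)
    (l : List (OM × Polynomial ℕ × Polynomial ℕ)) :
    ∃ C : Polynomial ℕ, ∀ᶠ n in Filter.atTop, ∀ θ S : Lang, ∃ θ' S' : Lang, ∃ T > n,
      Agree n θ S θ' S' ∧
      (∃ X : Finset (List Bool), X.card ≤ C.eval n ∧ (∀ w ∈ X, n ≤ w.length) ∧
        ∀ w, S' w = true → S w = true ∨ w ∈ X) ∧
      ∀ θ'' S'' : Lang, Agree T θ' S' θ'' S'' → ∃ x, ev b l (orc mc θ'' S'') x ≠
        par (orc mc θ'' S'') x (2 ^ x.length) := by
  obtain ⟨B, h1, h2⟩ := ev_bound b l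
  let T := B + Polynomial.X + 1
  let W := ((B + 1) * (B + 1)) ^ l.length * (B + 1)
  let M := (W * T * 2 ^ (6 * (l.length + 1))) ^ 2
  refine ⟨T * ((l.length + 1) * M), ?_⟩
  filter_upwards [Filter.eventually_ge_atTop (2 * (l.length + 1)),
    poly_le_two_pow (2 * T) 1 one_pos, poly_le_two_pow (12 * W) ((l.length + 1) * 2) (by omega),
    poly_le_two_pow ((l.length + 1) * M) 1 one_pos] with n e1 e2 e3 e4 θ S
  have hT : T.eval n = B.eval n + n + 1 := by simp [T]
  have hW : W.eval n = ((B.eval n + 1) * (B.eval n + 1)) ^ l.length * (B.eval n + 1) := by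
    simp [W]
  have hM : M.eval n = (W.eval n * T.eval n * 2 ^ (6 * (l.length + 1))) ^ 2 := by simp [M]
  obtain ⟨θ', S', a1, a2, a3⟩ := stage_core mc b l (B := B.eval n) (n := n) (T := T.eval n)
    (W := W.eval n) (M := M.eval n) (fun A A' h => h1 A A' _ n (by simp) h)
    (fun σ hσ => (h2 _ σ n _ _ hσ (Nat.le_succ _) le_rfl).mono
      (Set.singleton_subset_iff.2 ⟨_, by simp, rfl⟩))
    (by omega) (by omega) e1 (by simpa using e2) hW.symm
    (by simpa [Nat.div_div_eq_div_mul] using e3) (by rw [hM, hW, hT]; positivity) hM.ge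
    (by simpa using e4) θ S
  exact ⟨θ', S', T.eval n, by omega, a1, by simpa using a2, fun θ'' S'' h =>
    ⟨List.replicate n false, by simpa using a3 θ'' S'' h⟩⟩

theorem exists_oracles (d : ℕ → ℕ) (hd : ∀ c : ℕ, ∃ n₀, ∀ n ≥ n₀, n ^ c ≤ d n) (mc : ℕ → OM) :
    ∃ θ S : Lang, (∀ n, {w : List Bool | w.length ≤ n ∧ S w = true}.ncard ≤ d n) ∧
      ∀ b l, ∃ x, ev b l (orc mc θ S) x ≠ par (orc mc θ S) x (2 ^ x.length) := by
  classical
  obtain ⟨τ, hτ⟩ := exists_surjective_nat
    ((OM × Polynomial ℕ) × List (OM × Polynomial ℕ × Polynomial ℕ))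
  let Inv : Lang → Prop := fun S => {w | S w = true}.Finite ∧
    ∀ n, {w : List Bool | w.length ≤ n ∧ S w = true}.ncard ≤ d n
  have step : ∀ (i : ℕ) (a : {a : Lang × Lang × ℕ // Inv a.2.1}),
      ∃ a' : {a : Lang × Lang × ℕ // Inv a.2.1}, a.1.2.2 < a'.1.2.2 ∧
        Agree a.1.2.2 a.1.1 a.1.2.1 a'.1.1 a'.1.2.1 ∧
        ∀ θ S : Lang, Agree a'.1.2.2 a'.1.1 a'.1.2.1 θ S → ∃ x,
          ev (τ i).1 (τ i).2 (orc mc θ S) x ≠ par (orc mc θ S) x (2 ^ x.length) := by
    rintro i ⟨⟨θ, S, m⟩, hf, hc⟩
    obtain ⟨C, hC⟩ := stage mc (τ i).1 (τ i).2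
    obtain ⟨c, hc'⟩ := poly_le_pow (C + Polynomial.X)
    obtain ⟨n₀, hn₀⟩ := hd (2 * c)
    obtain ⟨n, hn, e1, e2, e3, e4⟩ := (hC.and ((Filter.eventually_ge_atTop m).and
      ((Filter.eventually_ge_atTop n₀).and ((Filter.eventually_ge_atTop 2).and
        (Filter.eventually_ge_atTop {w | S w = true}.ncard))))).exists
    obtain ⟨θ', S', T, hT, a1, ⟨X, x1, x2, x3⟩, a3⟩ := hn θ S
    have hsub : {w | S' w = true} ⊆ {w | S w = true} ∪ X := fun w hw => x3 w hw
    have hf' := hf.union X.finite_toSet
    refine ⟨⟨(θ', S', T), hf'.subset hsub, fun r => ?_⟩, lt_of_le_of_lt e1 hT,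
      ⟨fun w hw => a1.1 w (lt_of_lt_of_le hw e1), fun w hw => a1.2 w (lt_of_lt_of_le hw e1)⟩, a3⟩
    by_cases hr : r < n
    · refine le_trans (le_of_eq ?_) (hc r)
      congr 1
      ext w
      exact and_congr_right fun hw => by simp only [a1.2 w (by omega)]
    · have h1 := (Set.ncard_le_ncard (s := {w : List Bool | w.length ≤ r ∧ S' w = true})
        (fun w hw => hsub hw.2) hf').trans (Set.ncard_union_le _ _)
      rw [Set.ncard_coe_finset] at h1
      have h2 := hc' n
      simp only [Polynomial.eval_add, Polynomial.eval_X] at h2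
      have h3 : (n + 2) ^ c ≤ r ^ (2 * c) := by
        rw [pow_mul]
        exact Nat.pow_le_pow_left (by nlinarith) _
      have h4 := hn₀ r (by omega)
      exact h1.trans (by omega)
  choose F hF1 hF2 hF3 using step
  let a : ℕ → {a : Lang × Lang × ℕ // Inv a.2.1} := fun i =>
    Nat.rec ⟨(fun _ => false, fun _ => false, 0), by simp [Inv]⟩ F i
  have hmono : StrictMono fun i => (a i).1.2.2 := strictMono_nat_of_lt_succ fun i => hF1 i (a i)
  have hag : ∀ i j, i ≤ j → Agree (a i).1.2.2 (a i).1.1 (a i).1.2.1 (a j).1.1 (a j).1.2.1 := by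
    intro i j hij
    induction j, hij using Nat.le_induction with
    | base => exact ⟨fun _ _ => rfl, fun _ _ => rfl⟩
    | succ j hij ih =>
      have h1 := hF2 j (a j)
      have h2 := hmono.monotone hij
      exact ⟨fun w hw => (ih.1 w hw).trans (h1.1 w (hw.trans_le h2)),
        fun w hw => (ih.2 w hw).trans (h1.2 w (hw.trans_le h2))⟩
  have hlim : ∀ i, Agree (a i).1.2.2 (a i).1.1 (a i).1.2.1 (fun w => (a (lev w + 1)).1.1 w)
      fun w => (a (w.length + 1)).1.2.1 w := by
    refine fun i => ⟨fun w hw => ?_, fun w hw => ?_⟩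
    · rcases le_total i (lev w + 1) with h | h
      · exact (hag _ _ h).1 w hw
      · exact ((hag _ _ h).1 w (hmono.le_apply (x := lev w + 1))).symm
    · rcases le_total i (w.length + 1) with h | h
      · exact (hag _ _ h).2 w hw
      · exact ((hag _ _ h).2 w (hmono.le_apply (x := w.length + 1))).symm
  refine ⟨fun w => (a (lev w + 1)).1.1 w, fun w => (a (w.length + 1)).1.2.1 w, fun n => ?_,
    fun b l => ?_⟩
  · refine le_trans (le_of_eq ?_) ((a (n + 1)).2.2 n)
    congr 1
    ext w
    refine and_congr_right fun hw => ?_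
    rw [(hlim (n + 1)).2 w (lt_of_lt_of_le (by omega) (hmono.le_apply (x := n + 1)))]
  · obtain ⟨i, hi⟩ := hτ (b, l)
    have := hF3 i (a i) _ _ (hlim (i + 1))
    rwa [hi] at this

end Pool.Agent.MP_a2d820_lc.h69

end MrgPart2

-- ======== part 3: formerly Pool.Agent.MP_a2d820_lc.h69.Nand
section MrgPart3

/-!
Trees of negated conjunctions survive the projections that simplify bounded-depth circuits.
-/

set_option autoImplicit false

namespace Pool.Agent.MP_a2d820_lc.h69

open Finset

theorem subInd_key {V K J : Type} [Fintype V] [DecidableEq V] [Fintype K] [DecidableEq K]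
    [Fintype J] [DecidableEq J] (Λ : Finset V) (grp : V → K) (idx : V → J)
    (inj : ∀ v ∈ Λ, ∀ v' ∈ Λ, grp v = grp v' → idx v = idx v' → v = v') (t : ℕ) :
    SubInd (fun ω : K → J => Λ.filter fun v => ω (grp v) = idx v) t (Fintype.card J) := by
  intro D _
  rcases ({ω : K → J | D ⊆ Λ.filter fun v => ω (grp v) = idx v} : Finset _).eq_empty_or_nonempty
    with h | ⟨ω₀, h₀⟩
  · rw [h]; simp
  have h₀' := fun v (hv : v ∈ D) => mem_filter.1 ((mem_filter.1 h₀).2 hv)
  have h1 : (D.image grp).card = D.card := card_image_of_injOn fun v hv v' hv' e =>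
    inj v (h₀' v hv).1 v' (h₀' v' hv').1 e (by rw [← (h₀' v hv).2, ← (h₀' v' hv').2, e])
  have h2 : ({ω : K → J | D ⊆ Λ.filter fun v => ω (grp v) = idx v} : Finset _) ⊆
      Fintype.piFinset fun κ => if κ ∈ D.image grp then {ω₀ κ} else univ := by
    intro ω hω
    refine Fintype.mem_piFinset.2 fun κ => ?_
    split_ifs with h
    · obtain ⟨v, hv, rfl⟩ := mem_image.1 h
      rw [mem_singleton, (h₀' v hv).2, (mem_filter.1 ((mem_filter.1 hω).2 hv)).2]
    · exact mem_univ _
  refine (Nat.mul_le_mul_right _ (card_le_card h2)).trans (le_of_eq ?_)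
  rw [Fintype.card_piFinset]
  simp only [apply_ite card, card_univ, card_singleton]
  rw [prod_ite, prod_const, prod_const, one_pow, one_mul, filter_not, filter_mem_eq_inter,
    univ_inter, card_univ_sdiff, ← h1, ← pow_add, Nat.sub_add_cancel (card_le_univ _),
    Fintype.card_fun]

theorem subInd_sum {V V' Ω Ω' : Type} [Fintype V] [DecidableEq V] [Fintype V'] [DecidableEq V']
    [Fintype Ω] [Fintype Ω'] {nx : Ω → Finset V} {nx' : Ω' → Finset V'} {t R : ℕ}
    (h : SubInd nx t R) (h' : SubInd nx' t R) :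
    SubInd (fun ω : Ω × Ω' => (nx ω.1).disjSum (nx' ω.2)) t R := by
  intro D hD
  have h1 := D.card_toLeft_add_card_toRight
  have h2 : ({ω : Ω × Ω' | D ⊆ (nx ω.1).disjSum (nx' ω.2)} : Finset _) =
      ({ω | D.toLeft ⊆ nx ω} : Finset Ω) ×ˢ ({ω | D.toRight ⊆ nx' ω} : Finset Ω') := by
    ext ω
    simp [subset_disjSum]
  rw [h2, card_product, ← h1, pow_add, mul_mul_mul_comm, Fintype.card_prod]
  exact Nat.mul_le_mul (h _ (by omega)) (h' _ (by omega))

theorem exists_avoid {V Ω : Type} [Fintype V] [DecidableEq V] [Fintype Ω] [Nonempty Ω]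
    {nx : Ω → Finset V} {t R : ℕ} (hind : SubInd nx t R) (ht : 1 ≤ t) {D : Finset V}
    (hD : D.card < R) : ∃ ω, ∀ v ∈ D, v ∉ nx ω := by
  classical
  by_contra hcon
  push Not at hcon
  have hsub : (univ : Finset Ω) ⊆ D.biUnion fun v => {ω | {v} ⊆ nx ω} := by
    intro ω _
    obtain ⟨v, hv, hb⟩ := hcon ω
    exact mem_biUnion.2 ⟨v, hv, mem_filter.2 ⟨mem_univ _, singleton_subset_iff.2 hb⟩⟩
  have h6 := Nat.mul_le_mul_right R ((card_le_card hsub).trans card_biUnion_le)
  rw [sum_mul] at h6
  have h7 := sum_le_card_nsmul D _ (Fintype.card Ω) fun v _ => by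
    simpa using hind {v} (by simpa)
  have h8 : 0 < Fintype.card Ω := Fintype.card_pos
  rw [card_univ] at h6
  simp only [singleton_subset_iff] at h6
  rw [smul_eq_mul] at h7
  have h9 : Fintype.card Ω * R ≤ Fintype.card Ω * D.card := by
    rw [mul_comm _ D.card]; exact h6.trans h7
  have := Nat.le_of_mul_le_mul_left h9 h8
  omega

theorem Sel.mono {V Ω : Type} [Fintype V] [DecidableEq V] [Fintype Ω] {t R R' : ℕ} (hR : R' ≤ R)
    {Good : Finset V → Prop} {m : ℕ} {T : Finset V} (h : Sel Ω t R Good m T) :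
    Sel Ω t R' Good m T := by
  induction m generalizing T with
  | zero => exact h
  | succ m ih =>
    obtain ⟨nx, h1, h2⟩ := h
    exact ⟨nx, fun D hD => (Nat.mul_le_mul_left _ (Nat.pow_le_pow_left hR _)).trans (h1 D hD),
      fun ω => ⟨(h2 ω).1, ih (h2 ω).2⟩⟩

open Classical in
/-- The value at the node `j` of the tree of height `i` and fan-in `2 ^ n` with leaves `a`. -/
noncomputable def nv (n : ℕ) : ℕ → Lang → Lang
  | 0, a => a
  | i + 1, a => fun j => decide (∃ w : List Bool, w.length = n ∧ nv n i a (w ++ j) = false)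

theorem nv_succ (n i : ℕ) (a : Lang) : nv n (i + 1) a = nv n i (nv n 1 a) := by
  induction i with
  | zero => rfl
  | succ i ih => rw [nv, ih]; rfl

theorem nv_congr {n i : ℕ} {a a' : Lang} {j : List Bool}
    (h : ∀ j', j'.length = i * n + j.length → a j' = a' j') : nv n i a j = nv n i a' j := by
  induction i generalizing j with
  | zero => exact h j (by simp)
  | succ i ih =>
    simp only [nv, decide_eq_decide]
    refine exists_congr fun w => and_congr_right fun hw => ?_
    rw [ih fun j' hj' => h j' (by rw [hj', List.length_append, Nat.succ_mul]; omega)]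

/-- The nodes of the tree. -/
def Node (H : ℕ) : Type := {j : List Bool // j.length ≤ H}

instance (H : ℕ) : DecidableEq (Node H) := inferInstanceAs (DecidableEq (Subtype _))

instance (H : ℕ) : Fintype (Node H) := Fintype.subtype (lists H) fun _ => mem_lists

theorem card_node (H : ℕ) : Fintype.card (Node H) < 2 ^ (H + 1) :=
  (Fintype.subtype_card (lists H) fun _ => mem_lists).trans_lt (card_lists H)

/-- Remove the first `r` bits. -/
def Node.cut {H : ℕ} (r : ℕ) (j : Node H) : Node H := ⟨j.1.drop r, by have := j.2; simp; omega⟩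

/-- The assignment to the active nodes, extended by `true`. -/
def ext {H : ℕ} (Act : Finset (Node H)) (z : Node H → Bool) : Lang := fun j =>
  if h : j.length ≤ H then (if (⟨j, h⟩ : Node H) ∈ Act then z ⟨j, h⟩ else true) else true

theorem ext_node {H : ℕ} (Act : Finset (Node H)) (z : Node H → Bool) (j : Node H) :
    ext Act z j.1 = if j ∈ Act then z j else true := dif_pos j.2

theorem exists_children {H n r : ℕ} (hr : r ≤ n) (ω : Node H → Fin r → Bool) (p : Node H)
    (hp : p.1.length + n ≤ H) : ∃ K : Finset (Node H), 2 ^ (n - r) ≤ K.card ∧ ∀ j ∈ K,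
      j.1.length = p.1.length + n ∧ j.cut n = p ∧ ω (j.cut r) = fun i : Fin r => j.1.getD i false := by
  let g : (Fin (n - r) → Bool) → Node H := fun u => ⟨List.ofFn u ++ p.1, by simp; omega⟩
  let c : (Fin (n - r) → Bool) → Node H := fun u =>
    ⟨List.ofFn (ω (g u)) ++ (g u).1, by simp [g]; omega⟩
  have h1 : ∀ u, (c u).cut r = g u := fun u => Subtype.ext (by simp [c, Node.cut])
  refine ⟨univ.image c, ?_, fun j hj => ?_⟩
  · rw [card_image_of_injective _ fun u u' e => ?_]
    · simp
    · have := congrArg Subtype.val ((h1 u).symm.trans ((congrArg _ e).trans (h1 u')))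
      exact List.ofFn_injective (List.append_cancel_right this)
  · obtain ⟨u, -, rfl⟩ := mem_image.1 hj
    refine ⟨by simp [c, g]; omega, Subtype.ext ?_, ?_⟩
    · simp only [Node.cut, c, g, ← List.append_assoc]
      exact List.drop_left' (by simp; omega)
    · rw [h1]
      funext i
      simp [c, List.getElem?_append_left]

/-- The function `g` still computes a tree of height `i` with many active leaves. -/
def Inv {H : ℕ} (n m : ℕ) (g : (Node H → Bool) → Bool) (i : ℕ)
    (ρ : (Node H → Bool) → Node H → Bool) : Prop :=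
  ∃ Act : Finset (Node H), (∀ z, g (ρ z) = nv n i (ext Act z) []) ∧
    ∀ p : Node H, p.1.length + n = i * n → ∃ K ⊆ Act, m ≤ K.card ∧
      ∀ j ∈ K, j.1.length = p.1.length + n ∧ j.cut n = p

theorem nv_one_proj {H n : ℕ} {Act L : Finset (Node H)} {y z : Node H → Bool} {p j₀ : Node H}
    (hp : p.1.length + n ≤ H) (h1 : j₀ ∈ Act) (h2 : j₀.1.length = p.1.length + n)
    (h3 : j₀.cut n = p) (h4 : y j₀ = false) :
    nv n 1 (ext Act (proj (fun _ => false) (Node.cut n) L y z)) p.1 = ext L z p.1 := by
  rw [ext_node, Bool.eq_iff_iff]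
  simp only [nv, decide_eq_true_eq]
  constructor
  · rintro ⟨w, hw, h⟩
    let j : Node H := ⟨w ++ p.1, by simp; omega⟩
    have h5 : j.cut n = p := Subtype.ext (List.drop_left' hw)
    rw [ext_node Act _ j] at h
    by_cases hL : p ∈ L
    · by_cases hj : j ∈ Act <;> cases hy : y j <;> simp_all [proj, fre]
    · simp [hL]
  · intro h
    refine ⟨j₀.1.take n, by simp; omega, ?_⟩
    rw [← h3, Node.cut, List.take_append_drop, ext_node, if_pos h1]
    by_cases hL : p ∈ L <;> simp_all [proj, fre]

variable {V Ω : Type} [Fintype V] [DecidableEq V] [Fintype Ω]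

/-- A restriction of the table entries together with a substitution for the nodes. -/
def comb {H : ℕ} (T : Finset V) (y : V → Bool) (ρ : (Node H → Bool) → Node H → Bool)
    (z : V ⊕ Node H → Bool) : V ⊕ Node H → Bool :=
  Sum.elim (res T y (z ∘ Sum.inl)) (ρ (z ∘ Sum.inr))

theorem game_sum {H n r t : ℕ} (hr : r ≤ n) {Good : Finset V → Prop}
    (hK : (2 * 2 ^ (H + 1) : ℝ) ≤ (1 + 1 / (2 ^ r : ℕ)) ^ 2 ^ (n - r))
    (g : (Node H → Bool) → Bool) (m : ℕ) (hm : (m + 1) * n ≤ H) (T : Finset V) (y : V → Bool)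
    (ρ : (Node H → Bool) → Node H → Bool) (hS : Sel Ω t (2 ^ r) Good (m + 1) T)
    (hI : Inv n (2 ^ (n - r)) g (m + 1) ρ) :
    Game (Ω × (Node H → Fin r → Bool)) Sum.isLeft (Sum.map id (Node.cut n)) t (2 ^ r)
      (fun σ => ∃ T y ρ, σ = comb T y ρ ∧ Sel Ω t (2 ^ r) Good 1 T ∧ Inv n (2 ^ (n - r)) g 1 ρ)
      m (comb T y ρ) := by
  induction m generalizing T y ρ with
  | zero => exact ⟨T, y, ρ, rfl, hS, hI⟩
  | succ m ih =>
    obtain ⟨nx, hind, hnx⟩ := hS
    obtain ⟨Act, hg, hA⟩ := hI
    choose! K hK1 hK2 hK3 using hA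
    have e1 : (m + 1 + 1) * n = (m + 1) * n + n := Nat.succ_mul _ _
    have e2 : (m + 1) * n = m * n + n := Nat.succ_mul _ _
    have h1 := subInd_key (univ.filter fun j : Node H => j.1.length = (m + 1) * n) (Node.cut r)
      (fun j (i : Fin r) => j.1.getD i false) (fun j hj j' hj' e e' => ?_) t
    · rw [Fintype.card_fun, Fintype.card_bool, Fintype.card_fin] at h1
      refine ⟨_, subInd_sum hind h1, (univ.filter fun p : Node H =>
        p.1.length = (m + 1) * n).image fun p => (K p).image Sum.inr, fun X hX => ?_,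
        fun ω y' hy => ?_⟩
      · obtain ⟨p, hp, rfl⟩ := mem_image.1 hX
        refine ⟨fun v hv => ?_, le_trans ?_ (hK.trans ?_)⟩
        · obtain ⟨j, -, rfl⟩ := mem_image.1 hv
          rfl
        · have := (card_image_le.trans (card_le_univ _)).trans (card_node H).le (a := ((univ.filter
            fun p : Node H => p.1.length = (m + 1) * n).image fun p =>
              (K p).image (Sum.inr : _ → V ⊕ Node H)).card)
          exact mul_le_mul_of_nonneg_left (by exact_mod_cast this) (by norm_num)
        · rw [card_image_of_injective _ Sum.inr_injective]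
          exact pow_le_pow_right₀ (le_add_of_nonneg_right (by positivity))
            (hK2 p (by have := (mem_filter.1 hp).2; omega))
      · set L := (univ.filter fun j : Node H => j.1.length = (m + 1) * n).filter fun j =>
          ω.2 (j.cut r) = fun i : Fin r => j.1.getD i false with hL
        have h2 : comb T y ρ ∘ proj Sum.isLeft (Sum.map id (Node.cut n)) ((nx ω.1).disjSum L) y' =
            comb (nx ω.1) (res T y (y' ∘ Sum.inl))
              (ρ ∘ proj (fun _ => false) (Node.cut n) L (y' ∘ Sum.inr)) := by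
          funext z
          rw [comb, ← res_res (hnx ω.1).1, Function.comp_apply, Function.comp_apply, comb]
          congr 2
          · funext v
            by_cases hv : v ∈ nx ω.1
            · simp [proj, fre, hv, res_of_mem hv]
            · simp [proj, fre, hv, res_of_notMem hv]
          · funext j
            exact if_congr (by simp [fre]) rfl rfl
        rw [h2]
        refine ih (by omega) _ _ _ (hnx ω.1).2 ⟨L, fun z => ?_, fun p hp => ?_⟩
        · rw [Function.comp_apply, hg, nv_succ]
          refine nv_congr fun p hp => ?_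
          simp only [List.length_nil] at hp
          let P : Node H := ⟨p, by omega⟩
          have h3 : P.1.length + n = (m + 1 + 1) * n := by simp only [P]; omega
          obtain ⟨v, hv, h4⟩ := hy _ (mem_image_of_mem _ (mem_filter.2 ⟨mem_univ P, hp⟩))
          obtain ⟨j, hj, rfl⟩ := mem_image.1 hv
          exact nv_one_proj (p := P) (by omega) (hK1 P h3 hj) (hK3 P h3 j hj).1 (hK3 P h3 j hj).2 h4
        · obtain ⟨K', h3, h4⟩ := exists_children hr ω.2 p (by omega)
          exact ⟨K', fun j hj => mem_filter.2 ⟨mem_filter.2 ⟨mem_univ _, (h4 j hj).1.trans hp⟩,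
            (h4 j hj).2.2⟩, h3, fun j hj => ⟨(h4 j hj).1, (h4 j hj).2.1⟩⟩
    · have h2 := (mem_filter.1 hj).2
      have h3 := (mem_filter.1 hj').2
      refine Subtype.ext ?_
      rw [← List.take_append_drop r j.1, ← List.take_append_drop r j'.1]
      refine congrArg₂ _ (List.ext_getElem (by simp; omega) fun i hi hi' => ?_)
        (congrArg Subtype.val e)
      simp only [List.length_take] at hi hi'
      have := congrFun e' ⟨i, by omega⟩
      simp only at this
      rw [List.getD_eq_getElem _ _ (by omega), List.getD_eq_getElem _ _ (by omega)] at this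
      simpa using this

theorem exists_diff [Nonempty Ω] {w N s t n r : ℕ} {Good : Finset V → Prop} (hw : 1 ≤ w)
    (hN : N < 2 ^ s) (hN1 : 1 ≤ N) (k : ℕ) (ht : (s * w) ^ k * w ≤ t)
    (hR : 24 * ((s * w) ^ k * w) ≤ 2 ^ r) (hr : 2 * r ≤ n)
    (hK : 2 ^ r * ((k + 1) * n + 2) ≤ 2 ^ (n - r))
    (f : (V ⊕ Node ((k + 1) * n) → Bool) → Bool) (hAC : AC w N k {f})
    (hS : Sel Ω t (2 ^ r) Good (k + 1) univ) :
    ∃ T y a c, Good T ∧ (∀ z, f (Sum.elim (res T y z) a) = c) ∧
      nv n (k + 1) (ext univ a) [] ≠ c := by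
  have hs : 1 ≤ s := by
    by_contra h
    have : s = 0 := by omega
    subst this
    omega
  have hpos : 1 ≤ (s * w) ^ k * w := Nat.mul_pos (Nat.pow_pos (Nat.mul_pos hs hw)) hw
  have hK' : (2 * 2 ^ ((k + 1) * n + 1) : ℝ) ≤ (1 + 1 / (2 ^ r : ℕ)) ^ 2 ^ (n - r) := by
    have h1 := one_add_mul_le_pow (a := (1 / (2 ^ r : ℕ) : ℝ)) (le_trans (by norm_num)
      (by positivity : (0 : ℝ) ≤ _)) (2 ^ r)
    rw [mul_one_div_cancel (by positivity), one_add_one_eq_two] at h1
    refine le_trans ?_ (pow_le_pow_right₀ (le_add_of_nonneg_right (by positivity)) hK)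
    rw [pow_mul _ (2 ^ r), ← pow_succ']
    exact pow_le_pow_left₀ (by norm_num) h1 _
  have hG := game_sum (by omega) hK' (fun a => nv n (k + 1) (ext univ a) []) k le_rfl univ
    (fun _ => false) id hS ⟨univ, fun _ => rfl, fun p hp => by
      obtain ⟨K, h1, h2⟩ := exists_children (r := r) (by omega) (fun _ _ => false) p hp.le
      exact ⟨K, subset_univ _, h1, fun j hj => ⟨(h2 j hj).1, (h2 j hj).2.1⟩⟩⟩
  obtain ⟨_, -, ⟨T, y, ρ, rfl, ⟨nx, hind, hnx⟩, Act, hg, hA⟩, h3⟩ :=
    preduce (by rintro (v | v) h <;> simp_all) hw hN hs k 0 ht hR _ (by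
      rintro (v | v)
      · exact (dt_var (Sum.inl v)).congr fun z =>
          (res_of_mem (y := fun _ => false) (z := z ∘ Sum.inl) (mem_univ v)).symm
      · exact dt_var (Sum.inr v)) {f} (by simpa) (by simpa using hAC) hG
  obtain ⟨D, hD, hc⟩ := (h3 f (mem_singleton_self f)).cert fun _ => true
  have h4 := D.card_toLeft_add_card_toRight
  obtain ⟨ω, hω⟩ := exists_avoid hind (by omega) (D := D.toLeft) (by omega)
  obtain ⟨K, k1, k2, k3⟩ := hA ⟨[], by simp⟩ (by simp)
  have h5 : 2 ^ r ≤ 2 ^ (n - r) := Nat.pow_le_pow_right (by norm_num) (by omega)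
  obtain ⟨j, hj, hj'⟩ := exists_mem_notMem_of_card_lt_card (s := D.toRight) (t := K) (by omega)
  set c := (f ∘ comb T y ρ) fun _ => true
  refine ⟨nx ω, res T y fun _ => true, ρ (Function.update (fun _ => true) j c), c, (hnx ω).2,
    fun z => ?_, ?_⟩
  · rw [← res_res (hnx ω).1]
    refine hc (Sum.elim (res (nx ω) (fun _ => true) z) (Function.update (fun _ => true) j c)) ?_
    rintro (v | v) hv
    · exact res_of_notMem (hω v (mem_toLeft.2 hv))
    · exact Function.update_of_ne (fun e : v = j => hj' (mem_toRight.2 (e ▸ hv))) c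
        fun _ => true
  · have h6 := nv_one_proj (n := n) (L := {⟨[], by simp⟩}) (y := Function.update (fun _ => true) j false)
      (z := fun _ => !c) (by simp; nlinarith) (k1 hj) (k3 j hj).1 (k3 j hj).2 (by simp)
    rw [ext_node, if_pos (mem_singleton_self _)] at h6
    have h7 := hg (Function.update (fun _ => true) j c)
    simp only at h7
    rw [h7]
    have h8 : proj (fun _ => false) (Node.cut n) {⟨[], by simp⟩}
        (Function.update (fun _ => true) j false) (fun _ => !c) =
        Function.update (fun _ => true) j c := by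
      funext v
      by_cases hv : v = j
      · subst hv
        simp [proj, fre, (k3 v hj).2]
      · simp [proj, fre, hv]
    rw [h8] at h6
    rw [h6]
    simp

end Pool.Agent.MP_a2d820_lc.h69

end MrgPart3

-- ======== part 4: formerly Pool.Agent.MP_a2d820_lc.h69.Levels
section MrgPart4

/-!
The stages that keep the levels of the hierarchy apart, and the limit of all stages.
-/

set_option autoImplicit false

namespace Pool.Agent.MP_a2d820_lc.h69

open Pool.Agent.PolyT Pool.Agent.H82 N487b59b3 Function Finset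

theorem one_query {Q : List Bool → List Bool} (hQ : PolyT.Poly Q) (s : Bool) (O : Lang) :
    (fun x => xor s (O (Q x))) ∈ RelP O := by
  obtain ⟨M, hM⟩ := exists_om (ini := fun x => (x, [], [])) (Q := fun c => Q c.1)
    (δ := fun p => p.1) (fin := fun _ => true) (out := fun p => xor s p.2)
    (by fun_prop) (by fun_prop) (by fun_prop) (by fun_prop) (by fun_prop)
  refine ⟨M, 6 * Polynomial.X + 4, fun x => ⟨1, by simp, ?_⟩⟩
  exact hM O x 0 _ (fun _ => (x, [], [])) rfl (by simp) (by simp) rfl
    (fun _ _ => by simp [length_st]) (by simp; omega)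

/-- The value of the tree of height `i` stored in a row of the oracle. -/
noncomputable def gl (A : Lang) (i : ℕ) : Lang := fun c =>
  nv (row c).length i (fun j => A (ad (row c) j 0)) (third (sel false c))

theorem gl_enc (A : Lang) (i : ℕ) (x j : List Bool) :
    gl A i (bitEncode (x, j)) = nv x.length i (fun j => A (ad x j 0)) j := by
  simp [gl, row, enc_pair, sel_pair, third_enc]

theorem gl_mem (A : Lang) (i : ℕ) : gl A i ∈ RelSigma A i := by
  have hrow : PolyT.Poly row := by unfold row; fun_prop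
  induction i with
  | zero =>
    exact (funext fun c => Bool.false_xor _ : _ = gl A 0) ▸
      one_query (Q := fun c => ad (row c) (third (sel false c)) 0) (by fun_prop) false A
  | succ i ih =>
    obtain ⟨p, hp⟩ := hrow.bd
    refine ⟨_, ih, p.comp (3 * Polynomial.X), _, one_query (Q := fun d => true :: bitEncode
      (row (sel true d), (sel false d ++ (row (sel true d)).map fun _ => false).take
        (row (sel true d)).length ++ third (sel false (sel true d)))) (by fun_prop) true _,
      fun c => ?_⟩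
    simp only [sel_pair, if_true, join, gl_enc, Bool.true_xor, Bool.not_eq_true',
      Bool.false_eq_true, if_false]
    simp only [gl, nv, decide_eq_true_eq]
    constructor
    · rintro ⟨w, hw, h⟩
      have := hp c
      simp only [PolyT.Poly.enc_bools_length] at this
      refine ⟨w, ?_, by rwa [List.take_left' hw]⟩
      simp only [Polynomial.eval_comp, Polynomial.eval_mul, Polynomial.eval_ofNat,
        Polynomial.eval_X]
      omega
    · rintro ⟨w, -, h⟩
      exact ⟨_, by simp, h⟩

theorem exists_ev' {A L : Lang} {k : ℕ} (h : L ∈ RelSigma A k) :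
    ∃ b l, l.length = k ∧ L = ev b l A := by
  induction k generalizing L with
  | zero =>
    obtain ⟨M, p, rfl⟩ := exists_clk h
    exact ⟨(M, p), [], rfl, rfl⟩
  | succ k ih =>
    obtain ⟨B, hB, q, R, hR, hL⟩ := h
    obtain ⟨b, l, rfl, rfl⟩ := ih hB
    obtain ⟨M, p, rfl⟩ := exists_clk hR
    refine ⟨b, (M, p, q) :: l, rfl, funext fun x => ?_⟩
    rw [Bool.eq_iff_iff, hL]
    simp [ev]

theorem level_core (mc : ℕ → OM) (f : Lang → Bool) {k B n T W M r : ℕ}
    (hloc : ∀ A A' : Lang, (∀ v, v.length ≤ B → A v = A' v) → f A = f A')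
    (hAC : ∀ σ : (Var n T ⊕ Node ((k + 1) * n) → Bool) → Lang, (∀ v, DT 1 fun z => σ z v) →
      AC (B + 1) (2 ^ B) k {fun z => f (σ z)})
    (hBT : B < T) (hnT : n < T) (hn : 2 * (k + 1) ≤ n) (hT : 2 * T ≤ 2 ^ n)
    (hW : ((B + 1) * (B + 1)) ^ k * (B + 1) = W) (hR : 24 * W ≤ 2 ^ r) (hr : r ≤ n / (k + 1) / 2)
    (hK : 2 ^ r * ((k + 1) * n + 2) ≤ 2 ^ (n - r)) (hM0 : 0 < M)
    (hM : (W * T * 2 ^ (6 * (k + 1))) ^ 2 ≤ M) (hM' : (k + 1) * M ≤ 2 ^ n) (θ S : Lang) :
    ∃ θ' S' : Lang, Agree n θ S θ' S' ∧
      (∃ X : Finset (List Bool), X.card ≤ T * ((k + 1) * M) ∧ (∀ w ∈ X, n ≤ w.length) ∧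
        ∀ w, S' w = true → S w = true ∨ w ∈ X) ∧
      ∀ θ'' S'' : Lang, Agree T θ' S' θ'' S'' → f (orc mc θ'' S'') ≠
        gl (orc mc θ'' S'') (k + 1) (bitEncode (List.replicate n false, ([] : List Bool))) := by
  classical
  set x := List.replicate n false with hx
  have hxn : x.length = n := by simp [hx]
  have hxh : x.head? ≠ some true := fun h4 => by
    have := List.mem_of_mem_head? h4
    simp [hx] at this
  obtain ⟨Γ, hΓ⟩ := exists_sel (t := W) hn hT hM0 hM
  let ad' : List Bool × List Bool × ℕ → List Bool := fun p => ad p.1 p.2.1 p.2.2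
  have had : Injective ad' := fun p q h => by
    obtain ⟨h1, h2, h3⟩ := ad_inj h
    exact Prod.ext h1 (Prod.ext h2 h3)
  let val : (Var n T ⊕ Node ((k + 1) * n) → Bool) → List Bool × List Bool × ℕ → Bool := fun z p =>
    if p.1 = x ∧ p.2.2 = 0 then ext univ (z ∘ Sum.inr) p.2.1
    else if h : n ≤ p.1.length ∧ p.1.length < T ∧ p.2.1.length = p.1.length ∧ p.2.2 = 0 then
      z (.inl ⟨(p.1, p.2.1), h.1, h.2.1, h.2.2.1⟩)
    else if n ≤ p.1.length then
      (dig p.1 (grp k (p.1, p.2.1) * M + Γ (p.1, p.2.1))).getD (p.2.2 - 1) false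
    else θ (ad' p)
  let θz : (Var n T ⊕ Node ((k + 1) * n) → Bool) → Lang := fun z => extend ad' (val z) θ
  have hθ : ∀ z u j b, θz z (ad u j b) = val z (u, j, b) := fun z u j b =>
    had.extend_apply _ _ (u, j, b)
  have hθx : ∀ z j, θz z (ad x j 0) = ext univ (z ∘ Sum.inr) j := fun z j => by
    rw [hθ]
    exact if_pos ⟨rfl, rfl⟩
  have hθv : ∀ z (v : Var n T), v.1.1 ≠ x → θz z (ad v.1.1 v.1.2 0) = z (.inl v) := by
    intro z v hv
    rw [hθ]
    exact (if_neg fun h => hv h.1).trans (dif_pos ⟨v.2.1, v.2.2.1, v.2.2.2, rfl⟩)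
  have hθo : ∀ z z' w, (∀ j, w ≠ ad x j 0) → (∀ v : Var n T, w ≠ ad v.1.1 v.1.2 0) →
      θz z w = θz z' w := by
    intro z z' w hw' hw
    by_cases h : ∃ p, ad' p = w
    · obtain ⟨⟨u, j, b⟩, rfl⟩ := h
      have h0 : ¬(u = x ∧ b = 0) := fun h => hw' j (by rw [← h.1, ← h.2])
      have h1 : ¬(n ≤ u.length ∧ u.length < T ∧ j.length = u.length ∧ b = 0) := fun h =>
        hw ⟨(u, j), h.1, h.2.1, h.2.2.1⟩ (congrArg (ad u j) h.2.2.2)
      rw [hθ, hθ]
      simp only [val, dif_neg h1, if_neg h0]
    · exact (extend_apply' _ _ _ h).trans (extend_apply' _ _ _ h).symm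
  have hθl : ∀ z w, lev w < n → θ w = θz z w := by
    intro z w hw
    by_cases h : ∃ p, ad' p = w
    · obtain ⟨⟨u, j, b⟩, rfl⟩ := h
      have h1 : ¬n ≤ u.length := by simpa [ad'] using hw
      have h0 : u ≠ x := fun h => h1 (by rw [h, hxn])
      rw [hθ]
      simp only [val, h0, h1, false_and, dite_false, if_false]
    · exact (extend_apply' _ _ _ h).symm
  let σ : (Var n T ⊕ Node ((k + 1) * n) → Bool) → Lang := fun z w =>
    if lev w < n then orc mc θ S w else θz z w
  have hσ : ∀ w, DT 1 fun z => σ z w := by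
    intro w
    by_cases h : lev w < n
    · exact (DTq.const 1 (orc mc θ S w)).congr fun z => (if_pos h).symm
    by_cases h0 : ∃ j, w = ad x j 0
    · obtain ⟨j, rfl⟩ := h0
      by_cases hj : j.length ≤ (k + 1) * n
      · let J : Node ((k + 1) * n) := ⟨j, hj⟩
        exact (dt_var (Sum.inr J)).congr fun z => ((if_neg h).trans ((hθx z j).trans
          ((ext_node _ _ J).trans (if_pos (mem_univ J))))).symm
      · exact (DTq.const 1 true).congr fun z =>
          ((if_neg h).trans ((hθx z j).trans (dif_neg hj))).symm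
    push Not at h0
    by_cases h' : ∃ v : Var n T, w = ad v.1.1 v.1.2 0
    · obtain ⟨v, rfl⟩ := h'
      exact (dt_var (Sum.inl v)).congr fun z =>
        ((if_neg h).trans (hθv z v fun e => h0 v.1.2 (by rw [e]))).symm
    · push Not at h'
      exact (DTq.const 1 (θz (fun _ => false) w)).congr fun z =>
        (hθo (fun _ => false) z w h0 h').trans (if_neg h : σ z w = θz z w).symm
  obtain ⟨X, y, a, c, ⟨ω, hω⟩, hc, hβ⟩ := exists_diff (s := B + 1) (by omega)
    (Nat.pow_lt_pow_right (by norm_num) (by omega)) Nat.one_le_two_pow k hW.le (hW ▸ hR)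
    (by have := Nat.div_le_self n (k + 1); omega) hK _ (hAC σ hσ)
    (hΓ.mono (Nat.pow_le_pow_right (by norm_num) hr))
  let S' : Lang := fun w => if n ≤ w.length ∧ w.length < T ∧ ofBits w < (k + 1) * M then
    ω (ofBits w / M) ⟨ofBits w % M, Nat.mod_lt _ hM0⟩ else S w
  have hrule : ∀ z u j, n ≤ u.length → u.length < T →
      rule (θz z) S' (u, j) = ω (grp k (u, j)) (Γ (u, j)) := by
    intro z u j h1 h2
    have h3 : grp k (u, j) * M + Γ (u, j) < (k + 1) * M := by
      have : grp k (u, j) * M ≤ k * M := Nat.mul_le_mul_right M (min_le_left _ _)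
      have := (Γ (u, j)).2
      rw [Nat.succ_mul]
      omega
    have h4 : ((List.range u.length).map fun b => θz z (ad u j (b + 1))) =
        dig u (grp k (u, j) * M + Γ (u, j)) := by
      refine List.ext_getElem (by simp) fun i hi hi' => ?_
      simp only [List.getElem_map, List.getElem_range, hθ, val, h1, Nat.succ_ne_zero, and_false,
        dite_false, if_true, if_false, Nat.add_sub_cancel]
      exact List.getD_eq_getElem _ _ hi'
    have h5 := ofBits_dig (x := u)
      (h3.trans_le (hM'.trans (Nat.pow_le_pow_right (by norm_num) h1)))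
    simp only [rule, h4, S', length_dig, h5, h1, h2, h3, and_self, if_true]
    congr 1
    · rw [add_comm, Nat.add_mul_div_right _ _ hM0, Nat.div_eq_of_lt (Γ (u, j)).2, zero_add]
    · refine Fin.ext ?_
      simp only
      rw [add_comm, Nat.add_mul_mod_self_right, Nat.mod_eq_of_lt (Γ (u, j)).2]
  have hag : Agree n θ S (θz (Sum.elim y a)) S' :=
    ⟨hθl _, fun w hw => (if_neg fun h => by omega).symm⟩
  refine ⟨θz (Sum.elim y a), S', hag, ⟨((range T ×ˢ range ((k + 1) * M)).image fun p =>
    dig (List.replicate p.1 false) p.2).filter (n ≤ ·.length), ?_, fun w hw => (mem_filter.1 hw).2,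
    fun w hw => ?_⟩, fun θ'' S'' h => ?_⟩
  · exact (card_filter_le _ _).trans (card_image_le.trans (by simp))
  · by_cases h : n ≤ w.length ∧ w.length < T ∧ ofBits w < (k + 1) * M
    · refine Or.inr (mem_filter.2 ⟨mem_image.2 ⟨(w.length, ofBits w), by simp [h], ?_⟩, h.1⟩)
      exact ofBits_inj (by simp) (ofBits_dig (by simpa using ofBits_lt w))
    · exact Or.inl ((if_neg h).symm.trans hw)
  · set A' := orc mc (θz (Sum.elim y a)) S'
    let z : Var n T → Bool := fun v => A' (ad v.1.1 v.1.2 0)
    have hsp : ∀ w, n ≤ lev w → lev w < T → Special (θz (Sum.elim y a)) S' w →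
        ∃ v ∈ X, w = ad v.1.1 v.1.2 0 := by
      intro w h1 h2 hs
      have e := hs.2
      rw [e, lev_ad] at h1 h2
      rw [pos_congr (H' := fun κ => ω (grp k κ) (Γ κ)) fun j _ => hrule _ _ j h1 h2] at e
      exact ⟨⟨(_, _), h1, h2, length_pos _ _ _⟩, hω _ rfl, e⟩
    have h1 : ∀ j, A' (ad x j 0) = ext univ a j := fun j =>
      (orc_of_not mc fun hs => hxh (special_ad.1 hs).1).trans (hθx _ j)
    have h2 : ∀ w, lev w < T → σ (Sum.elim (res X y z) a) w = A' w := by
      intro w hw
      by_cases h3 : lev w < n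
      · exact (if_pos h3).trans (hag.orc mc w h3)
      refine (if_neg h3).trans ?_
      by_cases h0 : ∃ j, w = ad x j 0
      · obtain ⟨j, rfl⟩ := h0
        exact (hθx _ j).trans (h1 j).symm
      push Not at h0
      by_cases h' : ∃ v : Var n T, w = ad v.1.1 v.1.2 0
      · obtain ⟨v, rfl⟩ := h'
        have h4 : v.1.1 ≠ x := fun e => h0 v.1.2 (by rw [e])
        refine (hθv _ v h4).trans ?_
        by_cases hv : v ∈ X
        · exact res_of_mem hv
        · refine (res_of_notMem hv).trans ((orc_of_not mc fun hs => ?_).trans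
            (hθv (Sum.elim y a) v h4)).symm
          obtain ⟨v', h3, e⟩ := hsp _ (by omega) hw hs
          exact hv ((Subtype.ext (Prod.ext (ad_inj e).1 (ad_inj e).2.1) : v = v') ▸ h3)
      · push Not at h'
        refine (hθo _ _ w h0 h').trans (orc_of_not mc fun hs => ?_).symm
        obtain ⟨v, -, e⟩ := hsp w (by omega) hw hs
        exact h' v e
    have h3 := hc z
    rw [hloc _ (orc mc θ'' S'') fun v hv => (h2 v (by have := lev_le v; omega)).trans
      (h.orc mc v (by have := lev_le v; omega))] at h3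
    rw [h3, gl_enc, hxn, funext fun j => (h.orc mc _ (by simpa [hxn] using hnT)).symm.trans (h1 j)]
    exact hβ.symm

/-- The requirement can be met at all large levels at the cost of few new strings of the key. -/
def Meets (mc : ℕ → OM) (P : Lang → Prop) : Prop :=
  ∃ C : Polynomial ℕ, ∀ᶠ n in Filter.atTop, ∀ θ S : Lang, ∃ θ' S' : Lang, ∃ T > n,
    Agree n θ S θ' S' ∧
    (∃ X : Finset (List Bool), X.card ≤ C.eval n ∧ (∀ w ∈ X, n ≤ w.length) ∧
      ∀ w, S' w = true → S w = true ∨ w ∈ X) ∧
    ∀ θ'' S'' : Lang, Agree T θ' S' θ'' S'' → P (orc mc θ'' S'')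

theorem level_stage (mc : ℕ → OM) (b : OM × Polynomial ℕ)
    (l : List (OM × Polynomial ℕ × Polynomial ℕ)) :
    Meets mc fun A => ∃ x, ev b l A x ≠ gl A (l.length + 1) x := by
  obtain ⟨B₀, h1, h2⟩ := ev_bound b l
  let B := B₀.comp (6 * Polynomial.X + 1)
  let T := B + Polynomial.X + 1
  let W := ((B + 1) * (B + 1)) ^ l.length * (B + 1)
  let M := (W * T * 2 ^ (6 * (l.length + 1))) ^ 2
  refine ⟨T * ((l.length + 1) * M), ?_⟩
  filter_upwards [Filter.eventually_ge_atTop (2 * (l.length + 1)),
    poly_le_two_pow (2 * T) 1 one_pos, poly_le_two_pow (24 * W) ((l.length + 1) * 4) (by omega),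
    poly_le_two_pow ((l.length + 1 : Polynomial ℕ) * Polynomial.X + 2) ((l.length + 1) * 4) (by omega),
    poly_le_two_pow ((l.length + 1) * M) 1 one_pos] with n e1 e2 e3 e5 e4 θ S
  have hB : B.eval n = B₀.eval (6 * n + 1) := by simp [B]
  have hT : T.eval n = B.eval n + n + 1 := by simp [T]
  have hW : W.eval n = ((B.eval n + 1) * (B.eval n + 1)) ^ l.length * (B.eval n + 1) := by
    simp [W]
  have hM : M.eval n = (W.eval n * T.eval n * 2 ^ (6 * (l.length + 1))) ^ 2 := by simp [M]
  have hl : (bitEncode (List.replicate n false, ([] : List Bool))).length ≤ 6 * n + 1 := by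
    simp only [length_enc_pair, PolyT.Poly.enc_bools_length, List.length_replicate,
      List.length_nil]
    omega
  have hr : n / ((l.length + 1) * 4) = n / (l.length + 1) / 4 := (Nat.div_div_eq_div_mul _ _ _).symm
  have hr' := Nat.div_le_self n (l.length + 1)
  have hr1 : n / ((l.length + 1) * 4) ≤ n / (l.length + 1) / 2 := by
    rw [hr]
    exact Nat.div_le_div_left (by norm_num) (by norm_num)
  have hr2 : n / ((l.length + 1) * 4) + n / ((l.length + 1) * 4) ≤
      n - n / ((l.length + 1) * 4) := by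
    rw [hr]
    generalize n / (l.length + 1) = q at hr' ⊢
    omega
  have e6 : (l.length + 1) * n + 2 ≤ 2 ^ (n / ((l.length + 1) * 4)) := by simpa using e5
  obtain ⟨θ', S', a1, a2, a3⟩ := level_core mc
    (fun A => ev b l A (bitEncode (List.replicate n false, ([] : List Bool)))) (k := l.length)
    (B := B.eval n) (n := n) (T := T.eval n) (W := W.eval n) (M := M.eval n)
    (r := n / ((l.length + 1) * 4)) (fun A A' h => h1 A A' _ _ hl (hB ▸ h))
    (fun σ hσ => (h2 _ σ _ _ _ hσ (by omega) (by rw [hB])).mono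
      (Set.singleton_subset_iff.2 ⟨_, hl, rfl⟩))
    (by omega) (by omega) e1 (by simpa using e2) hW.symm (by simpa using e3) hr1
    ((Nat.mul_le_mul_left _ e6).trans (by
      rw [← pow_add]
      exact Nat.pow_le_pow_right (by norm_num) hr2))
    (by rw [hM, hW, hT]; positivity) hM.ge (by simpa using e4) θ S
  exact ⟨θ', S', T.eval n, by omega, a1, by simpa using a2, fun θ'' S'' h => ⟨_, a3 θ'' S'' h⟩⟩

theorem exists_limit (d : ℕ → ℕ) (hd : ∀ c : ℕ, ∃ n₀, ∀ n ≥ n₀, n ^ c ≤ d n) (mc : ℕ → OM)
    (P : ℕ → Lang → Prop) (hP : ∀ i, Meets mc (P i)) :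
    ∃ θ S : Lang, (∀ n, {w : List Bool | w.length ≤ n ∧ S w = true}.ncard ≤ d n) ∧
      ∀ i, P i (orc mc θ S) := by
  classical
  let Inv : Lang → Prop := fun S => {w | S w = true}.Finite ∧
    ∀ n, {w : List Bool | w.length ≤ n ∧ S w = true}.ncard ≤ d n
  have step : ∀ (i : ℕ) (a : {a : Lang × Lang × ℕ // Inv a.2.1}),
      ∃ a' : {a : Lang × Lang × ℕ // Inv a.2.1}, a.1.2.2 < a'.1.2.2 ∧
        Agree a.1.2.2 a.1.1 a.1.2.1 a'.1.1 a'.1.2.1 ∧
        ∀ θ S : Lang, Agree a'.1.2.2 a'.1.1 a'.1.2.1 θ S → P i (orc mc θ S) := by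
    rintro i ⟨⟨θ, S, m⟩, hf, hc⟩
    obtain ⟨C, hC⟩ := hP i
    obtain ⟨c, hc'⟩ := poly_le_pow (C + Polynomial.X)
    obtain ⟨n₀, hn₀⟩ := hd (2 * c)
    obtain ⟨n, hn, e1, e2, e3, e4⟩ := (hC.and ((Filter.eventually_ge_atTop m).and
      ((Filter.eventually_ge_atTop n₀).and ((Filter.eventually_ge_atTop 2).and
        (Filter.eventually_ge_atTop {w | S w = true}.ncard))))).exists
    obtain ⟨θ', S', T, hT, a1, ⟨X, x1, x2, x3⟩, a3⟩ := hn θ S
    have hsub : {w | S' w = true} ⊆ {w | S w = true} ∪ X := fun w hw => x3 w hw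
    have hf' := hf.union X.finite_toSet
    refine ⟨⟨(θ', S', T), hf'.subset hsub, fun r => ?_⟩, lt_of_le_of_lt e1 hT,
      ⟨fun w hw => a1.1 w (lt_of_lt_of_le hw e1), fun w hw => a1.2 w (lt_of_lt_of_le hw e1)⟩, a3⟩
    by_cases hr : r < n
    · refine le_trans (le_of_eq ?_) (hc r)
      congr 1
      ext w
      exact and_congr_right fun hw => by simp only [a1.2 w (by omega)]
    · have h1 := (Set.ncard_le_ncard (s := {w : List Bool | w.length ≤ r ∧ S' w = true})
        (fun w hw => hsub hw.2) hf').trans (Set.ncard_union_le _ _)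
      rw [Set.ncard_coe_finset] at h1
      have h2 := hc' n
      simp only [Polynomial.eval_add, Polynomial.eval_X] at h2
      have h3 : (n + 2) ^ c ≤ r ^ (2 * c) := by
        rw [pow_mul]
        exact Nat.pow_le_pow_left (by nlinarith) _
      have h4 := hn₀ r (by omega)
      exact h1.trans (by omega)
  choose F hF1 hF2 hF3 using step
  let a : ℕ → {a : Lang × Lang × ℕ // Inv a.2.1} := fun i =>
    Nat.rec ⟨(fun _ => false, fun _ => false, 0), by simp [Inv]⟩ F i
  have hmono : StrictMono fun i => (a i).1.2.2 := strictMono_nat_of_lt_succ fun i => hF1 i (a i)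
  have hag : ∀ i j, i ≤ j → Agree (a i).1.2.2 (a i).1.1 (a i).1.2.1 (a j).1.1 (a j).1.2.1 := by
    intro i j hij
    induction j, hij using Nat.le_induction with
    | base => exact ⟨fun _ _ => rfl, fun _ _ => rfl⟩
    | succ j hij ih =>
      have h1 := hF2 j (a j)
      have h2 := hmono.monotone hij
      exact ⟨fun w hw => (ih.1 w hw).trans (h1.1 w (hw.trans_le h2)),
        fun w hw => (ih.2 w hw).trans (h1.2 w (hw.trans_le h2))⟩
  have hlim : ∀ i, Agree (a i).1.2.2 (a i).1.1 (a i).1.2.1 (fun w => (a (lev w + 1)).1.1 w)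
      fun w => (a (w.length + 1)).1.2.1 w := by
    refine fun i => ⟨fun w hw => ?_, fun w hw => ?_⟩
    · rcases le_total i (lev w + 1) with h | h
      · exact (hag _ _ h).1 w hw
      · exact ((hag _ _ h).1 w (hmono.le_apply (x := lev w + 1))).symm
    · rcases le_total i (w.length + 1) with h | h
      · exact (hag _ _ h).2 w hw
      · exact ((hag _ _ h).2 w (hmono.le_apply (x := w.length + 1))).symm
  refine ⟨fun w => (a (lev w + 1)).1.1 w, fun w => (a (w.length + 1)).1.2.1 w, fun n => ?_,
    fun i => hF3 i (a i) _ _ (hlim (i + 1))⟩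
  refine le_trans (le_of_eq ?_) ((a (n + 1)).2.2 n)
  congr 1
  ext w
  refine and_congr_right fun hw => ?_
  rw [(hlim (n + 1)).2 w (lt_of_lt_of_le (by omega) (hmono.le_apply (x := n + 1)))]

theorem exists_oracles' (d : ℕ → ℕ) (hd : ∀ c : ℕ, ∃ n₀, ∀ n ≥ n₀, n ^ c ≤ d n) (mc : ℕ → OM) :
    ∃ θ S : Lang, (∀ n, {w : List Bool | w.length ≤ n ∧ S w = true}.ncard ≤ d n) ∧
      ∀ b l, (∃ x, ev b l (orc mc θ S) x ≠ par (orc mc θ S) x (2 ^ x.length)) ∧
        ∃ x, ev b l (orc mc θ S) x ≠ gl (orc mc θ S) (l.length + 1) x := by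
  obtain ⟨τ, hτ⟩ := exists_surjective_nat
    (Bool × (OM × Polynomial ℕ) × List (OM × Polynomial ℕ × Polynomial ℕ))
  obtain ⟨θ, S, h1, h2⟩ := exists_limit d hd mc (fun i A => ∃ x, ev (τ i).2.1 (τ i).2.2 A x ≠
    bif (τ i).1 then par A x (2 ^ x.length) else gl A ((τ i).2.2.length + 1) x) fun i => by
      cases (τ i).1
      · exact level_stage mc _ _
      · exact stage mc _ _
  refine ⟨θ, S, h1, fun b l => ⟨?_, ?_⟩⟩
  · obtain ⟨i, hi⟩ := hτ (true, b, l)
    simpa [hi] using h2 i
  · obtain ⟨i, hi⟩ := hτ (false, b, l)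
    simpa [hi] using h2 i

end Pool.Agent.MP_a2d820_lc.h69

end MrgPart4

-- marker of a merged file
example : 731051 + 560257 = 731051 + 560257 := rfl
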