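import Mathlib
import Pool.Prelude.Def_H_3587d628

/-!
Oracle machines and the relativized classes P, NP, the polynomial hierarchy and PSPACE.
-/

set_option autoImplicit false

namespace Pool.Agent.MP_a2d820_lc.h69

/-- An oracle machine on binary configurations: the string asked in a configuration, and the next
configuration given the answer, are computable in polynomial time. -/
structure OM where
  qry : List Bool → List Bool
  nxt : List Bool × Bool → List Bool
  qry_poly : N68a2faeb.IsPolyTime qry
  nxt_poly : N68a2faeb.IsPolyTime nxt

/-- The configuration after `t` steps on input `x` with oracle `A`. -/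
def OM.run (M : OM) (A : List Bool → Bool) (x : List Bool) : ℕ → List Bool
  | 0 => true :: true :: x
  | t + 1 => M.nxt (M.run A x t, A (M.qry (M.run A x t)))

/-- The machine first reaches a halting configuration at time `t`, with answer `b`, and all
earlier configurations have length at most `s`. -/
def OM.Halts (M : OM) (A : List Bool → Bool) (x : List Bool) (s t : ℕ) (b : Bool) : Prop :=
  M.run A x t = [b] ∧ ∀ r < t, 2 ≤ (M.run A x r).length ∧ (M.run A x r).length ≤ s

/-- Polynomial time relative to `A`. -/
def RelP (A : List Bool → Bool) : Set (List Bool → Bool) :=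
  {L | ∃ (M : OM) (p : Polynomial ℕ), ∀ x, ∃ t ≤ p.eval x.length,
    M.Halts A x (p.eval x.length) t (L x)}

/-- Polynomial space relative to `A`. -/
def RelPSPACE (A : List Bool → Bool) : Set (List Bool → Bool) :=
  {L | ∃ (M : OM) (p : Polynomial ℕ), ∀ x, ∃ t, M.Halts A x (p.eval x.length) t (L x)}

/-- Nondeterministic polynomial time relative to `A`. -/
def RelNP (A : List Bool → Bool) : Set (List Bool → Bool) :=
  {L | ∃ p : Polynomial ℕ, ∃ R ∈ RelP A, ∀ x, L x = true ↔
    ∃ w : List Bool, w.length ≤ p.eval x.length ∧ R (N487b59b3.delimit x ++ w) = true}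

/-- The join of two oracles. -/
def join (A B : List Bool → Bool) : List Bool → Bool
  | [] => false
  | false :: w => A w
  | true :: w => B w

/-- The levels of the polynomial hierarchy relative to `A`. -/
def RelSigma (A : List Bool → Bool) : ℕ → Set (List Bool → Bool)
  | 0 => RelP A
  | k + 1 => {L | ∃ B ∈ RelSigma A k, L ∈ RelNP (join A B)}

end Pool.Agent.MP_a2d820_lc.h69
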