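import Mathlib
import Pool.Agent.Lib.helper82.StackMachine
import Pool.Agent.MP_a2d820_lc.h69.Defs

-- ======== part 0: formerly Pool.Agent.MP_a2d820_lc.h69.Count
section MrgPart0

/-!
There are only countably many polynomial-time functions and oracle machines.
-/

set_option autoImplicit false

namespace Pool.Agent.MP_a2d820_lc.h69

open Pool.Agent.PolyT Pool.Agent.H82 N487b59b3 Function

instance {Q K G : Type} [Finite Q] [Finite K] [Finite G] : Finite (SM Q K G) :=
  Finite.of_injective (fun M : SM Q K G => (M.stk, M.op, M.next)) fun M N h => by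
    cases M; cases N; simp_all

theorem countable_PT {α : Type} (e : α → List Bool) : {F : α → List Bool | PT e F}.Countable := by
  let D := Σ a : ℕ × ℕ × ℕ, SM (Fin a.1) (Fin a.2.1) (Fin a.2.2) × Fin a.1 × Fin a.2.1 ×
    Fin a.2.1 × (Bool → Fin a.2.2) × (Bool → Fin a.2.2)
  let S : D → Set (α → List Bool) := fun d => {F | Injective d.2.2.2.2.2.2 ∧ ∀ a, ∃ t₀, ∀ t ≥ t₀,
    (d.2.1.step^[t] (d.2.2.1, fun k => if k = d.2.2.2.1 then (e a).map d.2.2.2.2.2.1 else [])).2
      d.2.2.2.2.1 = (F a).map d.2.2.2.2.2.2}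
  refine (Set.countable_iUnion (t := S) fun d => Set.Subsingleton.countable ?_).mono ?_
  · rintro F ⟨hi, hF⟩ G ⟨-, hG⟩
    funext a
    obtain ⟨t, ht⟩ := hF a
    obtain ⟨t', ht'⟩ := hG a
    exact List.map_injective_iff.2 hi ((ht _ (le_max_left t t')).symm.trans (ht' _ (le_max_right _ _)))
  · intro F hF
    obtain ⟨N, r, hN⟩ := exists_fsm hF
    let eQ := Fintype.equivFin N.Q
    let eK := Fintype.equivFin N.K
    let eG := Fintype.equivFin N.G
    let M' : SM (Fin (Fintype.card N.Q)) (Fin (Fintype.card N.K)) (Fin (Fintype.card N.G)) :=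
      { stk := fun q => eK (N.M.stk (eQ.symm q))
        op := fun q => (N.M.op (eQ.symm q)).map (Option.map eG)
        next := fun q γ => eQ (N.M.next (eQ.symm q) (γ.map eG.symm)) }
    let φ : N.Q × (N.K → List N.G) → _ := fun c => (eQ c.1, fun k => (c.2 (eK.symm k)).map eG)
    have hφ : Semiconj φ N.M.step M'.step := by
      rintro ⟨q, St⟩
      simp only [φ, M', SM.step, Equiv.symm_apply_apply, List.head?_map, Option.map_map,
        Equiv.symm_comp_self, Option.map_id_fun, id, Prod.mk.injEq, true_and]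
      funext k
      by_cases hk : k = eK (N.M.stk q)
      · subst hk
        simp only [Equiv.symm_apply_apply, update_self]
        rcases N.M.op q with _ | _ | g <;> simp [upd]
      · rw [update_of_ne hk, update_of_ne fun h => hk (by rw [← h]; simp)]
    refine Set.mem_iUnion.2 ⟨⟨(_, _, _), M', eQ N.q₀, eK N.k₀, eK N.k₁, eG ∘ N.inp, eG ∘ N.out⟩,
      eG.injective.comp N.out_inj, fun a => ⟨r.eval (e a).length, fun t ht => ?_⟩⟩
    have h1 := hφ.iterate_right t (N.start (e a))
    have h2 : φ (N.start (e a)) =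
        (eQ N.q₀, fun k => if k = eK N.k₀ then (e a).map (eG ∘ N.inp) else []) := by
      simp only [φ, FSM.start, Prod.mk.injEq, true_and]
      funext k
      by_cases hk : k = eK N.k₀
      · simp [hk]
      · rw [if_neg hk, if_neg fun h => hk (by rw [← h]; simp)]
        rfl
    rw [h2] at h1
    refine (congrFun (congrArg Prod.snd h1) (eK N.k₁)).symm.trans ?_
    simp [φ, hN a t ht]
    rfl

theorem countable_poly {α β : Type} [N487b59b3 α] [N487b59b3 β] :
    {f : α → β | N68a2faeb.IsPolyTime f}.Countable :=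
  (countable_PT (bitEncode : α → List Bool)).preimage_of_injOn
    (f := fun (f : α → β) a => bitEncode (f a))
    (fun _ _ _ _ h => funext fun a => bitEncode_injective (congrFun h a)) |>.mono
    fun f hf => (poly_iff f).2 hf

instance : Countable OM := by
  have h1 := (countable_poly (α := List Bool) (β := List Bool)).to_subtype
  have h2 := (countable_poly (α := List Bool × Bool) (β := List Bool)).to_subtype
  exact Function.Injective.countable
    (f := fun M : OM => ((⟨M.qry, M.qry_poly⟩, ⟨M.nxt, M.nxt_poly⟩) :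
      {f : List Bool → List Bool | N68a2faeb.IsPolyTime f} ×
        {f : List Bool × Bool → List Bool | N68a2faeb.IsPolyTime f}))
    fun M N h => by cases M; cases N; simp_all

instance : Nonempty OM :=
  ⟨⟨fun _ => [], fun _ => [], (poly_iff _).1 (PolyT.Poly.const _), (poly_iff _).1 (PolyT.Poly.const _)⟩⟩

instance : Countable (Polynomial ℕ) :=
  Function.Injective.countable (f := fun p : Polynomial ℕ => p.toFinsupp.coeff)
    fun _ _ h => Polynomial.ext fun n => DFunLike.congr_fun h n

end Pool.Agent.MP_a2d820_lc.h69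

end MrgPart0

-- ======== part 1: formerly Pool.Agent.MP_a2d820_lc.h69.PReduce
section MrgPart1

-- ======== part 0: formerly Pool.Agent.MP_a2d820_lc.h69.Tree
section MrgPart0

/-!
Decision trees and a switching lemma in which the set of free variables only needs bounded
independence.
-/

set_option autoImplicit false

namespace Pool.Agent.MP_a2d820_lc.h69

open Finset

variable {V : Type}

/-- Decision trees of bounded depth whose queries are taken from `Q`. -/
inductive DTq (Q : Set ((V → Bool) → Bool)) : ℕ → ((V → Bool) → Bool) → Prop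
  | const (d : ℕ) (b : Bool) : DTq Q d (fun _ => b)
  | node {d : ℕ} {g f₀ f₁ : (V → Bool) → Bool} (hg : g ∈ Q) (h₀ : DTq Q d f₀) (h₁ : DTq Q d f₁) :
      DTq Q (d + 1) (fun z => bif g z then f₁ z else f₀ z)

/-- Ordinary decision trees. -/
abbrev DT : ℕ → ((V → Bool) → Bool) → Prop := DTq (Set.range fun (v : V) (z : V → Bool) => z v)

theorem DTq.congr {Q : Set ((V → Bool) → Bool)} {d : ℕ} {f g : (V → Bool) → Bool}
    (h : DTq Q d f) (e : ∀ z, f z = g z) : DTq Q d g := by
  rw [← funext e]; exact h

theorem DTq.succ {Q : Set ((V → Bool) → Bool)} {d : ℕ} {f : (V → Bool) → Bool}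
    (h : DTq Q d f) : DTq Q (d + 1) f := by
  induction h with
  | const d b => exact .const _ b
  | node hg _ _ ih₀ ih₁ => exact .node hg ih₀ ih₁

theorem DTq.mono {Q : Set ((V → Bool) → Bool)} {d d' : ℕ} {f : (V → Bool) → Bool}
    (h : DTq Q d f) (hd : d ≤ d') : DTq Q d' f := by
  induction hd with
  | refl => exact h
  | step _ ih => exact ih.succ

theorem DTq.cond {Q : Set ((V → Bool) → Bool)} {s d : ℕ} {g f₀ f₁ : (V → Bool) → Bool}
    (hg : DTq Q s g) (h₀ : DTq Q d f₀) (h₁ : DTq Q d f₁) :
    DTq Q (d + s) (fun z => bif g z then f₁ z else f₀ z) := by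
  induction hg with
  | const s b =>
    cases b
    · exact h₀.mono (by omega)
    · exact h₁.mono (by omega)
  | node hq _ _ ih₀ ih₁ =>
    refine (DTq.node hq ih₀ ih₁).congr fun z => ?_
    rename_i q _ _ _ _
    beta_reduce
    cases q z <;> rfl

theorem DTq.comp {Q Q' : Set ((V → Bool) → Bool)} {s w : ℕ} {f : (V → Bool) → Bool}
    (h : DTq Q w f) (hQ : ∀ g ∈ Q, DTq Q' s g) : DTq Q' (w * s) f := by
  induction h with
  | const d b => exact .const _ b
  | node hg _ _ ih₀ ih₁ => exact ((hQ _ hg).cond ih₀ ih₁).mono (by rw [Nat.succ_mul])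

theorem DTq.precomp {V' : Type} {Q : Set ((V → Bool) → Bool)} {Q' : Set ((V' → Bool) → Bool)}
    {w : ℕ} {f : (V → Bool) → Bool} (h : DTq Q w f) (r : (V' → Bool) → V → Bool)
    (hQ : ∀ g ∈ Q, g ∘ r ∈ Q') : DTq Q' w (f ∘ r) := by
  induction h with
  | const d b => exact .const _ b
  | node hg _ _ ih₀ ih₁ => exact .node (hQ _ hg) ih₀ ih₁

theorem dt_var (v : V) : DT 1 (fun z : V → Bool => z v) :=
  (DTq.node (Set.mem_range_self v) (.const 0 false) (.const 0 true)).congr
    fun z => by cases z v <;> rfl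

/-- Every input of a decision tree has a small certificate. -/
theorem DT.cert [DecidableEq V] {d : ℕ} {f : (V → Bool) → Bool} (h : DT d f) (y : V → Bool) :
    ∃ D : Finset V, D.card ≤ d ∧ ∀ z, (∀ v ∈ D, z v = y v) → f z = f y := by
  induction h with
  | const d b => exact ⟨∅, by simp, fun _ _ => rfl⟩
  | node hg _ _ ih₀ ih₁ =>
    obtain ⟨v, rfl⟩ := hg
    obtain ⟨D₀, c₀, e₀⟩ := ih₀
    obtain ⟨D₁, c₁, e₁⟩ := ih₁
    cases hy : y v
    · refine ⟨insert v D₀, (card_insert_le _ _).trans (by omega), fun z hz => ?_⟩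
      simp only [hz v (mem_insert_self _ _), hy, cond_false]
      exact e₀ z fun u hu => hz u (mem_insert_of_mem hu)
    · refine ⟨insert v D₁, (card_insert_le _ _).trans (by omega), fun z hz => ?_⟩
      simp only [hz v (mem_insert_self _ _), hy, cond_true]
      exact e₁ z fun u hu => hz u (mem_insert_of_mem hu)

variable [DecidableEq V]

/-- The restriction that keeps the variables in `T` free and sets the others as in `y`. -/
def res (T : Finset V) (y : V → Bool) (z : V → Bool) : V → Bool := T.piecewise z y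

theorem res_of_mem {T : Finset V} {y z : V → Bool} {v : V} (h : v ∈ T) : res T y z v = z v :=
  T.piecewise_eq_of_mem _ _ h

theorem res_of_notMem {T : Finset V} {y z : V → Bool} {v : V} (h : v ∉ T) : res T y z v = y v :=
  T.piecewise_eq_of_notMem _ _ h

theorem dt_res {d : ℕ} {f : (V → Bool) → Bool} (h : DT d f) (T : Finset V) (y : V → Bool) :
    DT d (f ∘ res T y) := by
  have := (h.precomp (Q' := {g | DT 1 g}) (res T y) (by
    rintro _ ⟨v, rfl⟩
    by_cases hv : v ∈ T
    · exact (dt_var v).congr fun z => (res_of_mem hv).symm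
    · exact (DTq.const 1 (y v)).congr fun z => (res_of_notMem hv).symm)).comp fun g hg => hg
  simpa using this

theorem res_res {T T' : Finset V} (h : T' ⊆ T) (y y' z : V → Bool) :
    res T y (res T' y' z) = res T' (res T y y') z := by
  funext v
  by_cases h' : v ∈ T'
  · rw [res_of_mem (h h'), res_of_mem h', res_of_mem h']
  · rw [res_of_notMem h']
    by_cases h'' : v ∈ T
    · rw [res_of_mem h'', res_of_mem h'', res_of_notMem h']
    · rw [res_of_notMem h'', res_of_notMem h'']

theorem dt_query (D : Finset V) {d : ℕ} {f : (V → Bool) → Bool}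
    (h : ∀ π, DT d (fun z => f (D.piecewise π z))) : DT (d + D.card) f := by
  induction D using Finset.induction_on generalizing f with
  | empty => simpa using h (fun _ => false)
  | insert v D hv ih =>
    rw [card_insert_of_notMem hv, ← add_assoc]
    have key : ∀ b, DT (d + D.card) (fun z => f (Function.update z v b)) := fun b =>
      ih fun π => (h (Function.update π v b)).congr fun z => by
        congr 1
        funext u
        by_cases hu : u = v
        · subst hu; simp
        · simp [Finset.piecewise, hu]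
    refine (DTq.node (Set.mem_range_self v) (key false) (key true)).congr fun z => ?_
    have : ∀ b, z v = b → Function.update z v b = z := fun b hb => by simp [← hb]
    cases hz : z v <;> simp [this _ hz]

/-- A term: a set of variables with prescribed values. -/
abbrev Term (V : Type) := Finset V × (V → Bool)

/-- The term is satisfied. -/
def sat (z : V → Bool) (C : Term V) : Bool := decide (∀ v ∈ C.1, z v = C.2 v)

/-- The term is not falsified by the restriction. -/
def live (T : Finset V) (y : V → Bool) (C : Term V) : Bool :=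
  decide (∀ v ∈ C.1, v ∉ T → y v = C.2 v)

/-- The canonical decision tree has a branch through `s` terms. -/
def Bad (F : List (Term V)) : ℕ → Finset V → (V → Bool) → Prop
  | 0, _, _ => True
  | s + 1, T, y => ∃ C, F.find? (live T y) = some C ∧ (C.1 ∩ T).Nonempty ∧
      ∃ π, Bad F s (T \ C.1) ((C.1 ∩ T).piecewise π y)

theorem dt_of_not_bad {F : List (Term V)} {w : ℕ} (hF : ∀ C ∈ F, C.1.card ≤ w) (s : ℕ)
    (T : Finset V) (y : V → Bool) (h : ¬Bad F s T y) :
    DT (s * w) (fun z => F.any (sat (res T y z))) := by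
  induction s generalizing T y with
  | zero => exact absurd trivial h
  | succ s ih =>
    rcases hC : F.find? (live T y) with _ | C
    · refine (DTq.const _ false).congr fun z => ?_
      symm
      rw [List.any_eq_false]
      intro C hC' hs
      have := List.find?_eq_none.1 hC C hC'
      simp only [sat, decide_eq_true_eq] at hs
      simp only [live, decide_eq_true_eq] at this
      exact this fun v hv hT => by rw [← hs v hv, res_of_notMem hT]
    have hl := List.find?_some hC
    have hm := List.mem_of_find?_eq_some hC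
    simp only [live, decide_eq_true_eq] at hl
    by_cases hne : (C.1 ∩ T).Nonempty
    · have h2 : ∀ π, ¬Bad F s (T \ C.1) ((C.1 ∩ T).piecewise π y) := fun π hb =>
        h ⟨C, hC, hne, π, hb⟩
      refine (dt_query (C.1 ∩ T) fun π => (ih _ _ (h2 π)).congr fun z => ?_).mono ?_
      · congr 2
        funext v
        by_cases h1 : v ∈ T <;> by_cases h2 : v ∈ C.1 <;> simp [res, Finset.piecewise, h1, h2]
      · have := (card_le_card (inter_subset_left (s₁ := C.1) (s₂ := T))).trans (hF C hm)
        rw [Nat.succ_mul]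
        omega
    · refine (DTq.const _ true).congr fun z => ?_
      symm
      rw [List.any_eq_true]
      refine ⟨C, hm, ?_⟩
      simp only [sat, decide_eq_true_eq]
      intro v hv
      have hT : v ∉ T := fun hT => hne ⟨v, mem_inter.2 ⟨hv, hT⟩⟩
      rw [res_of_notMem hT, hl v hv hT]

/-- The sets of variables that can be decoded from a full assignment. -/
def Dec (F : List (Term V)) : ℕ → (V → Bool) → Finset (Finset V)
  | 0, _ => {∅}
  | s + 1, y => match F.find? (sat y) with
    | none => ∅
    | some C => (C.1.powerset.erase ∅).biUnion fun D => D.powerset.biUnion fun E =>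
        ((Dec F s (D.piecewise (fun v => decide (v ∈ E)) y)).filter (Disjoint D)).image (D ∪ ·)

theorem exists_dec {F : List (Term V)} (s : ℕ) (T : Finset V) (y : V → Bool) (h : Bad F s T y) :
    ∃ y', ∃ D ∈ Dec F s y', D ⊆ T ∧ ∀ v ∉ D, y' v = y v := by
  induction s generalizing T y with
  | zero => exact ⟨y, ∅, by simp [Dec], by simp, fun _ _ => rfl⟩
  | succ s ih =>
    obtain ⟨C, hC, hne, π, hb⟩ := h
    obtain ⟨y₁, D₁, h1, h2, h3⟩ := ih _ _ hb
    have hl := List.find?_some hC
    simp only [live, decide_eq_true_eq] at hl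
    have hd : Disjoint (C.1 ∩ T) D₁ := disjoint_left.2 fun v hv hv' =>
      (mem_sdiff.1 (h2 hv')).2 (mem_inter.1 hv).1
    have hoff : ∀ v ∉ (C.1 ∩ T) ∪ D₁, (C.1 ∩ T).piecewise C.2 y₁ v = y v := by
      intro v hv
      rw [mem_union, not_or] at hv
      rw [piecewise_eq_of_notMem _ _ _ hv.1, h3 v hv.2, piecewise_eq_of_notMem _ _ _ hv.1]
    have hsub : (C.1 ∩ T) ∪ D₁ ⊆ T := union_subset inter_subset_right (h2.trans sdiff_subset)
    have hf : F.find? (sat ((C.1 ∩ T).piecewise C.2 y₁)) = some C := by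
      rw [List.find?_eq_some_iff_append] at hC ⊢
      obtain ⟨-, as, bs, e, hC⟩ := hC
      refine ⟨?_, as, bs, e, fun C' hC' => ?_⟩
      · simp only [sat, decide_eq_true_eq]
        intro v hv
        by_cases hT : v ∈ T
        · exact piecewise_eq_of_mem _ _ _ (mem_inter.2 ⟨hv, hT⟩)
        · rw [hoff v fun h => hT (hsub h), hl v hv hT]
      · have := hC C' hC'
        simp only [live, sat, Bool.not_eq_true', decide_eq_false_iff_not] at this ⊢
        exact fun hs => this fun v hv hT => by rw [← hs v hv, hoff v fun h => hT (hsub h)]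
    refine ⟨(C.1 ∩ T).piecewise C.2 y₁, (C.1 ∩ T) ∪ D₁, ?_, hsub, hoff⟩
    simp only [Dec, hf, mem_biUnion, mem_image, mem_filter, mem_erase, mem_powerset]
    refine ⟨C.1 ∩ T, ⟨hne.ne_empty, inter_subset_left⟩, (C.1 ∩ T).filter (π · = true),
      filter_subset _ _, D₁, ⟨?_, hd⟩, rfl⟩
    convert h1 using 2
    funext v
    by_cases hv : v ∈ C.1 ∩ T
    · rw [piecewise_eq_of_mem _ _ _ hv, h3 v (disjoint_left.1 hd hv), piecewise_eq_of_mem _ _ _ hv]
      simp only [mem_filter, hv, true_and, Bool.decide_eq_true]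
    · rw [piecewise_eq_of_notMem _ _ _ hv, piecewise_eq_of_notMem _ _ _ hv]

theorem card_dec {F : List (Term V)} {w : ℕ} (hF : ∀ C ∈ F, C.1.card ≤ w) (s : ℕ) (y : V → Bool) :
    ∀ D ∈ Dec F s y, D.card ≤ s * w := by
  induction s generalizing y with
  | zero => simp [Dec]
  | succ s ih =>
    intro D hD
    rcases hC : F.find? (sat y) with _ | C
    · simp [Dec, hC] at hD
    simp only [Dec, hC, mem_biUnion, mem_image, mem_filter, mem_erase, mem_powerset] at hD
    obtain ⟨D₀, ⟨-, h0⟩, E, -, D₁, ⟨h1, -⟩, rfl⟩ := hD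
    have := (card_le_card h0).trans (hF C (List.mem_of_find?_eq_some hC))
    have := ih _ D₁ h1
    have := card_union_le D₀ D₁
    rw [Nat.succ_mul]
    omega

theorem sum_biUnion_le' {α β : Type} [DecidableEq β] (s : Finset α) (t : α → Finset β)
    (f : β → ℝ) (hf : ∀ b, 0 ≤ f b) : ∑ b ∈ s.biUnion t, f b ≤ ∑ a ∈ s, ∑ b ∈ t a, f b := by
  classical
  induction s using Finset.induction_on with
  | empty => simp
  | insert a s ha ih =>
    rw [biUnion_insert, sum_insert ha]
    have := sum_union_inter (s₁ := t a) (s₂ := s.biUnion t) (f := f)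
    have := sum_nonneg fun b (_ : b ∈ t a ∩ s.biUnion t) => hf b
    linarith

theorem sum_dec {F : List (Term V)} {w : ℕ} (hF : ∀ C ∈ F, C.1.card ≤ w) {x : ℝ} (hx : 0 ≤ x)
    (s : ℕ) (y : V → Bool) : ∑ D ∈ Dec F s y, x ^ D.card ≤ ((1 + 2 * x) ^ w - 1) ^ s := by
  have hl : 0 ≤ (1 + 2 * x) ^ w - 1 := sub_nonneg.2 (one_le_pow₀ (by linarith))
  induction s generalizing y with
  | zero => simp [Dec]
  | succ s ih =>
    rcases hC : F.find? (sat y) with _ | C
    · simp only [Dec, hC, sum_empty]
      positivity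
    simp only [Dec, hC]
    refine (sum_biUnion_le' _ _ _ fun _ => by positivity).trans ?_
    have h1 : ∀ D ∈ C.1.powerset.erase ∅, ∑ b ∈ D.powerset.biUnion fun E =>
        ((Dec F s (D.piecewise (fun v => decide (v ∈ E)) y)).filter (Disjoint D)).image (D ∪ ·),
          x ^ b.card ≤ (2 * x) ^ D.card * ((1 + 2 * x) ^ w - 1) ^ s := by
      intro D _
      refine (sum_biUnion_le' _ _ _ fun _ => by positivity).trans ?_
      refine (sum_le_card_nsmul _ _ (x ^ D.card * ((1 + 2 * x) ^ w - 1) ^ s) fun E _ => ?_).trans ?_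
      · refine (sum_image_le_of_nonneg fun _ _ => by positivity).trans ?_
        refine le_trans ?_ (mul_le_mul_of_nonneg_left
          (ih (D.piecewise (fun v => decide (v ∈ E)) y)) (by positivity))
        rw [mul_sum]
        refine (sum_congr rfl fun D' hD' => ?_).trans_le
          (sum_le_sum_of_subset_of_nonneg (filter_subset _ _) fun _ _ _ => by positivity)
        rw [card_union_of_disjoint (mem_filter.1 hD').2, pow_add]
      · rw [card_powerset, nsmul_eq_mul, mul_pow]
        push_cast
        exact le_of_eq (by ring)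
    refine (sum_le_sum h1).trans ?_
    rw [← sum_mul, pow_succ']
    refine mul_le_mul_of_nonneg_right ?_ (by positivity)
    have h2 := sum_erase_eq_sub (f := fun D : Finset V => (2 * x) ^ D.card) (empty_mem_powerset C.1)
    have h3 : ∑ D ∈ C.1.powerset, (2 * x) ^ D.card = (1 + 2 * x) ^ C.1.card := by
      rw [← prod_const, prod_one_add]
      simp
    have h4 : (1 + 2 * x) ^ C.1.card ≤ (1 + 2 * x) ^ w :=
      pow_le_pow_right₀ (by linarith) (hF C (List.mem_of_find?_eq_some hC))
    rw [h2, h3]
    simp only [card_empty, pow_zero]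
    linarith

end Pool.Agent.MP_a2d820_lc.h69

end MrgPart0

-- ======== part 1: formerly Pool.Agent.MP_a2d820_lc.h69.Reduce
section MrgPart1

/-!
Depth reduction for bounded-depth circuits under nested selections of free variables.
-/

set_option autoImplicit false

namespace Pool.Agent.MP_a2d820_lc.h69

open Finset

variable {V : Type} [Fintype V] [DecidableEq V] {Ω : Type} [Fintype Ω]

/-- A small set is selected with probability at most `R ^ (-card)`. -/
def SubInd (nx : Ω → Finset V) (t R : ℕ) : Prop :=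
  ∀ D : Finset V, D.card ≤ t → #{ω | D ⊆ nx ω} * R ^ D.card ≤ Fintype.card Ω

theorem card_agree (D : Finset V) (y' : V → Bool) :
    #{y : V → Bool | ∀ v ∉ D, y' v = y v} ≤ 2 ^ D.card := by
  rw [← card_powerset]
  refine card_le_card_of_injOn (fun y => D.filter (y · = true)) (fun y _ => mem_coe.2 (mem_powerset.2 (filter_subset _ _))) ?_
  intro y hy z hz h
  simp only [coe_filter, mem_univ, true_and, Set.mem_ofPred_eq] at hy hz
  funext v
  by_cases hv : v ∈ D
  · have := congrArg (v ∈ ·) h
    simp only [mem_filter, hv, true_and, eq_iff_iff] at this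
    exact Bool.eq_iff_iff.2 this
  · rw [← hy v hv, ← hz v hv]

open Classical in
theorem switch_count {nx : Ω → Finset V} {t R : ℕ} (h : SubInd nx t R) (hR : 0 < R)
    {F : List (Term V)} {w s : ℕ} (hF : ∀ C ∈ F, C.1.card ≤ w) (ht : s * w ≤ t) :
    (#{p : Ω × (V → Bool) | Bad F s (nx p.1) p.2} : ℝ) ≤
      ((1 + 2 * (2 / R)) ^ w - 1) ^ s * Fintype.card (Ω × (V → Bool)) := by
  have hsub : ({p : Ω × (V → Bool) | Bad F s (nx p.1) p.2} : Finset _) ⊆
      univ.biUnion fun y' => (Dec F s y').biUnion fun D =>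
        ({ω | D ⊆ nx ω} : Finset Ω) ×ˢ ({y : V → Bool | ∀ v ∉ D, y' v = y v} : Finset _) := by
    intro p hp
    obtain ⟨y', D, h1, h2, h3⟩ := exists_dec s _ _ (mem_filter.1 hp).2
    simp only [mem_biUnion, mem_univ, true_and, mem_product, mem_filter]
    exact ⟨y', D, h1, h2, h3⟩
  have h1 : #{p : Ω × (V → Bool) | Bad F s (nx p.1) p.2} ≤
      ∑ y' : V → Bool, ∑ D ∈ Dec F s y', #{ω | D ⊆ nx ω} * 2 ^ D.card := by
    refine (card_le_card hsub).trans (card_biUnion_le.trans (sum_le_sum fun y' _ => ?_))
    refine card_biUnion_le.trans (sum_le_sum fun D _ => ?_)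
    rw [card_product]
    exact Nat.mul_le_mul_left _ (card_agree D y')
  have hR' : (0 : ℝ) < R := by exact_mod_cast hR
  have h2 : ∀ y' : V → Bool, ∑ D ∈ Dec F s y', ((#{ω | D ⊆ nx ω} * 2 ^ D.card : ℕ) : ℝ) ≤
      ((1 + 2 * (2 / R)) ^ w - 1) ^ s * Fintype.card Ω := by
    intro y'
    refine le_trans ?_ (mul_le_mul_of_nonneg_right
      (sum_dec hF (x := 2 / R) (by positivity) s y') (by positivity))
    rw [sum_mul]
    refine sum_le_sum fun D hD => ?_
    have h3 : ((#{ω | D ⊆ nx ω} * R ^ D.card : ℕ) : ℝ) ≤ Fintype.card Ω := by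
      exact_mod_cast h D ((card_dec hF s y' D hD).trans ht)
    push_cast at h3 ⊢
    rw [div_pow, div_mul_eq_mul_div, le_div_iff₀ (by positivity)]
    calc _ = 2 ^ D.card * ((#{ω | D ⊆ nx ω} : ℝ) * R ^ D.card) := by ring
      _ ≤ _ := mul_le_mul_of_nonneg_left h3 (by positivity)
  refine le_trans (Nat.cast_le.2 h1) ?_
  rw [Nat.cast_sum]
  refine (sum_le_card_nsmul _ _ _ fun y' _ => (Nat.cast_sum _ _).trans_le (h2 y')).trans ?_
  rw [Fintype.card_prod, nsmul_eq_mul, card_univ]
  push_cast
  exact le_of_eq (by ring)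

theorem lam_le {R w : ℕ} (hR : 0 < R) (h : 12 * w ≤ R) : (1 + 2 * (2 / R : ℝ)) ^ w - 1 ≤ 1 / 2 := by
  have hR' : (0 : ℝ) < R := by exact_mod_cast hR
  have key : ∀ (a : ℝ) (n : ℕ), 0 ≤ a → (1 + a) ^ n * (1 - n * a) ≤ 1 := by
    intro a n ha
    induction n with
    | zero => simp
    | succ n ih =>
      have h1 : (1 + a) * (1 - (n + 1) * a) ≤ 1 - n * a := by
        have : 0 ≤ (n + 1) * a * a := by positivity
        nlinarith
      have h2 : 0 ≤ (1 + a) ^ n := by positivity
      push_cast
      calc _ = (1 + a) ^ n * ((1 + a) * (1 - (n + 1) * a)) := by ring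
        _ ≤ (1 + a) ^ n * (1 - n * a) := mul_le_mul_of_nonneg_left h1 h2
        _ ≤ 1 := ih
  have h1 := key (2 * (2 / R)) w (by positivity)
  have h2 : (w : ℝ) * (2 * (2 / R)) ≤ 1 / 3 := by
    have : (12 * w : ℝ) ≤ R := by exact_mod_cast h
    rw [show (w : ℝ) * (2 * (2 / R)) = 4 * w / R by ring, div_le_iff₀ hR']
    linarith
  have h3 : 0 ≤ (1 + 2 * (2 / R : ℝ)) ^ w := by positivity
  nlinarith

/-- A disjunction of decision trees of depth `w` with queries from `Q`. -/
def IsOr (Q : Set ((V → Bool) → Bool)) (w : ℕ) (f : (V → Bool) → Bool) : Prop :=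
  ∃ G : Set ((V → Bool) → Bool), (∀ g ∈ G, DTq Q w g) ∧ ∀ z, f z = true ↔ ∃ g ∈ G, g z = true

theorem exists_dnf {w : ℕ} {f : (V → Bool) → Bool} {G : Set ((V → Bool) → Bool)}
    (hG : ∀ g ∈ G, DT w g) (hf : ∀ z, f z = true ↔ ∃ g ∈ G, g z = true) :
    ∃ F : List (Term V), (∀ C ∈ F, C.1.card ≤ w) ∧ ∀ z, F.any (sat z) = f z := by
  have : ∀ y, ∃ D : Finset V, D.card ≤ w ∧
      (f y = true → ∀ z, (∀ v ∈ D, z v = y v) → f z = true) := by
    intro y
    by_cases hy : f y = true
    · obtain ⟨g, hg, hgy⟩ := (hf y).1 hy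
      obtain ⟨D, h1, h2⟩ := (hG g hg).cert y
      exact ⟨D, h1, fun _ z hz => (hf z).2 ⟨g, hg, by rw [h2 z hz, hgy]⟩⟩
    · exact ⟨∅, by simp, fun h => absurd h hy⟩
  choose D h1 h2 using this
  refine ⟨(univ.filter (f · = true)).toList.map fun y => (D y, y), ?_, fun z => ?_⟩
  · intro C hC
    obtain ⟨y, -, rfl⟩ := List.mem_map.1 hC
    exact h1 y
  · rw [Bool.eq_iff_iff]
    simp only [List.any_map, List.any_eq_true, mem_toList, mem_filter, mem_univ, true_and,
      Function.comp, sat, decide_eq_true_eq]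
    exact ⟨fun ⟨y, hy, hz⟩ => h2 y hy z hz, fun hz => ⟨z, hz, fun _ _ => rfl⟩⟩

/-- Families of functions computed by circuits with `k` layers of disjunctions of trees. -/
def AC (w N : ℕ) : ℕ → Set ((V → Bool) → Bool) → Prop
  | 0, F => ∀ f ∈ F, DT w f
  | k + 1, F => ∃ G : Finset ((V → Bool) → Bool), G.card ≤ N ∧ AC w N k (G : Set _) ∧
      ∀ f ∈ F, IsOr ((G : Set _) ∪ {g | DT 1 g}) w f

/-- `k` nested rounds of selection that end in a good set. -/
def Sel (Ω : Type) [Fintype Ω] (t R : ℕ) (Good : Finset V → Prop) : ℕ → Finset V → Prop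
  | 0, T => Good T
  | k + 1, T => ∃ nx : Ω → Finset V, SubInd nx t R ∧ ∀ ω, nx ω ⊆ T ∧ Sel Ω t R Good k (nx ω)

theorem reduce [Nonempty Ω] {w N s t R : ℕ} {Good : Finset V → Prop} (hw : 1 ≤ w)
    (hN : N < 2 ^ s) (hs : 1 ≤ s) (k m : ℕ) (ht : (s * w) ^ k * w ≤ t)
    (hR : 12 * ((s * w) ^ k * w) ≤ R) (T : Finset V) (F : Finset ((V → Bool) → Bool))
    (hF : F.card ≤ N) (hAC : AC w N k (F : Set ((V → Bool) → Bool)))
    (hS : Sel Ω t R Good (k + m) T) :
    ∃ T' y, T' ⊆ T ∧ Sel Ω t R Good m T' ∧ ∀ f ∈ F, DT ((s * w) ^ k * w) (f ∘ res T' y) := by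
  classical
  induction k generalizing m F with
  | zero =>
    rw [zero_add] at hS
    exact ⟨T, fun _ => false, Subset.rfl, hS, fun f hf => by
      simpa using dt_res (hAC f hf) T _⟩
  | succ k ih =>
    obtain ⟨G, hG, hGAC, hor⟩ := hAC
    have hpos : 1 ≤ (s * w) ^ k * w := Nat.mul_pos (Nat.pow_pos (Nat.mul_pos hs hw)) hw
    have he : (s * w) ^ (k + 1) * w = s * (w * ((s * w) ^ k * w)) := by ring
    have hle : w * ((s * w) ^ k * w) ≤ (s * w) ^ (k + 1) * w := by
      rw [he]; exact Nat.le_mul_of_pos_left _ hs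
    have hle' : (s * w) ^ k * w ≤ w * ((s * w) ^ k * w) := Nat.le_mul_of_pos_left _ hw
    obtain ⟨T₁, y₁, h1, ⟨nx, hind, hnx⟩, h3⟩ := ih (m + 1) (by omega) (by omega) G hG hGAC
      (by rwa [add_assoc, add_comm 1 m] at hS)
    have h4 : ∀ f ∈ F, ∃ L : List (Term V), (∀ C ∈ L, C.1.card ≤ w * ((s * w) ^ k * w)) ∧
        ∀ z, L.any (sat z) = f (res T₁ y₁ z) := by
      intro f hf
      obtain ⟨H, hH, hfH⟩ := hor f hf
      refine exists_dnf (G := (· ∘ res T₁ y₁) '' H) ?_ fun z => ?_
      · rintro _ ⟨g, hg, rfl⟩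
        refine ((hH g hg).precomp (Q' := {g | DT ((s * w) ^ k * w) g}) (res T₁ y₁) ?_).comp
          fun g hg => hg
        rintro q (hq | hq)
        · exact h3 q hq
        · exact (dt_res hq T₁ y₁).mono hpos
      · rw [hfH]
        simp
    choose! L hL1 hL2 using h4
    have hR0 : 0 < R := by omega
    have h5 : ∃ p : Ω × (V → Bool), ∀ f ∈ F, ¬Bad (L f) s (nx p.1) p.2 := by
      by_contra hc
      push Not at hc
      have hsub : (univ : Finset (Ω × (V → Bool))) ⊆
          F.biUnion fun f => {p : Ω × (V → Bool) | Bad (L f) s (nx p.1) p.2} := by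
        intro p _
        obtain ⟨f, hf, hb⟩ := hc p
        exact mem_biUnion.2 ⟨f, hf, mem_filter.2 ⟨mem_univ _, hb⟩⟩
      have h6 := (card_le_card hsub).trans card_biUnion_le
      have h7 : ∀ f ∈ F, (#{p : Ω × (V → Bool) | Bad (L f) s (nx p.1) p.2} : ℝ) ≤
          (1 / 2) ^ s * Fintype.card (Ω × (V → Bool)) := by
        intro f hf
        refine (switch_count hind hR0 (hL1 f hf) (by omega)).trans ?_
        refine mul_le_mul_of_nonneg_right (pow_le_pow_left₀ ?_ (lam_le hR0 (by omega)) _)
          (by positivity)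
        exact sub_nonneg.2 (one_le_pow₀ (le_add_of_nonneg_right (by positivity)))
      have h8 := sum_le_card_nsmul _ _ _ h7
      have h9 : (Fintype.card (Ω × (V → Bool)) : ℝ) ≤
          ∑ f ∈ F, (#{p : Ω × (V → Bool) | Bad (L f) s (nx p.1) p.2} : ℝ) := by
        exact_mod_cast h6
      have h10 : (0 : ℝ) < Fintype.card (Ω × (V → Bool)) := by exact_mod_cast Fintype.card_pos
      have h11 : (F.card : ℝ) < 2 ^ s := by exact_mod_cast hF.trans_lt hN
      have h12 : (F.card : ℝ) * (1 / 2) ^ s < 1 := by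
        rw [one_div, inv_pow, ← div_eq_mul_inv, div_lt_one (by positivity)]
        exact h11
      rw [nsmul_eq_mul, ← mul_assoc] at h8
      nlinarith
    obtain ⟨⟨ω, y⟩, h5⟩ := h5
    refine ⟨nx ω, res T₁ y₁ y, (hnx ω).1.trans h1, (hnx ω).2, fun f hf => ?_⟩
    rw [he]
    refine (dt_of_not_bad (hL1 f hf) s _ _ (h5 f hf)).congr fun z => ?_
    rw [hL2 f hf, res_res (hnx ω).1]
    rfl

theorem exists_const [Nonempty Ω] {w N s t R : ℕ} {Good : Finset V → Prop} (hw : 1 ≤ w)
    (hN : N < 2 ^ s) (hN1 : 1 ≤ N) (k : ℕ) (ht : (s * w) ^ k * w ≤ t)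
    (hR : 12 * ((s * w) ^ k * w) ≤ R) (T : Finset V) (f : (V → Bool) → Bool)
    (hAC : AC w N k {f}) (hS : Sel Ω t R Good (k + 1) T) :
    ∃ T' y c, Good T' ∧ ∀ z, f (res T' y z) = c := by
  classical
  have hs : 1 ≤ s := by
    by_contra h
    have : s = 0 := by omega
    subst this
    omega
  have hpos : 1 ≤ (s * w) ^ k * w := Nat.mul_pos (Nat.pow_pos (Nat.mul_pos hs hw)) hw
  obtain ⟨T₁, y₁, -, ⟨nx, hind, hnx⟩, h3⟩ := reduce hw hN hs k 1 ht hR T {f} (by simpa)
    (by simpa using hAC) hS
  obtain ⟨D, hD, hc⟩ := (h3 f (mem_singleton_self f)).cert fun _ => false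
  have h5 : ∃ ω, ∀ v ∈ D, v ∉ nx ω := by
    by_contra hcon
    push Not at hcon
    have hsub : (univ : Finset Ω) ⊆ D.biUnion fun v => {ω | {v} ⊆ nx ω} := by
      intro ω _
      obtain ⟨v, hv, hb⟩ := hcon ω
      exact mem_biUnion.2 ⟨v, hv, mem_filter.2 ⟨mem_univ _, singleton_subset_iff.2 hb⟩⟩
    have h6 := Nat.mul_le_mul_right R ((card_le_card hsub).trans card_biUnion_le)
    rw [sum_mul] at h6
    have h7 := sum_le_card_nsmul D _ (Fintype.card Ω) fun v _ => by
      simpa using hind {v} (by simp; omega)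
    have h8 : 0 < Fintype.card Ω := Fintype.card_pos
    rw [card_univ] at h6
    simp only [singleton_subset_iff] at h6
    rw [smul_eq_mul] at h7
    have h9 : Fintype.card Ω * R ≤ Fintype.card Ω * D.card := by
      rw [mul_comm _ D.card]; exact h6.trans h7
    have := Nat.le_of_mul_le_mul_left h9 h8
    omega
  obtain ⟨ω, hω⟩ := h5
  refine ⟨nx ω, res T₁ y₁ fun _ => false, f (res T₁ y₁ fun _ => false), (hnx ω).2, fun z => ?_⟩
  rw [← res_res (hnx ω).1]
  exact hc _ fun v hv => res_of_notMem (hω v hv)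

end Pool.Agent.MP_a2d820_lc.h69

end MrgPart1

-- ======== part 2: formerly Pool.Agent.MP_a2d820_lc.h69.Tower
section MrgPart2

/-!
Clocked towers of oracle machines: they describe the relativized hierarchy for all oracles at once
and are computed by bounded-depth circuits in the bits of the oracle.
-/

set_option autoImplicit false

namespace Pool.Agent.MP_a2d820_lc.h69

open Pool.Agent.PolyT N487b59b3 Function Finset

/-- Languages. -/
abbrev Lang := List Bool → Bool

/-- One step of an oracle machine. -/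
def OM.step (M : OM) (O : Lang) (c : List Bool) : List Bool := M.nxt (c, O (M.qry c))

theorem OM.run_eq (M : OM) (O : Lang) (x : List Bool) (t : ℕ) :
    M.run O x t = (M.step O)^[t] (true :: true :: x) := by
  induction t with
  | zero => rfl
  | succ t ih => rw [iterate_succ_apply', ← ih]; rfl

theorem OM.Halts.unique {M : OM} {O : Lang} {x : List Bool} {s s' t t' : ℕ} {b b' : Bool}
    (h : M.Halts O x s t b) (h' : M.Halts O x s' t' b') : b = b' := by
  rcases lt_trichotomy t t' with h1 | rfl | h1
  · have := (h'.2 t h1).1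
    simp [h.1] at this
  · simpa using h.1.symm.trans h'.1
  · have := (h.2 t' h1).1
    simp [h'.1] at this

theorem OM.exists_qb (M : OM) :
    ∃ q : Polynomial ℕ, ∀ c s, c.length ≤ s → (M.qry c).length ≤ q.eval s := by
  obtain ⟨p, hp⟩ := ((poly_iff _).2 M.qry_poly).bd
  refine ⟨p.comp (3 * Polynomial.X), fun c s hc => ?_⟩
  have h1 := hp c
  simp only [PolyT.Poly.enc_bools_length] at h1
  have h2 := eval_mono p (show 3 * c.length ≤ 3 * s by omega)
  simp only [Polynomial.eval_comp, Polynomial.eval_mul, Polynomial.eval_ofNat, Polynomial.eval_X]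
  omega

theorem OM.Halts.congr {M : OM} {O O' : Lang} {x : List Bool} {s t : ℕ} {b : Bool}
    (h : M.Halts O x s t b) (hO : ∀ c, c.length ≤ s → O (M.qry c) = O' (M.qry c)) :
    M.Halts O' x s t b := by
  have key : ∀ r ≤ t, M.run O' x r = M.run O x r := by
    intro r hr
    induction r with
    | zero => rfl
    | succ r ih => rw [OM.run, OM.run, ih (by omega), hO _ (h.2 r hr).2]
  exact ⟨(key t le_rfl).trans h.1, fun r hr => by rw [key r hr.le]; exact h.2 r hr⟩

/-- The answer of the machine when it is stopped after `t` steps or on leaving the space `s`. -/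
def clkF (M : OM) (s : ℕ) (O : Lang) : ℕ → List Bool → Bool
  | 0, c => decide (c = [true])
  | t + 1, c => if 2 ≤ c.length ∧ c.length ≤ s then clkF M s O t (M.step O c)
      else decide (c = [true])

theorem clkF_eq {M : OM} {s : ℕ} {O : Lang} {b : Bool} (f t : ℕ) (c : List Bool) (ht : t ≤ f)
    (h1 : (M.step O)^[t] c = [b])
    (h2 : ∀ r < t, 2 ≤ ((M.step O)^[r] c).length ∧ ((M.step O)^[r] c).length ≤ s) :
    clkF M s O f c = b := by
  induction f generalizing t c with
  | zero =>
    obtain rfl : t = 0 := by omega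
    obtain rfl : c = [b] := h1
    cases b <;> rfl
  | succ f ih =>
    cases t with
    | zero =>
      obtain rfl : c = [b] := h1
      cases b <;> simp [clkF]
    | succ t =>
      rw [clkF, if_pos (show 2 ≤ c.length ∧ c.length ≤ s from h2 0 (by omega))]
      exact ih t _ (by omega) h1 fun r hr => h2 (r + 1) (by omega)

theorem clkF_congr {M : OM} {s : ℕ} {O O' : Lang}
    (hO : ∀ c, c.length ≤ s → O (M.qry c) = O' (M.qry c)) (f : ℕ) (c : List Bool) :
    clkF M s O f c = clkF M s O' f c := by
  induction f generalizing c with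
  | zero => rfl
  | succ f ih =>
    rw [clkF, clkF]
    split_ifs with h
    · rw [ih, OM.step, OM.step, hO c h.2]
    · rfl

theorem clkF_dt {V : Type} {M : OM} {s : ℕ} {O : (V → Bool) → Lang} {Q : Set ((V → Bool) → Bool)}
    (hO : ∀ c, c.length ≤ s → (fun z => O z (M.qry c)) ∈ Q) (f : ℕ) (c : List Bool) :
    DTq Q f fun z => clkF M s (O z) f c := by
  induction f generalizing c with
  | zero => exact .const _ _
  | succ f ih =>
    by_cases h : 2 ≤ c.length ∧ c.length ≤ s
    · refine (DTq.node (hO c h.2) (ih (M.nxt (c, false))) (ih (M.nxt (c, true)))).congr fun z => ?_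
      rw [clkF, if_pos h, OM.step]
      cases O z (M.qry c) <;> rfl
    · exact (DTq.const _ _).congr fun z => by rw [clkF, if_neg h]

/-- The language of a clocked machine. -/
def clk (M : OM) (p : Polynomial ℕ) (O : Lang) : Lang := fun x =>
  clkF M (p.eval x.length) O (p.eval x.length) (true :: true :: x)

theorem exists_clk {O L : Lang} (h : L ∈ RelP O) : ∃ M p, L = clk M p O := by
  obtain ⟨M, p, h⟩ := h
  refine ⟨M, p, funext fun x => ?_⟩
  obtain ⟨t, ht, h1, h2⟩ := h x
  simp only [OM.run_eq] at h1 h2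
  exact (clkF_eq _ t _ ht h1 h2).symm

open Classical in
/-- The language of a tower of clocked machines. -/
noncomputable def ev (b : OM × Polynomial ℕ) :
    List (OM × Polynomial ℕ × Polynomial ℕ) → Lang → Lang
  | [], A => clk b.1 b.2 A
  | m :: l, A => fun x => decide (∃ w : List Bool, w.length ≤ m.2.2.eval x.length ∧
      clk m.1 m.2.1 (join A (ev b l A)) (delimit x ++ w) = true)

theorem exists_ev {A L : Lang} {k : ℕ} (h : L ∈ RelSigma A k) : ∃ b l, L = ev b l A := by
  induction k generalizing L with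
  | zero =>
    obtain ⟨M, p, rfl⟩ := exists_clk h
    exact ⟨(M, p), [], rfl⟩
  | succ k ih =>
    obtain ⟨B, hB, q, R, hR, hL⟩ := h
    obtain ⟨b, l, rfl⟩ := ih hB
    obtain ⟨M, p, rfl⟩ := exists_clk hR
    refine ⟨b, (M, p, q) :: l, funext fun x => ?_⟩
    rw [Bool.eq_iff_iff, hL]
    simp [ev]

/-- The strings of length at most `m`. -/
def lists : ℕ → Finset (List Bool)
  | 0 => {[]}
  | m + 1 => insert [] ((lists m).image (true :: ·) ∪ (lists m).image (false :: ·))

theorem mem_lists {m : ℕ} {x : List Bool} : x ∈ lists m ↔ x.length ≤ m := by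
  induction m generalizing x with
  | zero => simp [lists]
  | succ m ih => rcases x with _ | ⟨_ | _, x⟩ <;> simp [lists, ih]

theorem card_lists (m : ℕ) : (lists m).card < 2 ^ (m + 1) := by
  induction m with
  | zero => simp [lists]
  | succ m ih =>
    have h1 := card_insert_le [] ((lists m).image (true :: ·) ∪ (lists m).image (false :: ·))
    have h2 := card_union_le ((lists m).image (true :: ·)) ((lists m).image (false :: ·))
    have h3 := card_image_le (s := lists m) (f := (true :: ·))
    have h4 := card_image_le (s := lists m) (f := (false :: ·))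
    rw [lists, pow_succ]
    omega

theorem AC.mono {V : Type} {w N k : ℕ} {F G : Set ((V → Bool) → Bool)} (h : AC w N k F)
    (hG : G ⊆ F) : AC w N k G := by
  cases k with
  | zero => exact fun f hf => h f (hG hf)
  | succ k =>
    obtain ⟨H, h1, h2, h3⟩ := h
    exact ⟨H, h1, h2, fun f hf => h3 f (hG hf)⟩

theorem ev_bound (b : OM × Polynomial ℕ) (l : List (OM × Polynomial ℕ × Polynomial ℕ)) :
    ∃ B : Polynomial ℕ,
      (∀ (A A' : Lang) (x : List Bool) (m : ℕ), x.length ≤ m →
        (∀ v, v.length ≤ B.eval m → A v = A' v) → ev b l A x = ev b l A' x) ∧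
      ∀ (V : Type) (σ : (V → Bool) → Lang) (m w N : ℕ), (∀ v, DT 1 fun z => σ z v) →
        B.eval m ≤ w → 2 ^ B.eval m ≤ N →
        AC w N l.length {f | ∃ x : List Bool, x.length ≤ m ∧ f = fun z => ev b l (σ z) x} := by
  classical
  induction l with
  | nil =>
    obtain ⟨q, hq⟩ := b.1.exists_qb
    refine ⟨q.comp b.2 + b.2, fun A A' x m hx h => clkF_congr (fun c hc => h _ ?_) _ _, ?_⟩
    · have := hq c _ (hc.trans (eval_mono _ hx))
      simp only [Polynomial.eval_add, Polynomial.eval_comp]
      omega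
    · rintro V σ m w N hσ hw - _ ⟨x, hx, rfl⟩
      have h1 := (clkF_dt (M := b.1) (s := b.2.eval x.length) (O := σ) (Q := {g | DT 1 g})
        (fun c _ => hσ _) (b.2.eval x.length) (true :: true :: x)).comp fun g hg => hg
      have h2 := eval_mono b.2 hx
      simp only [Polynomial.eval_add] at hw
      exact h1.mono (by omega)
  | cons a l ih =>
    obtain ⟨M, p, q⟩ := a
    obtain ⟨B, h1, h2⟩ := ih
    obtain ⟨r, hr⟩ := M.exists_qb
    set m₁ : Polynomial ℕ := p.comp (2 * Polynomial.X + 1 + q)
    set m₂ := r.comp m₁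
    have hlen : ∀ (x w : List Bool) (m : ℕ), x.length ≤ m → w.length ≤ q.eval x.length →
        p.eval (delimit x ++ w).length ≤ m₁.eval m := by
      intro x w m hx hw
      have := eval_mono q hx
      simp only [m₁, Polynomial.eval_comp]
      refine eval_mono p ?_
      simp
      omega
    have hq : ∀ (c : List Bool) (m : ℕ), c.length ≤ m₁.eval m → (M.qry c).length ≤ m₂.eval m :=
      fun c m hc => by simpa [m₂] using hr c _ hc
    have he : ∀ m, (B.comp m₂ + m₁ + m₂ + 1).eval m =
        B.eval (m₂.eval m) + m₁.eval m + m₂.eval m + 1 := fun m => by simp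
    refine ⟨B.comp m₂ + m₁ + m₂ + 1, fun A A' x m hx h => ?_, ?_⟩
    · rw [he] at h
      simp only [ev, decide_eq_decide]
      refine exists_congr fun w => and_congr_right fun hw => ?_
      rw [clk, clk, clkF_congr fun c hc => ?_]
      have := hq c m (hc.trans (hlen x w m hx hw))
      rcases hc' : M.qry c with _ | ⟨_ | _, v⟩
      · rfl
      · rw [hc', List.length_cons] at this
        exact h v (by omega)
      · rw [hc', List.length_cons] at this
        exact h1 A A' v (m₂.eval m) (by omega) fun u hu => h u (by omega)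
    · intro V σ m w N hσ hw hN
      rw [he] at hw hN
      refine ⟨(lists (m₂.eval m)).image fun x z => ev b l (σ z) x, ?_, ?_, ?_⟩
      · exact card_image_le.trans ((card_lists _).le.trans
          ((Nat.pow_le_pow_right (by norm_num) (by omega)).trans hN))
      · refine (h2 V σ (m₂.eval m) w N hσ (by omega)
          ((Nat.pow_le_pow_right (by norm_num) (by omega)).trans hN)).mono fun f hf => ?_
        obtain ⟨x, hx, rfl⟩ := mem_image.1 hf
        exact ⟨x, mem_lists.1 hx, rfl⟩
      · rintro _ ⟨x, hx, rfl⟩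
        refine ⟨{g | ∃ y : List Bool, y.length ≤ q.eval x.length ∧
          g = fun z => clk M p (join (σ z) (ev b l (σ z))) (delimit x ++ y)}, ?_, fun z => ?_⟩
        · rintro _ ⟨y, hy, rfl⟩
          have h3 := hlen x y m hx hy
          refine (clkF_dt (fun c hc => ?_) _ _).mono (by omega)
          have := hq c m (hc.trans h3)
          rcases hc' : M.qry c with _ | ⟨_ | _, v⟩
          · exact Or.inr (DTq.const 1 false)
          · exact Or.inr (hσ v)
          · rw [hc', List.length_cons] at this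
            exact Or.inl (mem_coe.2 (mem_image.2 ⟨v, mem_lists.2 (by omega), rfl⟩))
        · simp only [ev, decide_eq_true_eq, Set.mem_ofPred_eq]
          exact ⟨fun ⟨y, h3, h4⟩ => ⟨_, ⟨y, h3, rfl⟩, h4⟩, fun ⟨_, ⟨y, h3, e⟩, h4⟩ =>
            ⟨y, h3, by subst e; exact h4⟩⟩

end Pool.Agent.MP_a2d820_lc.h69

end MrgPart2

-- ======== part 3: formerly Pool.Agent.MP_a2d820_lc.h69.Expand
section MrgPart3

/-!
Expanding address tables, and the nested selections of hidden positions built from them.
-/

set_option autoImplicit false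

namespace Pool.Agent.MP_a2d820_lc.h69

open Finset

theorem card_small_image {K : Type} [Fintype K] [DecidableEq K] {M E c : ℕ} (S : Finset K)
    (hE : S.card ≤ E) (hc : 0 < c) (hM : (E * c) ^ 2 ≤ M) :
    #{Γ : K → Fin M | 2 * (S.image Γ).card < S.card} * c ^ S.card ≤ M ^ Fintype.card K := by
  rcases S.eq_empty_or_nonempty with rfl | hS
  · simp
  have hpos := hS.card_pos
  set e := S.card
  set a := e / 2
  have hEM : E ≤ M := le_trans ((Nat.le_mul_of_pos_right E hc).trans (Nat.le_self_pow (by norm_num) _)) hM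
  have hsub : ({Γ : K → Fin M | 2 * (S.image Γ).card < e} : Finset _) ⊆
      (powersetCard a (univ : Finset (Fin M))).biUnion fun Z =>
        Fintype.piFinset fun κ => if κ ∈ S then Z else univ := by
    intro Γ hΓ
    have h1 := (mem_filter.1 hΓ).2
    obtain ⟨Z, h2, -, h3⟩ := exists_subsuperset_card_eq (subset_univ (S.image Γ))
      (show (S.image Γ).card ≤ a by omega) (by simp; omega)
    refine mem_biUnion.2 ⟨Z, mem_powersetCard.2 ⟨subset_univ _, h3⟩,
      Fintype.mem_piFinset.2 fun κ => ?_⟩
    split_ifs with h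
    · exact h2 (mem_image_of_mem _ h)
    · exact mem_univ _
  have h1 : ∀ Z ∈ powersetCard a (univ : Finset (Fin M)),
      (Fintype.piFinset fun κ => if κ ∈ S then Z else univ).card ≤
        E ^ e * M ^ (Fintype.card K - e) := by
    intro Z hZ
    rw [Fintype.card_piFinset]
    simp only [apply_ite card, card_univ, Fintype.card_fin, (mem_powersetCard.1 hZ).2]
    rw [prod_ite, prod_const, prod_const, filter_mem_eq_inter, univ_inter, filter_not,
      filter_mem_eq_inter, univ_inter, card_univ_sdiff]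
    exact Nat.mul_le_mul_right _ (Nat.pow_le_pow_left (by omega) _)
  have h2 := (card_le_card hsub).trans (card_biUnion_le.trans (sum_le_card_nsmul _ _ _ h1))
  rw [card_powersetCard, card_univ, Fintype.card_fin, smul_eq_mul] at h2
  have h3 := Nat.choose_le_pow M a
  have h4 : (E * c) ^ e ≤ M ^ (e - a) := by
    refine le_trans ?_ (Nat.pow_le_pow_left hM _)
    rw [← pow_mul]
    exact Nat.pow_le_pow_right (Nat.mul_pos (by omega) hc) (by omega)
  have h5 : e ≤ Fintype.card K := card_le_univ _
  calc _ ≤ M ^ a * (E ^ e * M ^ (Fintype.card K - e)) * c ^ e :=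
        Nat.mul_le_mul_right _ (h2.trans (Nat.mul_le_mul_right _ h3))
    _ = M ^ a * (E * c) ^ e * M ^ (Fintype.card K - e) := by rw [mul_pow]; ring
    _ ≤ M ^ a * M ^ (e - a) * M ^ (Fintype.card K - e) := by gcongr
    _ = _ := by rw [← pow_add, ← pow_add]; congr 1; omega

theorem exists_expander_fin {V K : Type} [Fintype V] [DecidableEq V] [Fintype K] [DecidableEq K]
    (keys : V → Finset K) (g : V → ℕ) {M E c : ℕ} (hc : 0 < c) (hM0 : 0 < M)
    (hM : (E * c) ^ 2 ≤ M) (hsum : ∑ v, (1 / c : ℝ) ^ g v ≤ 1 / 2) :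
    ∃ Γ : K → Fin M, ∀ D : Finset V, ∑ v ∈ D, g v ≤ E → (D.biUnion keys).card = ∑ v ∈ D, g v →
      ∑ v ∈ D, g v ≤ 2 * ((D.biUnion keys).image Γ).card := by
  by_contra hcon
  push Not at hcon
  set X : Finset (Finset V) := ((univ : Finset V).powerset.erase ∅).filter fun D =>
    ∑ v ∈ D, g v ≤ E ∧ (D.biUnion keys).card = ∑ v ∈ D, g v
  have hsub : (univ : Finset (K → Fin M)) ⊆ X.biUnion fun D =>
      {Γ : K → Fin M | 2 * ((D.biUnion keys).image Γ).card < (D.biUnion keys).card} := by
    intro Γ _
    obtain ⟨D, h1, h2, h3⟩ := hcon Γ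
    refine mem_biUnion.2 ⟨D, mem_filter.2 ⟨mem_erase.2 ⟨?_, by simp⟩, h1, h2⟩,
      mem_filter.2 ⟨mem_univ _, by omega⟩⟩
    rintro rfl
    simp at h3
  have h1 := (card_le_card hsub).trans card_biUnion_le
  rw [card_univ, Fintype.card_fun, Fintype.card_fin] at h1
  have hc' : (0 : ℝ) < c := by exact_mod_cast hc
  have h2 : ∀ D ∈ X, (#{Γ : K → Fin M | 2 * ((D.biUnion keys).image Γ).card <
      (D.biUnion keys).card} : ℝ) ≤ (∏ v ∈ D, (1 / c : ℝ) ^ g v) * M ^ Fintype.card K := by
    intro D hD
    obtain ⟨-, h3, h4⟩ := mem_filter.1 hD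
    have h5 := card_small_image (D.biUnion keys) (h4.trans_le h3) hc hM
    rw [prod_pow_eq_pow_sum, ← h4, one_div, inv_pow, inv_mul_eq_div, le_div_iff₀ (by positivity)]
    exact_mod_cast h5
  have h3 : ∑ D ∈ X, ∏ v ∈ D, (1 / c : ℝ) ^ g v < 1 := by
    refine (sum_le_sum_of_subset_of_nonneg (filter_subset _ _) fun _ _ _ => by positivity).trans_lt ?_
    rw [sum_erase_eq_sub (empty_mem_powerset _), ← prod_one_add, prod_empty]
    have h4 : ∏ v, (1 + (1 / c : ℝ) ^ g v) ≤ Real.exp (∑ v, (1 / c : ℝ) ^ g v) := by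
      rw [Real.exp_sum]
      exact prod_le_prod (fun _ _ => by positivity) fun v _ => by
        rw [add_comm]; exact Real.add_one_le_exp _
    have h5 : Real.exp (1 / 2) < 2 := by
      have := Real.exp_one_lt_three
      have h6 : Real.exp (1 / 2) * Real.exp (1 / 2) = Real.exp 1 := by
        rw [← Real.exp_add]; norm_num
      nlinarith [Real.exp_pos (1 / 2)]
    have := Real.exp_le_exp.2 hsum
    linarith
  have h4 := sum_le_sum h2
  rw [← sum_mul] at h4
  have h5 : ((M : ℝ) ^ Fintype.card K) ≤ ∑ D ∈ X, (#{Γ : K → Fin M |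
      2 * ((D.biUnion keys).image Γ).card < (D.biUnion keys).card} : ℝ) := by exact_mod_cast h1
  have h6 : (0 : ℝ) < (M : ℝ) ^ Fintype.card K := by positivity
  nlinarith

theorem exists_expander {V K : Type} [Fintype V] [DecidableEq V] [DecidableEq K]
    (keys : V → Finset K) (g : V → ℕ) {M E c : ℕ} (hc : 0 < c) (hM0 : 0 < M)
    (hM : (E * c) ^ 2 ≤ M) (hsum : ∑ v, (1 / c : ℝ) ^ g v ≤ 1 / 2) :
    ∃ Γ : K → Fin M, ∀ D : Finset V, ∑ v ∈ D, g v ≤ E → (D.biUnion keys).card = ∑ v ∈ D, g v →
      ∑ v ∈ D, g v ≤ 2 * ((D.biUnion keys).image Γ).card := by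
  set U : Finset K := univ.biUnion keys
  obtain ⟨Γ, hΓ⟩ := exists_expander_fin (K := U) (fun v => (keys v).subtype (· ∈ U)) g hc hM0 hM hsum
  refine ⟨fun κ => if h : κ ∈ U then Γ ⟨κ, h⟩ else ⟨0, hM0⟩, fun D h1 h2 => ?_⟩
  have hU : ∀ v, ∀ κ ∈ keys v, κ ∈ U := fun v κ h => mem_biUnion.2 ⟨v, mem_univ _, h⟩
  have h3 : D.biUnion keys =
      (D.biUnion fun v => (keys v).subtype (· ∈ U)).image Subtype.val := by
    ext κ
    simp only [mem_biUnion, mem_image, mem_subtype, Subtype.exists, exists_and_right,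
      exists_eq_right]
    exact ⟨fun ⟨v, h4, h5⟩ => ⟨hU v κ h5, v, h4, h5⟩, fun ⟨_, h⟩ => h⟩
  rw [h3, card_image_of_injective _ Subtype.val_injective] at h2
  rw [h3, image_image]
  convert hΓ D h1 h2 using 4
  funext κ
  simp

/-- The first `a` bits of `j` follow the rule `H`. -/
def Follows (H : List Bool × List Bool → Bool) (u j : List Bool) (a : ℕ) : Prop :=
  ∀ π < a, j.getD π false = H (u, j.drop (π + 1))

theorem Follows.mono {H : List Bool × List Bool → Bool} {u j : List Bool} {a b : ℕ}
    (h : Follows H u j a) (hb : b ≤ a) : Follows H u j b := fun π hπ => h π (by omega)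

theorem Follows.inj {H : List Bool × List Bool → Bool} {u j j' : List Bool} {a : ℕ}
    (h : Follows H u j a) (h' : Follows H u j' a) (ha : a ≤ j.length) (ha' : a ≤ j'.length)
    (e : j.drop a = j'.drop a) : j = j' := by
  induction a with
  | zero => simpa using e
  | succ a ih =>
    refine ih (fun π hπ => h π (by omega)) (fun π hπ => h' π (by omega)) (by omega) (by omega) ?_
    have h1 := h a (by omega)
    have h2 := h' a (by omega)
    rw [List.getD_eq_getElem _ _ (by omega)] at h1 h2
    rw [List.drop_eq_getElem_cons (by omega), List.drop_eq_getElem_cons (l := j') (by omega),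
      h1, h2, e]

/-- The string built bit by bit by the rule `H`. -/
def pos (H : List Bool × List Bool → Bool) (u : List Bool) : ℕ → List Bool
  | 0 => []
  | m + 1 => H (u, pos H u m) :: pos H u m

@[simp] theorem length_pos (H : List Bool × List Bool → Bool) (u : List Bool) (m : ℕ) :
    (pos H u m).length = m := by
  induction m with
  | zero => rfl
  | succ m ih => simp [pos, ih]

theorem follows_pos (H : List Bool × List Bool → Bool) (u : List Bool) (m : ℕ) :
    Follows H u (pos H u m) m := by
  induction m with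
  | zero => intro π h; omega
  | succ m ih =>
    intro π h
    cases π with
    | zero => simp [pos]
    | succ π => simpa [pos] using ih π (by omega)

theorem pos_congr {H H' : List Bool × List Bool → Bool} {u : List Bool} {m : ℕ}
    (h : ∀ j, j.length < m → H (u, j) = H' (u, j)) : pos H u m = pos H' u m := by
  induction m with
  | zero => rfl
  | succ m ih =>
    have := ih fun j hj => h j (by omega)
    rw [pos, pos, ← this, h _ (by simp)]

/-- The table entries of the levels in `[n, T)`. -/
def Var (n T : ℕ) : Type :=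
  {p : List Bool × List Bool // n ≤ p.1.length ∧ p.1.length < T ∧ p.2.length = p.1.length}

instance (n T : ℕ) : DecidableEq (Var n T) := inferInstanceAs (DecidableEq (Subtype _))

theorem card_var_le (n T : ℕ) (x : ℕ → ℝ) (hx : ∀ l, 0 ≤ x l) (D : Finset (Var n T)) :
    ∑ v ∈ D, x v.1.1.length ≤ ∑ l ∈ Ico n T, 4 ^ l * x l := by
  rw [← sum_fiberwise_of_maps_to (g := fun v : Var n T => v.1.1.length) (t := Ico n T)
    fun v _ => mem_Ico.2 ⟨v.2.1, v.2.2.1⟩]
  refine sum_le_sum fun l _ => ?_
  rw [sum_congr rfl fun v hv => by rw [(mem_filter.1 hv).2], sum_const, nsmul_eq_mul]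
  refine mul_le_mul_of_nonneg_right ?_ (hx l)
  have : (D.filter fun v => v.1.1.length = l).card ≤
      (univ : Finset ((Fin l → Bool) × (Fin l → Bool))).card := by
    refine card_le_card_of_injOn
      (fun v => (fun i => v.1.1.getD i false, fun i => v.1.2.getD i false)) (by simp) ?_
    intro v hv w hw h
    have h1 := (mem_filter.1 (mem_coe.1 hv)).2
    have h2 := (mem_filter.1 (mem_coe.1 hw)).2
    have h3 := v.2.2.2
    have h4 := w.2.2.2
    simp only [Prod.mk.injEq] at h
    refine Subtype.ext (Prod.ext ?_ ?_)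
    · refine List.ext_getElem (by omega) fun i hi hi' => ?_
      have := congrFun h.1 ⟨i, by omega⟩
      rwa [List.getD_eq_getElem _ _ hi, List.getD_eq_getElem _ _ hi'] at this
    · refine List.ext_getElem (by omega) fun i hi hi' => ?_
      have := congrFun h.2 ⟨i, by omega⟩
      rwa [List.getD_eq_getElem _ _ hi, List.getD_eq_getElem _ _ hi'] at this
  simp only [card_univ, Fintype.card_prod, Fintype.card_fun, Fintype.card_bool,
    Fintype.card_fin] at this
  rw [show (4 : ℝ) = 2 * 2 by norm_num, mul_pow]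
  exact_mod_cast this

noncomputable instance (n T : ℕ) : Fintype (Var n T) :=
  Set.Finite.fintype (((List.finite_length_lt Bool T).prod (List.finite_length_lt Bool T)).subset
    (t := {p : List Bool × List Bool |
      n ≤ p.1.length ∧ p.1.length < T ∧ p.2.length = p.1.length})
    fun p hp => ⟨hp.2.1, by have := hp.2.1; have := hp.2.2; simp only [Set.mem_ofPred_eq]; omega⟩)

/-- The round in which the bit with key `κ` is chosen. -/
def grp (k : ℕ) (κ : List Bool × List Bool) : ℕ :=
  min k ((κ.1.length - 1 - κ.2.length) / (κ.1.length / (k + 1)))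

theorem exists_sel {n T k t : ℕ} (hn : 2 * (k + 1) ≤ n) (hT : 2 * T ≤ 2 ^ n) {M : ℕ} (hM0 : 0 < M)
    (hM : (t * T * 2 ^ (6 * (k + 1))) ^ 2 ≤ M) :
    ∃ Γ : List Bool × List Bool → Fin M,
      Sel (Fin M → Bool) t (2 ^ (n / (k + 1) / 2))
        (fun X : Finset (Var n T) => ∃ ω : ℕ → Fin M → Bool, ∀ v : Var n T,
          v.1.2 = pos (fun κ => ω (grp k κ) (Γ κ)) v.1.1 v.1.1.length → v ∈ X) (k + 1) univ := by
  classical
  let g : Var n T → ℕ := fun v => v.1.1.length / (k + 1)
  let keys : ℕ → Var n T → Finset (List Bool × List Bool) := fun i v =>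
    (Ico (i * g v) ((i + 1) * g v)).image fun π => (v.1.1, v.1.2.drop (π + 1))
  have hsum : ∑ v, (1 / (2 ^ (6 * (k + 1)) : ℕ) : ℝ) ^ g v ≤ 1 / 2 := by
    refine (card_var_le n T (fun l => (1 / (2 ^ (6 * (k + 1)) : ℕ) : ℝ) ^ (l / (k + 1)))
      (fun _ => by positivity) univ).trans ?_
    refine (sum_le_card_nsmul _ _ (1 / 2 ^ n) fun l hl => ?_).trans ?_
    · have h1 := (mem_Ico.1 hl).1
      have h2 := Nat.lt_div_mul_add (a := l) (show 0 < k + 1 by omega)
      have h3 : 2 * l + n ≤ 6 * (k + 1) * (l / (k + 1)) := by nlinarith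
      push_cast
      rw [div_pow, one_pow, ← pow_mul, mul_one_div, div_le_div_iff₀ (by positivity) (by positivity),
        one_mul, show (4 : ℝ) = 2 ^ 2 by norm_num, ← pow_mul, ← pow_add]
      exact pow_le_pow_right₀ (by norm_num) h3
    · rw [Nat.card_Ico, nsmul_eq_mul, mul_one_div, div_le_iff₀ (by positivity)]
      have : ((T - n : ℕ) : ℝ) * 2 ≤ 2 ^ n := by exact_mod_cast (by omega : (T - n) * 2 ≤ 2 ^ n)
      linarith
  choose Γ hΓ using fun i => exists_expander (keys i) g (E := t * T) (by positivity) hM0 hM hsum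
  refine ⟨fun κ => Γ (grp k κ) κ, ?_⟩
  have hgl : ∀ v, (k + 1) * g v ≤ v.1.1.length := fun v => Nat.mul_div_le _ _
  have hg0 : ∀ v, 0 < g v := fun v => Nat.div_pos (by have := v.2.1; omega) (by omega)
  have hgrp : ∀ v π, π < (k + 1) * g v → grp k (v.1.1, v.1.2.drop (π + 1)) = π / g v := by
    intro v π hπ
    have h1 := hgl v
    have h2 := v.2.2.2
    have h3 : π / g v < k + 1 := by rwa [Nat.div_lt_iff_lt_mul (hg0 v)]
    simp only [grp, List.length_drop]
    rw [show v.1.1.length - 1 - (v.1.2.length - (π + 1)) = π by omega]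
    exact min_eq_right (Nat.lt_succ_iff.1 h3)
  let X : ℕ → (ℕ → Fin M → Bool) → Finset (Var n T) := fun i ω =>
    univ.filter fun v => Follows (fun κ => ω (grp k κ) (Γ (grp k κ) κ)) v.1.1 v.1.2 (i * g v)
  have key : ∀ m i ω, i + m = k + 1 → Sel (Fin M → Bool) t (2 ^ (n / (k + 1) / 2))
      (fun X : Finset (Var n T) => ∃ ω : ℕ → Fin M → Bool, ∀ v : Var n T,
        v.1.2 = pos (fun κ => ω (grp k κ) (Γ (grp k κ) κ)) v.1.1 v.1.1.length → v ∈ X)
      m (X i ω) := by
    intro m
    induction m with
    | zero =>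
      intro i ω hi
      refine ⟨ω, fun v hv => mem_filter.2 ⟨mem_univ _, fun π hπ => ?_⟩⟩
      have h1 := hgl v
      rw [add_zero] at hi
      subst hi
      rw [hv]
      exact follows_pos _ _ _ π (by omega)
    | succ m ih =>
      intro i ω hi
      have hlt : ∀ v, (i + 1) * g v ≤ (k + 1) * g v := fun v => Nat.mul_le_mul_right _ (by omega)
      have hX : ∀ ω₁ v, v ∈ X (i + 1) (Function.update ω i ω₁) → v ∈ X i ω ∧
          ∀ π ∈ Ico (i * g v) ((i + 1) * g v),
            v.1.2.getD π false = ω₁ (Γ i (v.1.1, v.1.2.drop (π + 1))) := by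
        intro ω₁ v hv
        have hv' := (mem_filter.1 hv).2
        have h0 := hlt v
        have h1 : i * g v ≤ (i + 1) * g v := Nat.mul_le_mul_right _ (by omega)
        refine ⟨mem_filter.2 ⟨mem_univ _, fun π hπ => ?_⟩, fun π hπ => ?_⟩
        · have h2 := hv' π (by omega)
          simp only [hgrp v π (by omega)] at h2 ⊢
          rwa [Function.update_of_ne ((Nat.div_lt_iff_lt_mul (hg0 v)).2 hπ).ne] at h2
        · have h3 := mem_Ico.1 hπ
          have h2 := hv' π h3.2
          have h4 : π / g v = i := Nat.div_eq_of_lt_le h3.1 h3.2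
          simp only [hgrp v π (by omega), h4] at h2
          rwa [Function.update_self] at h2
      refine ⟨fun ω₁ => X (i + 1) (Function.update ω i ω₁), fun D hD => ?_,
        fun ω₁ => ⟨fun v hv => (hX ω₁ v hv).1, ih _ _ (by omega)⟩⟩
      rcases ({ω₁ | D ⊆ X (i + 1) (Function.update ω i ω₁)} : Finset _).eq_empty_or_nonempty
        with h | ⟨ω₀, h₀⟩
      · rw [h]; simp
      have h₀' := (mem_filter.1 h₀).2
      have hcard : (D.biUnion (keys i)).card = ∑ v ∈ D, g v := by
        rw [card_biUnion]
        · refine sum_congr rfl fun v _ => ?_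
          rw [card_image_of_injOn, Nat.card_Ico, Nat.succ_mul, Nat.add_sub_cancel_left]
          intro π hπ π' hπ' e
          have h1 := congrArg (fun κ => κ.2.length) e
          have h2 := (mem_Ico.1 (mem_coe.1 hπ)).2
          have h3 := (mem_Ico.1 (mem_coe.1 hπ')).2
          have := hlt v
          have := hgl v
          have := v.2.2.2
          simp only [List.length_drop] at h1
          omega
        · intro v hv w hw hne
          refine disjoint_left.2 fun κ h1 h2 => hne ?_
          obtain ⟨π, hπ, rfl⟩ := mem_image.1 h1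
          obtain ⟨π', hπ', e⟩ := mem_image.1 h2
          simp only [Prod.mk.injEq] at e
          have h3 := congrArg List.length e.2
          have h4 := congrArg List.length e.1
          have h5 := (mem_Ico.1 hπ).2
          have h6 := (mem_Ico.1 hπ').2
          have := hlt v
          have := hgl v
          have := v.2.2.2
          have := hlt w
          have := hgl w
          have := w.2.2.2
          simp only [List.length_drop] at h3
          obtain rfl : π' = π := by omega
          have h7 := (mem_filter.1 (h₀' hv)).2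
          have h8 := (mem_filter.1 (h₀' hw)).2
          rw [e.1] at h8
          exact Subtype.ext (Prod.ext e.1.symm ((h7.mono (b := π' + 1) (by omega)).inj
            (h8.mono (by omega)) (by omega) (by omega) e.2.symm))
      have hE : ∑ v ∈ D, g v ≤ t * T :=
        (sum_le_card_nsmul _ _ T fun v _ => (Nat.div_le_self _ _).trans v.2.2.1.le).trans
          (Nat.mul_le_mul_right _ hD)
      have h1 := hΓ i D hE hcard
      set Z := (D.biUnion (keys i)).image (Γ i)
      have h2 : D.card * (n / (k + 1)) ≤ ∑ v ∈ D, g v :=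
        card_nsmul_le_sum _ _ _ fun v _ => Nat.div_le_div_right v.2.1
      have h3 : n / (k + 1) / 2 * D.card ≤ Z.card := by
        have := Nat.mul_le_mul_left D.card (Nat.div_mul_le_self (n / (k + 1)) 2)
        nlinarith
      have h4 : #{ω₁ | D ⊆ X (i + 1) (Function.update ω i ω₁)} ≤ 2 ^ (Zᶜ).card := by
        refine le_trans (card_le_card fun ω₁ h => ?_) (card_agree Zᶜ ω₀)
        simp only [mem_filter, mem_univ, true_and]
        intro c hc
        obtain ⟨κ, hκ, rfl⟩ := mem_image.1 (notMem_compl.1 hc)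
        obtain ⟨v, hv, hκ⟩ := mem_biUnion.1 hκ
        obtain ⟨π, hπ, rfl⟩ := mem_image.1 hκ
        rw [← (hX _ v (h₀' hv)).2 π hπ, ← (hX _ v ((mem_filter.1 h).2 hv)).2 π hπ]
      rw [← pow_mul, Fintype.card_fun, Fintype.card_bool, ← card_add_card_compl Z, pow_add, mul_comm]
      exact Nat.mul_le_mul (Nat.pow_le_pow_right (by norm_num) h3) h4
  have := key (k + 1) 0 (fun _ _ => false) (by omega)
  rwa [show X 0 (fun _ _ => false) = univ from
    filter_true_of_mem fun v _ π hπ => by simp at hπ] at this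

end Pool.Agent.MP_a2d820_lc.h69

end MrgPart3

-- ======== part 4: formerly Pool.Agent.MP_a2d820_lc.h69.Proj
section MrgPart4

/-!
A switching lemma for projections: the variables are grouped into blocks, and the free variables
of a live block are all mapped to one new variable.
-/

set_option autoImplicit false

namespace Pool.Agent.MP_a2d820_lc.h69

open Finset

variable {V : Type} [DecidableEq V] (E : V → Bool) (blk : V → V)

/-- The variable is free. -/
def fre (L : Finset V) (y : V → Bool) (v : V) : Prop := blk v ∈ L ∧ (E v = true ∨ y v = false)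

instance (L : Finset V) (y : V → Bool) : DecidablePred (fre E blk L y) := fun v =>
  inferInstanceAs (Decidable (blk v ∈ L ∧ (E v = true ∨ y v = false)))

/-- The projection given by the live blocks `L` and the background `y`. -/
def proj (L : Finset V) (y z : V → Bool) (v : V) : Bool :=
  if fre E blk L y v then xor (!E v) (z (blk v)) else y v

variable {E blk}

theorem proj_of_notMem {L : Finset V} {y z : V → Bool} {v : V} (h : blk v ∉ L) :
    proj E blk L y z v = y v := if_neg fun h' => h h'.1

theorem proj_congr {L : Finset V} {y y' z z' : V → Bool} {v : V} (h : y v = y' v)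
    (h' : blk v ∈ L → z (blk v) = z' (blk v)) : proj E blk L y z v = proj E blk L y' z' v := by
  by_cases hv : blk v ∈ L
  · exact if_congr (by simp only [fre, h]) (by rw [h' hv]) h
  · rw [proj_of_notMem hv, proj_of_notMem hv, h]

theorem proj_split {L β : Finset V} (h : β ⊆ L) (y π z : V → Bool) :
    proj E blk L y (β.piecewise π z) = proj E blk (L \ β) (proj E blk β y π) z := by
  funext v
  by_cases h1 : blk v ∈ β
  · rw [proj_of_notMem (L := L \ β) (by simp [h1])]
    simp only [proj, fre, h1, h h1, piecewise_eq_of_mem _ _ _ h1]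
  · rw [proj_congr (L := L \ β) (y' := y) (z' := z) (proj_of_notMem h1) fun _ => rfl]
    simp only [proj, fre, mem_sdiff, h1, not_false_eq_true, and_true,
      piecewise_eq_of_notMem _ _ _ h1]

theorem dt_proj (L : Finset V) (y : V → Bool) (v : V) : DT 1 fun z => proj E blk L y z v := by
  by_cases h : fre E blk L y v
  · refine (DTq.node (Set.mem_range_self (blk v)) (.const 0 (!E v)) (.const 0 (E v))).congr
      fun z => ?_
    rw [proj, if_pos h]
    cases z (blk v) <;> simp
  · exact (DTq.const 1 (y v)).congr fun z => (if_neg h).symm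

variable (E blk)

/-- The term is not falsified by the projection. -/
def plive (L : Finset V) (y : V → Bool) (C : Term V) : Bool :=
  decide (∀ v ∈ C.1, ¬fre E blk L y v → y v = C.2 v)

/-- The live blocks that meet the term. -/
def pblk (L : Finset V) (y : V → Bool) (C : Term V) : Finset V :=
  (C.1.filter (fre E blk L y)).image blk

/-- The canonical decision tree has a branch through `s` terms. -/
def PBad (F : List (Term V)) : ℕ → Finset V → (V → Bool) → Prop
  | 0, _, _ => True
  | s + 1, L, y => ∃ C, F.find? (plive E blk L y) = some C ∧ (pblk E blk L y C).Nonempty ∧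
      ∃ π, PBad F s (L \ pblk E blk L y C) (proj E blk (pblk E blk L y C) y π)

/-- Flip the values on `γ`. -/
def flp (γ : Finset V) (y : V → Bool) (v : V) : Bool := if v ∈ γ then !y v else y v

/-- The blocks and the flipped variables that can be decoded from a full assignment. -/
def PDec (F : List (Term V)) : ℕ → (V → Bool) → Finset (Finset V × Finset V)
  | 0, _ => {(∅, ∅)}
  | s + 1, y => match F.find? (sat y) with
    | none => ∅
    | some C => ((C.1.image blk).powerset.erase ∅).biUnion fun β =>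
        (C.1.filter (blk · ∈ β)).powerset.biUnion fun γ => β.powerset.biUnion fun P =>
          ((PDec F s (proj E blk β (flp γ y) fun v => decide (v ∈ P))).filter
            fun p => Disjoint β p.1 ∧ Disjoint γ p.2).image fun p => (β ∪ p.1, γ ∪ p.2)

variable {E blk}

theorem pblk_subset (L : Finset V) (y : V → Bool) (C : Term V) : pblk E blk L y C ⊆ L := by
  intro u hu
  obtain ⟨v, hv, rfl⟩ := mem_image.1 hu
  exact (mem_filter.1 hv).2.1

theorem dt_of_not_pbad {F : List (Term V)} {w : ℕ} (hF : ∀ C ∈ F, C.1.card ≤ w) (s : ℕ)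
    (L : Finset V) (y : V → Bool) (h : ¬PBad E blk F s L y) :
    DT (s * w) (fun z => F.any (sat (proj E blk L y z))) := by
  induction s generalizing L y with
  | zero => exact absurd trivial h
  | succ s ih =>
    rcases hC : F.find? (plive E blk L y) with _ | C
    · refine (DTq.const _ false).congr fun z => ?_
      symm
      rw [List.any_eq_false]
      intro C hC' hs
      have := List.find?_eq_none.1 hC C hC'
      simp only [sat, decide_eq_true_eq] at hs
      simp only [plive, decide_eq_true_eq] at this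
      exact this fun v hv hT => by rw [← hs v hv, proj, if_neg hT]
    have hl := List.find?_some hC
    have hm := List.mem_of_find?_eq_some hC
    simp only [plive, decide_eq_true_eq] at hl
    by_cases hne : (pblk E blk L y C).Nonempty
    · refine (dt_query (pblk E blk L y C) fun π =>
        (ih _ _ fun hb => h ⟨C, hC, hne, π, hb⟩).congr fun z => ?_).mono ?_
      · rw [proj_split (pblk_subset L y C)]
      · have := (card_image_le.trans (card_filter_le _ _)).trans (hF C hm) (a := (pblk E blk L y C).card)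
        rw [Nat.succ_mul]
        omega
    · refine (DTq.const _ true).congr fun z => ?_
      symm
      rw [List.any_eq_true]
      refine ⟨C, hm, ?_⟩
      simp only [sat, decide_eq_true_eq]
      intro v hv
      have hT : ¬fre E blk L y v := fun hT =>
        hne ⟨blk v, mem_image_of_mem _ (mem_filter.2 ⟨hv, hT⟩)⟩
      rw [proj, if_neg hT, hl v hv hT]

theorem exists_pdec {F : List (Term V)} (s : ℕ) (L : Finset V) (y : V → Bool)
    (h : PBad E blk F s L y) : ∃ y', ∃ p ∈ PDec E blk F s y', p.1 ⊆ L ∧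
      (∀ v ∈ p.2, fre E blk p.1 y v) ∧ ∀ v, y v = flp p.2 y' v := by
  induction s generalizing L y with
  | zero => exact ⟨y, (∅, ∅), by simp [PDec], by simp, by simp, fun v => by simp [flp]⟩
  | succ s ih =>
    obtain ⟨C, hC, hne, π, hb⟩ := h
    obtain ⟨y₁, ⟨β₁, γ₁⟩, h1, h2, h3, h4⟩ := ih _ _ hb
    have hl := List.find?_some hC
    simp only [plive, decide_eq_true_eq] at hl h2 h3 h4
    have hβ := pblk_subset (E := E) (blk := blk) L y C
    have hmem : ∀ v ∈ C.1, fre E blk L y v → blk v ∈ pblk E blk L y C := fun v hv hf =>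
      mem_image_of_mem _ (mem_filter.2 ⟨hv, hf⟩)
    set β := pblk E blk L y C with hβe
    set γ := C.1.filter fun v => fre E blk L y v ∧ y v ≠ C.2 v with hγe
    have g1 : ∀ v ∈ γ₁, blk v ∉ β := fun v hv => (mem_sdiff.1 (h2 (h3 v hv).1)).2
    have g2 : ∀ v ∈ γ, blk v ∈ β := fun v hv =>
      hmem v (mem_filter.1 hv).1 (mem_filter.1 hv).2.1
    let y' : V → Bool := fun v => if blk v ∈ β then flp γ y v else y₁ v
    have g3 : ∀ v ∈ γ ∪ γ₁, fre E blk (β ∪ β₁) y v := by
      intro v hv
      rcases mem_union.1 hv with hv | hv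
      · exact ⟨mem_union_left _ (g2 v hv), (mem_filter.1 hv).2.1.2⟩
      · have := (h3 v hv).2
        rw [proj_of_notMem (g1 v hv)] at this
        exact ⟨mem_union_right _ (h3 v hv).1, this⟩
    have g4 : ∀ v, y v = flp (γ ∪ γ₁) y' v := by
      intro v
      by_cases hv : blk v ∈ β
      · have : v ∉ γ₁ := fun h => g1 v h hv
        by_cases hg : v ∈ γ <;> simp [flp, y', hv, this, hg]
      · have : v ∉ γ := fun h => hv (g2 v h)
        have h5 := h4 v
        rw [proj_of_notMem hv] at h5
        simp only [h5, flp, y', hv, mem_union, this, false_or, if_false]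
    have hsub : β ∪ β₁ ⊆ L := union_subset hβ (h2.trans sdiff_subset)
    have g5 : ∀ v, ¬fre E blk L y v → y' v = y v := fun v hv => by
      rw [g4 v, flp, if_neg fun h => hv ⟨hsub (g3 v h).1, (g3 v h).2⟩]
    have hf : F.find? (sat y') = some C := by
      rw [List.find?_eq_some_iff_append] at hC ⊢
      obtain ⟨-, as, bs, e, hC⟩ := hC
      refine ⟨?_, as, bs, e, fun C' hC' => ?_⟩
      · simp only [sat, decide_eq_true_eq]
        intro v hv
        by_cases hT : fre E blk L y v
        · simp only [y', hmem v hv hT, if_true, flp, γ, mem_filter, hv, hT, true_and]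
          cases y v <;> cases C.2 v <;> simp
        · rw [g5 v hT, hl v hv hT]
      · have := hC C' hC'
        simp only [plive, sat, Bool.not_eq_true', decide_eq_false_iff_not] at this ⊢
        exact fun hs => this fun v hv hT => by rw [← hs v hv, g5 v hT]
    refine ⟨y', (β ∪ β₁, γ ∪ γ₁), ?_, hsub, g3, g4⟩
    simp only [PDec, hf, mem_biUnion, mem_image, mem_filter, mem_erase, mem_powerset]
    refine ⟨β, ⟨hne.ne_empty, image_subset_image (filter_subset _ _)⟩, γ,
      fun v hv => mem_filter.2 ⟨(mem_filter.1 hv).1, g2 v hv⟩, β.filter (π · = true),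
      filter_subset _ _, (β₁, γ₁), ⟨?_, disjoint_left.2 fun v hv hv' => (mem_sdiff.1 (h2 hv')).2 hv,
        disjoint_left.2 fun v hv hv' => g1 v hv' (g2 v hv)⟩, rfl⟩
    convert h1 using 2
    funext v
    by_cases hv : blk v ∈ β
    · have h5 := h4 v
      rw [flp, if_neg fun h => g1 v h hv] at h5
      rw [← h5]
      refine proj_congr ?_ fun _ => by simp [hv]
      by_cases hg : v ∈ γ <;> simp [flp, y', hv, hg]
    · rw [proj_of_notMem hv, flp, if_neg fun h => hv (g2 v h)]
      exact if_neg hv

theorem card_pdec {F : List (Term V)} {w : ℕ} (hF : ∀ C ∈ F, C.1.card ≤ w) (s : ℕ)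
    (y : V → Bool) : ∀ p ∈ PDec E blk F s y, p.1.card ≤ s * w := by
  induction s generalizing y with
  | zero => simp [PDec]
  | succ s ih =>
    intro p hp
    rcases hC : F.find? (sat y) with _ | C
    · simp [PDec, hC] at hp
    simp only [PDec, hC, mem_biUnion, mem_image, mem_filter, mem_erase, mem_powerset] at hp
    obtain ⟨β, ⟨-, h0⟩, γ, -, P, -, p₁, ⟨h1, -⟩, rfl⟩ := hp
    have := ((card_le_card h0).trans card_image_le).trans (hF C (List.mem_of_find?_eq_some hC))
    have := ih _ p₁ h1
    have := card_union_le β p₁.1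
    rw [Nat.succ_mul]
    simp only
    omega

theorem sum_pdec (hE : ∀ v, E v = true → blk v = v) {F : List (Term V)} {w : ℕ}
    (hF : ∀ C ∈ F, C.1.card ≤ w) {x : ℝ} (hx : 0 ≤ x) (s : ℕ) (y : V → Bool) :
    ∑ p ∈ PDec E blk F s y, x ^ p.1.card * ∏ v ∈ p.2, (if E v then 1 else x) ≤
      ((1 + x) ^ w * ((1 + 4 * x) ^ w - 1)) ^ s := by
  have hl : 0 ≤ (1 + x) ^ w * ((1 + 4 * x) ^ w - 1) :=
    mul_nonneg (by positivity) (sub_nonneg.2 (one_le_pow₀ (by linarith)))
  have ha : ∀ v, (0 : ℝ) ≤ if E v then 1 else x := fun v => by split_ifs <;> positivity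
  have hn : ∀ p : Finset V × Finset V, 0 ≤ x ^ p.1.card * ∏ v ∈ p.2, (if E v then 1 else x) :=
    fun p => mul_nonneg (by positivity) (prod_nonneg fun v _ => ha v)
  set lam := (1 + x) ^ w * ((1 + 4 * x) ^ w - 1) with hlam
  induction s generalizing y with
  | zero => simp [PDec]
  | succ s ih =>
    rcases hC : F.find? (sat y) with _ | C
    · simp only [PDec, hC, sum_empty]
      positivity
    have hw := hF C (List.mem_of_find?_eq_some hC)
    simp only [PDec, hC]
    refine (sum_biUnion_le' _ _ _ hn).trans ?_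
    refine (sum_le_sum (g := fun β => (4 * x) ^ β.card * ((1 + x) ^ w * lam ^ s))
      fun β _ => ?_).trans ?_
    · refine (sum_biUnion_le' _ _ _ hn).trans ?_
      refine (sum_le_sum (g := fun γ => (∏ v ∈ γ, (if E v then 1 else x)) *
        ((2 * x) ^ β.card * lam ^ s)) fun γ _ => ?_).trans ?_
      · refine (sum_biUnion_le' _ _ _ hn).trans ?_
        refine (sum_le_card_nsmul _ _ ((x ^ β.card * ∏ v ∈ γ, (if E v then 1 else x)) * lam ^ s)
          fun P _ => ?_).trans ?_
        · refine (sum_image_le_of_nonneg fun _ _ => hn _).trans ?_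
          refine le_trans ?_ (mul_le_mul_of_nonneg_left
            (ih (proj E blk β (flp γ y) fun v => decide (v ∈ P))) (hn (β, γ)))
          rw [mul_sum]
          refine (sum_congr rfl fun p hp => ?_).trans_le
            (sum_le_sum_of_subset_of_nonneg (filter_subset _ _)
              fun _ _ _ => mul_nonneg (hn (β, γ)) (hn _))
          rw [card_union_of_disjoint (mem_filter.1 hp).2.1, prod_union (mem_filter.1 hp).2.2,
            pow_add]
          ring
        · rw [card_powerset, nsmul_eq_mul, mul_pow]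
          push_cast
          exact le_of_eq (by ring)
      · rw [← sum_mul, ← prod_one_add,
          ← prod_filter_mul_prod_filter_not (C.1.filter (blk · ∈ β)) (E · = true)]
        have h1 : ∏ v ∈ (C.1.filter (blk · ∈ β)).filter (E · = true),
            (1 + if E v then (1 : ℝ) else x) ≤ 2 ^ β.card := by
          rw [prod_congr rfl fun v hv => by rw [if_pos (mem_filter.1 hv).2], prod_const,
            one_add_one_eq_two]
          refine pow_le_pow_right₀ (by norm_num) (card_le_card fun v hv => ?_)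
          have := (mem_filter.1 (mem_filter.1 hv).1).2
          rwa [hE v (mem_filter.1 hv).2] at this
        have h2 : ∏ v ∈ (C.1.filter (blk · ∈ β)).filter (fun v => ¬E v = true),
            (1 + if E v then (1 : ℝ) else x) ≤ (1 + x) ^ w := by
          rw [prod_congr rfl fun v hv => by rw [if_neg (mem_filter.1 hv).2], prod_const]
          exact pow_le_pow_right₀ (by linarith)
            ((card_filter_le _ _).trans ((card_filter_le _ _).trans hw))
        refine (mul_le_mul_of_nonneg_right (mul_le_mul h1 h2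
          (prod_nonneg fun v _ => add_nonneg zero_le_one (ha v)) (by positivity))
          (by positivity)).trans (le_of_eq ?_)
        rw [show 4 * x = 2 * (2 * x) by ring, mul_pow 2 (2 * x)]
        ring
    · rw [← sum_mul, pow_succ' lam, hlam, mul_comm ((1 + x) ^ w) (_ - 1), mul_assoc (_ - 1),
        mul_comm (_ - 1) ((1 + x) ^ w)]
      refine mul_le_mul_of_nonneg_right ?_ (by positivity)
      have h2 := sum_erase_eq_sub (f := fun D : Finset V => (4 * x) ^ D.card)
        (empty_mem_powerset (C.1.image blk))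
      have h3 : ∑ D ∈ (C.1.image blk).powerset, (4 * x) ^ D.card =
          (1 + 4 * x) ^ (C.1.image blk).card := by
        rw [← prod_const, prod_one_add]
        simp
      have h4 : (1 + 4 * x) ^ (C.1.image blk).card ≤ (1 + 4 * x) ^ w :=
        pow_le_pow_right₀ (by linarith) (card_image_le.trans hw)
      rw [h2, h3]
      simp only [card_empty, pow_zero]
      linarith

end Pool.Agent.MP_a2d820_lc.h69

end MrgPart4

-- ======== part 5: formerly Pool.Agent.MP_a2d820_lc.h69.PReduce
section MrgPart5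

/-!
Depth reduction for bounded-depth circuits under a sequence of random projections.
-/

set_option autoImplicit false

namespace Pool.Agent.MP_a2d820_lc.h69

open Finset

variable {V : Type} [Fintype V] [DecidableEq V] {Ω : Type} [Fintype Ω] {E : V → Bool} {blk : V → V}

/-- The weight of a background assignment. -/
noncomputable def wt (E : V → Bool) (x : ℝ) (y : V → Bool) : ℝ :=
  ∏ v, if E v = true ∨ y v = true then 1 else x

omit [DecidableEq V] in
theorem wt_pos {x : ℝ} (hx : 0 < x) (y : V → Bool) : 0 < wt E x y :=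
  prod_pos fun v _ => by split_ifs <;> positivity

theorem wt_flp (x : ℝ) {γ : Finset V} {y' : V → Bool}
    (h : ∀ v ∈ γ, E v = true ∨ flp γ y' v = false) :
    wt E x (flp γ y') = wt E x y' * ∏ v ∈ γ, (if E v then 1 else x) := by
  rw [← prod_ite_mem_eq γ, wt, wt, ← prod_mul_distrib]
  refine prod_congr rfl fun v _ => ?_
  by_cases hv : v ∈ γ
  · have := h v hv
    cases hE : E v <;> cases hy : y' v <;> simp_all [flp]
  · simp [flp, hv]

theorem wt_miss (x : ℝ) {K : Finset V} (hK : ∀ v ∈ K, E v = false) :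
    (∑ y ∈ ({y : V → Bool | ∀ v ∈ K, y v = true} : Finset _), wt E x y) * (1 + x) ^ K.card =
      ∑ y, wt E x y := by
  have h1 : ({y : V → Bool | ∀ v ∈ K, y v = true} : Finset _) =
      Fintype.piFinset fun v => if v ∈ K then {true} else univ := by
    ext y
    simp only [mem_filter, mem_univ, true_and, Fintype.mem_piFinset]
    refine forall_congr' fun v => ?_
    by_cases hv : v ∈ K <;> simp [hv]
  simp only [wt]
  rw [h1, ← Fintype.piFinset_univ,
    ← prod_univ_sum (f := fun v b => if E v = true ∨ b = true then (1 : ℝ) else x),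
    ← prod_univ_sum (f := fun v b => if E v = true ∨ b = true then (1 : ℝ) else x),
    ← prod_const, ← prod_ite_mem_eq K, ← prod_mul_distrib]
  refine prod_congr rfl fun v _ => ?_
  by_cases hv : v ∈ K
  · simp [hv, hK v hv]
  · simp [hv]

open Classical in
theorem pswitch (hE : ∀ v, E v = true → blk v = v) {nx : Ω → Finset V} {t R : ℕ}
    (h : SubInd nx t R) (hR : 0 < R) {F : List (Term V)} {w s : ℕ} (hF : ∀ C ∈ F, C.1.card ≤ w)
    (ht : s * w ≤ t) :
    ∑ p ∈ ({p : Ω × (V → Bool) | PBad E blk F s (nx p.1) p.2} : Finset _), wt E (1 / R) p.2 ≤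
      ((1 + 1 / R) ^ w * ((1 + 4 * (1 / R)) ^ w - 1)) ^ s *
        (Fintype.card Ω * ∑ y, wt E (1 / R) y) := by
  have hR' : (0 : ℝ) < R := by exact_mod_cast hR
  have hx : (0 : ℝ) < 1 / R := by positivity
  have hsub : ({p : Ω × (V → Bool) | PBad E blk F s (nx p.1) p.2} : Finset _) ⊆
      univ.biUnion fun y' => ((PDec E blk F s y').filter fun q =>
        ∀ v ∈ q.2, E v = true ∨ flp q.2 y' v = false).biUnion fun q =>
          ({ω | q.1 ⊆ nx ω} : Finset Ω) ×ˢ {flp q.2 y'} := by
    intro p hp
    obtain ⟨y', q, h1, h2, h3, h4⟩ := exists_pdec s _ _ (mem_filter.1 hp).2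
    simp only [mem_biUnion, mem_univ, true_and, mem_product, mem_filter, mem_singleton]
    exact ⟨y', q, ⟨h1, fun v hv => h4 v ▸ (h3 v hv).2⟩, h2, funext h4⟩
  have hn : ∀ p : Ω × (V → Bool), 0 ≤ wt E (1 / R) p.2 := fun p => (wt_pos hx _).le
  refine (sum_le_sum_of_subset_of_nonneg hsub fun p _ _ => hn p).trans
    ((sum_biUnion_le' _ _ _ hn).trans ?_)
  rw [mul_sum, mul_sum]
  refine sum_le_sum fun y' _ => (sum_biUnion_le' _ _ _ hn).trans ?_
  refine le_trans ?_ (mul_le_mul_of_nonneg_right (sum_pdec hE hF hx.le s y')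
    (mul_nonneg (Nat.cast_nonneg _) (wt_pos hx _).le))
  rw [sum_mul]
  have hp : ∀ q : Finset V × Finset V, 0 ≤ ∏ v ∈ q.2, (if E v then 1 else (1 / R : ℝ)) :=
    fun q => prod_nonneg fun v _ => by split_ifs <;> positivity
  refine (sum_le_sum fun q hq => ?_).trans (sum_le_sum_of_subset_of_nonneg (filter_subset _ _)
    fun q _ _ => mul_nonneg (mul_nonneg (by positivity) (hp q))
      (mul_nonneg (Nat.cast_nonneg _) (wt_pos hx _).le))
  have h3 : ((#{ω | q.1 ⊆ nx ω} * R ^ q.1.card : ℕ) : ℝ) ≤ Fintype.card Ω := by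
    exact_mod_cast h q.1 ((card_pdec hF s y' q (mem_filter.1 hq).1).trans ht)
  have h4 : (#{ω | q.1 ⊆ nx ω} : ℝ) ≤ (1 / R) ^ q.1.card * Fintype.card Ω := by
    rw [one_div, inv_pow, inv_mul_eq_div, le_div_iff₀ (by positivity)]
    exact_mod_cast h3
  rw [sum_product, sum_congr rfl fun _ _ => sum_singleton _ _]
  simp only [sum_const, nsmul_eq_mul, wt_flp _ (mem_filter.1 hq).2]
  refine (mul_le_mul_of_nonneg_right h4 (mul_nonneg (wt_pos hx _).le (hp q))).trans (le_of_eq ?_)
  ring

theorem plam_le {R w : ℕ} (hR : 0 < R) (h : 24 * w ≤ R) :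
    (1 + 1 / R : ℝ) ^ w * ((1 + 4 * (1 / R)) ^ w - 1) ≤ 1 / 4 := by
  have hR' : (0 : ℝ) < R := by exact_mod_cast hR
  have key : ∀ (a : ℝ) (n : ℕ), 0 ≤ a → (1 + a) ^ n * (1 - n * a) ≤ 1 := by
    intro a n ha
    induction n with
    | zero => simp
    | succ n ih =>
      have h1 : (1 + a) * (1 - (n + 1) * a) ≤ 1 - n * a := by
        have : 0 ≤ (n + 1) * a * a := by positivity
        nlinarith
      have h2 : 0 ≤ (1 + a) ^ n := by positivity
      push_cast
      calc _ = (1 + a) ^ n * ((1 + a) * (1 - (n + 1) * a)) := by ring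
        _ ≤ (1 + a) ^ n * (1 - n * a) := mul_le_mul_of_nonneg_left h1 h2
        _ ≤ 1 := ih
  have h1 := key (4 * (1 / R)) w (by positivity)
  have h2 : (w : ℝ) * (4 * (1 / R)) ≤ 1 / 6 := by
    have : (24 * w : ℝ) ≤ R := by exact_mod_cast h
    rw [show (w : ℝ) * (4 * (1 / R)) = 4 * w / R by ring, div_le_iff₀ hR']
    linarith
  have hx : (0 : ℝ) < 1 / R := by positivity
  have h3 : 1 ≤ (1 + 4 * (1 / R : ℝ)) ^ w := one_le_pow₀ (by linarith)
  have h4 : (1 + 1 / R : ℝ) ^ w ≤ (1 + 4 * (1 / R : ℝ)) ^ w :=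
    pow_le_pow_left₀ (by positivity) (by linarith) _
  have h5 : (1 + 4 * (1 / R : ℝ)) ^ w ≤ 6 / 5 := by nlinarith
  nlinarith

omit [Fintype V] [DecidableEq V] in
theorem dt_comp {V' : Type} {d : ℕ} {f : (V → Bool) → Bool} (h : DT d f)
    {ρ : (V' → Bool) → V → Bool} (hρ : ∀ v, DT 1 fun z => ρ z v) : DT d (f ∘ ρ) := by
  have := (h.precomp (Q' := {g | DT 1 g}) ρ (by
    rintro _ ⟨v, rfl⟩
    exact hρ v)).comp fun g hg => hg
  simpa using this

/-- `m` rounds of random projections that end in a good substitution. -/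
def Game (Ω : Type) [Fintype Ω] (E : V → Bool) (blk : V → V) (t R : ℕ)
    (Good : ((V → Bool) → V → Bool) → Prop) : ℕ → ((V → Bool) → V → Bool) → Prop
  | 0, ρ => Good ρ
  | m + 1, ρ => ∃ nx : Ω → Finset V, SubInd nx t R ∧ ∃ X : Finset (Finset V),
      (∀ K ∈ X, (∀ v ∈ K, E v = false) ∧ (2 * X.card : ℝ) ≤ (1 + 1 / R) ^ K.card) ∧
      ∀ ω y, (∀ K ∈ X, ∃ v ∈ K, y v = false) →
        Game Ω E blk t R Good m (ρ ∘ proj E blk (nx ω) y)

theorem preduce [Nonempty Ω] (hE : ∀ v, E v = true → blk v = v) {w N s t R : ℕ}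
    {Good : ((V → Bool) → V → Bool) → Prop} (hw : 1 ≤ w) (hN : N < 2 ^ s) (hs : 1 ≤ s) (k m : ℕ)
    (ht : (s * w) ^ k * w ≤ t) (hR : 24 * ((s * w) ^ k * w) ≤ R) (ρ : (V → Bool) → V → Bool)
    (hρ : ∀ v, DT 1 fun z => ρ z v) (F : Finset ((V → Bool) → Bool)) (hF : F.card ≤ N)
    (hAC : AC w N k (F : Set ((V → Bool) → Bool))) (hS : Game Ω E blk t R Good (k + m) ρ) :
    ∃ ρ', (∀ v, DT 1 fun z => ρ' z v) ∧ Game Ω E blk t R Good m ρ' ∧
      ∀ f ∈ F, DT ((s * w) ^ k * w) (f ∘ ρ') := by
  classical
  induction k generalizing m F with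
  | zero =>
    rw [zero_add] at hS
    exact ⟨ρ, hρ, hS, fun f hf => by simpa using dt_comp (hAC f hf) hρ⟩
  | succ k ih =>
    obtain ⟨G, hG, hGAC, hor⟩ := hAC
    have hpos : 1 ≤ (s * w) ^ k * w := Nat.mul_pos (Nat.pow_pos (Nat.mul_pos hs hw)) hw
    have he : (s * w) ^ (k + 1) * w = s * (w * ((s * w) ^ k * w)) := by ring
    have hle : w * ((s * w) ^ k * w) ≤ (s * w) ^ (k + 1) * w := by
      rw [he]; exact Nat.le_mul_of_pos_left _ hs
    have hle' : (s * w) ^ k * w ≤ w * ((s * w) ^ k * w) := Nat.le_mul_of_pos_left _ hw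
    obtain ⟨ρ₁, h1, ⟨nx, hind, X, hX, hnx⟩, h3⟩ := ih (m + 1) (by omega) (by omega) G hG hGAC
      (by rwa [add_assoc, add_comm 1 m] at hS)
    have h4 : ∀ f ∈ F, ∃ L : List (Term V), (∀ C ∈ L, C.1.card ≤ w * ((s * w) ^ k * w)) ∧
        ∀ z, L.any (sat z) = f (ρ₁ z) := by
      intro f hf
      obtain ⟨H, hH, hfH⟩ := hor f hf
      refine exists_dnf (G := (· ∘ ρ₁) '' H) ?_ fun z => ?_
      · rintro _ ⟨g, hg, rfl⟩
        refine ((hH g hg).precomp (Q' := {g | DT ((s * w) ^ k * w) g}) ρ₁ ?_).comp fun g hg => hg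
        rintro q (hq | hq)
        · exact h3 q hq
        · exact (dt_comp hq h1).mono hpos
      · rw [hfH]
        simp
    choose! L hL1 hL2 using h4
    have hR0 : 0 < R := by omega
    have hx : (0 : ℝ) < 1 / R := by positivity
    have h5 : ∃ p : Ω × (V → Bool), (∀ f ∈ F, ¬PBad E blk (L f) s (nx p.1) p.2) ∧
        ∀ K ∈ X, ∃ v ∈ K, p.2 v = false := by
      by_contra hc
      have hsub : (univ : Finset (Ω × (V → Bool))) ⊆
          (F.biUnion fun f => {p : Ω × (V → Bool) | PBad E blk (L f) s (nx p.1) p.2}) ∪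
            X.biUnion fun K => (univ : Finset Ω) ×ˢ ({y : V → Bool | ∀ v ∈ K, y v = true} : Finset _) := by
        intro p _
        by_contra hp
        simp only [mem_union, mem_biUnion, mem_filter, mem_univ, true_and, mem_product, not_or,
          not_exists, not_and, not_forall, Bool.not_eq_true] at hp
        exact hc ⟨p, hp.1, fun K hK => let ⟨v, hv, h⟩ := hp.2 K hK; ⟨v, hv, h⟩⟩
      have hn : ∀ p : Ω × (V → Bool), 0 ≤ wt E (1 / R) p.2 := fun p => (wt_pos hx _).le
      set Z := (Fintype.card Ω : ℝ) * ∑ y, wt E (1 / R) y with hZ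
      have hZ0 : 0 < Z := mul_pos (by exact_mod_cast Fintype.card_pos)
        (sum_pos (fun y _ => wt_pos hx y) univ_nonempty)
      have h6 := sum_le_sum_of_subset_of_nonneg hsub fun p _ _ => hn p
      have h6' := sum_union_inter (f := fun p : Ω × (V → Bool) => wt E (1 / R) p.2)
        (s₁ := F.biUnion fun f => {p : Ω × (V → Bool) | PBad E blk (L f) s (nx p.1) p.2})
        (s₂ := X.biUnion fun K => (univ : Finset Ω) ×ˢ ({y : V → Bool | ∀ v ∈ K, y v = true} : Finset _))
      have h6'' := sum_nonneg fun p (_ : p ∈ (F.biUnion fun f =>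
        {p : Ω × (V → Bool) | PBad E blk (L f) s (nx p.1) p.2}) ∩
          X.biUnion fun K => (univ : Finset Ω) ×ˢ ({y : V → Bool | ∀ v ∈ K, y v = true} : Finset _)) => hn p
      have h7 := (sum_biUnion_le' F _ _ hn).trans (sum_le_card_nsmul F _ ((1 / 4) ^ s * Z)
        fun f hf => (pswitch hE hind hR0 (hL1 f hf) (by omega)).trans
          (mul_le_mul_of_nonneg_right (pow_le_pow_left₀ (mul_nonneg (by positivity)
            (sub_nonneg.2 (one_le_pow₀ (by linarith)))) (plam_le hR0 (by omega)) _) hZ0.le))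
      have h8 : ∑ K ∈ X, ∑ p ∈ (univ : Finset Ω) ×ˢ ({y : V → Bool | ∀ v ∈ K, y v = true} :
          Finset _), wt E (1 / R) p.2 ≤ Z / 2 := by
        rcases X.eq_empty_or_nonempty with rfl | hne
        · simp only [sum_empty]
          positivity
        have hc : (0 : ℝ) < X.card := by exact_mod_cast hne.card_pos
        refine (sum_le_card_nsmul X _ (Z / (2 * X.card)) fun K hK => ?_).trans (le_of_eq ?_)
        · rw [sum_product, le_div_iff₀ (by positivity), hZ, ← wt_miss _ (hX K hK).1]
          simp only [sum_const, nsmul_eq_mul, card_univ]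
          rw [mul_assoc]
          exact mul_le_mul_of_nonneg_left (mul_le_mul_of_nonneg_left (hX K hK).2
            (sum_nonneg fun y _ => (wt_pos hx y).le)) (Nat.cast_nonneg _)
        · rw [nsmul_eq_mul]
          field_simp
      have h8' := (sum_biUnion_le' X _ _ hn).trans h8
      have h9 : ∑ p : Ω × (V → Bool), wt E (1 / R) p.2 = Z := by
        rw [Fintype.sum_prod_type]
        simp [hZ]
      have h11 : (F.card : ℝ) < 2 ^ s := by exact_mod_cast hF.trans_lt hN
      have h12 : (F.card : ℝ) * (1 / 4) ^ s < 1 / 2 := by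
        have h13 : (2 : ℝ) ^ 1 ≤ 2 ^ s := pow_le_pow_right₀ (by norm_num) hs
        rw [one_div, inv_pow, ← div_eq_mul_inv, div_lt_iff₀ (by positivity),
          show (4 : ℝ) = 2 * 2 by norm_num, mul_pow]
        nlinarith
      rw [nsmul_eq_mul, ← mul_assoc] at h7
      have h13 := mul_lt_mul_of_pos_right h12 hZ0
      linarith
    obtain ⟨⟨ω, y⟩, h5, h6⟩ := h5
    refine ⟨ρ₁ ∘ proj E blk (nx ω) y, fun v => dt_comp (h1 v) (dt_proj _ _), hnx ω y h6,
      fun f hf => ?_⟩
    rw [he]
    exact (dt_of_not_pbad (hL1 f hf) s _ _ (h5 f hf)).congr fun z => hL2 f hf _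

end Pool.Agent.MP_a2d820_lc.h69

end MrgPart5

-- marker of a merged file
example : 731051 + 214352 = 731051 + 214352 := rfl

end MrgPart1

-- marker of a merged file
example : 731051 + 214352 = 731051 + 214352 := rfl
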